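import Pool.Agent.Flea.Defs

/-! # MP_fb7c71_nt: lattices -/

set_option autoImplicit false

namespace Pool.Agent.Flea

-- MODULE l1
theorem N_mul_N (a b : G) : N a * N b = R a b ^ 2 + D a b ^ 2 := by
  unfold N R D
  ring

theorem lat_iff {a b u : G} (h : 0 < D a b) : Lat a b u ↔ D a b ∣ D a u ∧ D a b ∣ D b u := by
  constructor
  · rintro ⟨x, y, rfl⟩
    refine ⟨⟨y, ?_⟩, ⟨-x, ?_⟩⟩
    · unfold D
      rw [re_comb, im_comb]
      ring
    · unfold D
      rw [re_comb, im_comb]
      ring
  · rintro ⟨⟨k, hk⟩, ⟨l, hl⟩⟩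
    refine ⟨-l, k, ?_⟩
    have h1 : D a b * u.re = D a b * (-l * a.re + k * b.re) := by
      have e : D a b * u.re = -D b u * a.re + D a u * b.re := by unfold D; ring
      rw [e, hk, hl]; ring
    have h2 : D a b * u.im = D a b * (-l * a.im + k * b.im) := by
      have e : D a b * u.im = -D b u * a.im + D a u * b.im := by unfold D; ring
      rw [e, hk, hl]; ring
    apply ext'
    · rw [re_comb]
      exact mul_left_cancel₀ h.ne' h1
    · rw [im_comb]
      exact mul_left_cancel₀ h.ne' h2

private theorem l1_dvd {a b u w : G} (hu : Lat a b u) (hw : Lat a b w) : D a b ∣ D u w := by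
  obtain ⟨x, y, rfl⟩ := hu
  obtain ⟨z, t, rfl⟩ := hw
  rw [D_comb]
  exact dvd_mul_left _ _

private theorem l1_id (v u w : G) : N u * D v w = R v u * D u w + D v u * R u w := by
  unfold N R D
  ring

/-- two lattices with the same `D` and a common vector of norm prime to `D` are equal -/
theorem lat_of_common {a b a' b' u w : G} (h : 0 < D a b) (hD : D a' b' = D a b) (hu : Lat a b u)
    (hu' : Lat a' b' u) (hc : IsCoprime (N u) (D a b)) (hw : Lat a b w) : Lat a' b' w := by
  have h1 : D a b ∣ D u w := l1_dvd hu hw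
  have key : ∀ v, D a b ∣ D v u → D a b ∣ D v w := by
    intro v hv
    have h2 : D a b ∣ N u * D v w := by
      rw [l1_id]
      exact dvd_add (dvd_mul_of_dvd_right h1 _) (dvd_mul_of_dvd_left hv _)
    exact hc.symm.dvd_of_dvd_mul_left h2
  have h3 := (lat_iff (by rw [hD]; exact h)).1 hu'
  rw [hD] at h3
  refine (lat_iff (by rw [hD]; exact h)).2 ?_
  rw [hD]
  exact ⟨key a' h3.1, key b' h3.2⟩

-- MODULE l2
/-- the normalised basis is determined by the lattice -/
theorem node_ext {RR : G → G → Prop} {a b a' b' : G} (h : Node RR a b) (h' : Node RR a' b')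
    (hD : D a' b' = D a b) (hl : ∀ w, Lat a b w → Lat a' b' w) : a = a' ∧ b = b' := by
  obtain ⟨x, y, hb⟩ := hl b ⟨0, 1, by simp⟩
  obtain ⟨x2, y2, ha⟩ := hl a ⟨1, 0, by simp⟩
  have hbre : b.re = x * a'.re + y * b'.re := by
    have := congrArg Zsqrtd.re hb
    rwa [re_comb] at this
  have hbim : b.im = x * a'.im + y * b'.im := by
    have := congrArg Zsqrtd.im hb
    rwa [im_comb] at this
  have hare : a.re = x2 * a'.re + y2 * b'.re := by
    have := congrArg Zsqrtd.re ha
    rwa [re_comb] at this
  have haim : a.im = x2 * a'.im + y2 * b'.im := by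
    have := congrArg Zsqrtd.im ha
    rwa [im_comb] at this
  have h1 : D b b' = x * D a b := by
    rw [← hD]
    unfold D
    rw [hbre, hbim]
    ring
  have hpos := h.pos
  have hd := h.dir
  have hd' := h'.dir
  have e1 := le_abs_self b.re
  have e2 := neg_abs_le b.re
  have e3 := le_abs_self b'.re
  have e4 := neg_abs_le b'.re
  have e5 := abs_nonneg b.re
  have e6 := abs_nonneg b'.re
  have q0 : 0 ≤ b.im := by linarith
  have q0' : 0 ≤ b'.im := by linarith
  have h2 : 4 * D b b' ≤ 2 * (b.im * b'.im) := by
    have i1 : 4 * b.re * b'.im ≤ b.im * b'.im := mul_le_mul_of_nonneg_right (by linarith) q0'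
    have i2 : b.im * (-(4 * b'.re)) ≤ b.im * b'.im := mul_le_mul_of_nonneg_left (by linarith) q0
    unfold D
    linarith
  have h3 : -(2 * (b.im * b'.im)) ≤ 4 * D b b' := by
    have i1 : -(4 * b.re) * b'.im ≤ b.im * b'.im := mul_le_mul_of_nonneg_right (by linarith) q0'
    have i2 : b.im * (4 * b'.re) ≤ b.im * b'.im := mul_le_mul_of_nonneg_left (by linarith) q0
    unfold D
    linarith
  have h4 : 8 * (b.im * b'.im) ≤ 9 * D a b := by
    have i1 : b.im ^ 2 ≤ N b := by unfold N; nlinarith [sq_nonneg b.re]
    have i2 : b'.im ^ 2 ≤ N b' := by unfold N; nlinarith [sq_nonneg b'.re]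
    have i3 := h.nb
    have i4 := h'.nb
    rw [hD] at i4
    nlinarith [sq_nonneg (b.im - b'.im)]
  have hx : x = 0 := by
    rw [h1] at h2 h3
    have i1 : x < 1 := by
      by_contra hc
      push Not at hc
      nlinarith [mul_le_mul_of_nonneg_right hc hpos.le]
    have i2 : -1 < x := by
      by_contra hc
      push Not at hc
      nlinarith [mul_le_mul_of_nonneg_right hc hpos.le]
    omega
  subst hx
  have hb1 : b.re = y * b'.re := by rw [hbre]; ring
  have hb2 : b.im = y * b'.im := by rw [hbim]; ring
  have hNb : 0 < N b := lt_of_lt_of_le hpos h.bn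
  have hbim0 : 0 < b.im := by
    rcases q0.lt_or_eq with h5 | h5
    · exact h5
    · exfalso
      have h6 : b.re = 0 := by
        have : |b.re| = 0 := by linarith
        exact abs_eq_zero.1 this
      unfold N at hNb
      rw [h6, ← h5] at hNb
      norm_num at hNb
  have hy : 0 < y := by
    by_contra hc
    push Not at hc
    have := mul_nonneg (neg_nonneg.2 hc) q0'
    rw [hb2] at hbim0
    linarith
  have h5 : D a b = (x2 * y) * D a b := by
    conv_rhs => rw [← hD]
    unfold D
    rw [hb1, hb2, hare, haim]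
    ring
  have h6 : x2 * y = 1 := by
    have h7 : (x2 * y - 1) * D a b = 0 := by linarith
    rcases mul_eq_zero.1 h7 with h8 | h8
    · linarith
    · exact absurd h8 hpos.ne'
  have hy1 : y = 1 := by
    have h7 : y ∣ 1 := ⟨x2, by rw [← h6]; ring⟩
    exact Int.eq_one_of_dvd_one hy.le h7
  subst hy1
  have hx2 : x2 = 1 := by linarith
  subst hx2
  have hbb : b = b' := ext' (by rw [hb1]; ring) (by rw [hb2]; ring)
  subst hbb
  have hR : R a b = R a' b + y2 * N b := by
    unfold R N
    rw [hare, haim]
    ring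
  have r0 := h.r0
  have r1 := h.r1
  have r0' := h'.r0
  have r1' := h'.r1
  have hy2 : y2 = 0 := by
    have i1 : y2 < 1 := by
      by_contra hc
      push Not at hc
      nlinarith [mul_le_mul_of_nonneg_right hc hNb.le]
    have i2 : -1 < y2 := by
      by_contra hc
      push Not at hc
      nlinarith [mul_le_mul_of_nonneg_right hc hNb.le]
    omega
  subst hy2
  refine ⟨ext' (by rw [hare]; ring) (by rw [haim]; ring), rfl⟩

-- MODULE l3
theorem node_unique {RR : G → G → Prop} {a b a' b' u : G} (h : Node RR a b) (h' : Node RR a' b')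
    (hD : D a' b' = D a b) (hu : Lat a b u) (hu' : Lat a' b' u) (hc : IsCoprime (N u) (D a b)) :
    a = a' ∧ b = b' :=
  node_ext h h' hD fun _ hw => lat_of_common h.pos hD hu hu' hc hw

theorem child_unique {RR : G → G → Prop} {p p' q : G × G} (h : Child RR p q) (h' : Child RR p' q) : p = p' := by
  have h1 := h.nrm
  have h2 := h'.nrm
  have h3 : D p'.1 p'.2 = D p.1 p.2 := by linarith
  obtain ⟨h4, h5⟩ := node_ext h.np h'.np h3 fun w hw => (h'.lat w).2 ((h.lat w).1 hw)
  exact Prod.ext h4 h5

theorem child_lt {RR : G → G → Prop} {p q : G × G} (h : Child RR p q) : 8 * D p.1 p.2 ≤ D q.1 q.2 := by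
  have h1 := h.nrm
  have h2 := h.nq.nb
  linarith

-- MODULE l4
private theorem l4_mono {RR : G → G → Prop} {p q : G × G}
    (h : Relation.ReflTransGen (Child RR) p q) : D p.1 p.2 ≤ D q.1 q.2 := by
  induction h with
  | refl => exact le_rfl
  | tail _ h2 ih =>
    have h3 := child_lt h2
    have h4 := h2.np.pos
    linarith

private theorem l4_aux {RR : G → G → Prop} {p c c' : G × G} (h : Child RR p c)
    (h' : Child RR p c') (hq : Relation.ReflTransGen (Child RR) c c') : c = c' := by
  rcases Relation.ReflTransGen.cases_tail hq with h1 | ⟨d, h1, h2⟩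
  · exact h1.symm
  · have h3 : d = p := child_unique h2 h'
    subst h3
    have h4 := l4_mono h1
    have h5 := child_lt h
    have h6 := h.np.pos
    linarith

/-- the descendants of different children are different -/
theorem desc_disjoint {RR : G → G → Prop} {p c c' q : G × G} (h : Child RR p c) (h' : Child RR p c')
    (hq : Relation.ReflTransGen (Child RR) c q) (hq' : Relation.ReflTransGen (Child RR) c' q) : c = c' := by
  have U : Relator.RightUnique (Function.swap (Child RR)) := fun _ _ _ h1 h2 => child_unique h1 h2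
  have h1 : Relation.ReflTransGen (Function.swap (Child RR)) q c := Relation.reflTransGen_swap.2 hq
  have h2 : Relation.ReflTransGen (Function.swap (Child RR)) q c' :=
    Relation.reflTransGen_swap.2 hq'
  rcases Relation.ReflTransGen.total_of_right_unique U h1 h2 with h3 | h3
  · exact (l4_aux h' h (Relation.reflTransGen_swap.1 h3)).symm
  · exact l4_aux h h' (Relation.reflTransGen_swap.1 h3)

end Pool.Agent.Flea
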