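import Pool.Agent.Flea.Cov
import Pool.Agent.Flea.Lat

/-! # MP_fb7c71_nt: children -/

set_option autoImplicit false

namespace Pool.Agent.Flea

-- MODULE b1
private theorem b1_II : I * I = -1 := by
  apply ext'
  · rw [re_I_mul]; simp
  · rw [im_I_mul]; simp

/-- the neighbour of the circle of `(a, b)` at the vector `u`, with a basis `(a', I u)`, `0 ≤ R a' (I u) < N u` -/
theorem neighbour {RR : G → G → Prop} (hc : Clo RR) {a b : G} (hab : RR a b) (hcop : IsCoprime a b)
    {x y : ℤ} (hxy : IsCoprime x y) {u : G} (hu : u = x * a + y * b) (hu0 : 0 < N u) :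
    ∃ a' : G, RR a' (I * u) ∧ IsCoprime a' (I * u) ∧ D a' (I * u) = N u - D a b ∧ 0 ≤ R a' (I * u) ∧
      R a' (I * u) < N u ∧ ∀ z, Lat a b z ↔ Lat u (I * (u - a')) z := by
  obtain ⟨s, t, hst⟩ := hxy
  have hd : x * s - y * (-t) = 1 := by linarith
  obtain ⟨w, hw⟩ : ∃ w : G, w = ((-t : ℤ) : G) * a + (s : G) * b := ⟨_, rfl⟩
  have h1 : RR u w := by rw [hu, hw]; exact sl2 hc hab hd
  have h2 : RR (-w) u := by
    have h := sl2 hc h1 (x := 0) (y := -1) (z := 1) (w := 0) (by norm_num)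
    have e1 : ((0 : ℤ) : G) * u + ((-1 : ℤ) : G) * w = -w := by push_cast; ring
    have e2 : ((1 : ℤ) : G) * u + ((0 : ℤ) : G) * w = u := by push_cast; ring
    rwa [e1, e2] at h
  have h3 := hc.rot _ _ h2
  have h4 : RR (u + I * w) (I * u) := by
    have h := sl2 hc h3 (x := 0) (y := -1) (z := 1) (w := 0) (by norm_num)
    have e1 : ((0 : ℤ) : G) * (I * u) + ((-1 : ℤ) : G) * (I * -w - u) = u + I * w := by
      push_cast; ring
    have e2 : ((1 : ℤ) : G) * (I * u) + ((0 : ℤ) : G) * (I * -w - u) = I * u := by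
      push_cast; ring
    rwa [e1, e2] at h
  obtain ⟨k, hk⟩ : ∃ k : ℤ, k = -(R (u + I * w) (I * u) / N u) := ⟨_, rfl⟩
  have h5 : RR (u + I * w + (k : G) * (I * u)) (I * u) := by
    have h := sl2 hc h4 (x := 1) (y := k) (z := 0) (w := 1) (by norm_num)
    have e1 : ((1 : ℤ) : G) * (u + I * w) + (k : G) * (I * u) =
        u + I * w + (k : G) * (I * u) := by push_cast; ring
    have e2 : ((0 : ℤ) : G) * (u + I * w) + ((1 : ℤ) : G) * (I * u) = I * u := by
      push_cast; ring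
    rwa [e1, e2] at h
  have hII : I * I = -1 := b1_II
  have hDuw : D u w = D a b := by
    rw [hu, hw, D_comb]
    rw [hd, one_mul]
  have hD : D (u + I * w + (k : G) * (I * u)) (I * u) = N u - D a b := by
    rw [← hDuw]
    simp only [D, N, Zsqrtd.re_add, Zsqrtd.im_add, re_I_mul, im_I_mul, re_mul_int, im_mul_int]
    ring
  have hR : R (u + I * w + (k : G) * (I * u)) (I * u) =
      R (u + I * w) (I * u) + k * N u := by
    simp only [R, N, Zsqrtd.re_add, Zsqrtd.im_add, re_I_mul, im_I_mul, re_mul_int, im_mul_int]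
    ring
  have hR2 : R (u + I * w + (k : G) * (I * u)) (I * u) = R (u + I * w) (I * u) % N u := by
    rw [hR, hk, Int.emod_def]
    ring
  have hau : a = (s : G) * u - (y : G) * w := by
    rw [hu, hw]
    have h6 : ((x : G) * s + (y : G) * t) = 1 := by
      have h7 := congrArg (fun q : ℤ => (q : G)) hst
      push_cast at h7
      linear_combination h7
    push_cast
    linear_combination (-a) * h6
  have hbu : b = (t : G) * u + (x : G) * w := by
    rw [hu, hw]
    have h6 : ((x : G) * s + (y : G) * t) = 1 := by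
      have h7 := congrArg (fun q : ℤ => (q : G)) hst
      push_cast at h7
      linear_combination h7
    push_cast
    linear_combination (-b) * h6
  refine ⟨u + I * w + (k : G) * (I * u), h5, ?_, hD, ?_, ?_, fun z => ?_⟩
  · obtain ⟨α, β, hαβ⟩ := hcop
    have h6 : (α * s + β * t) * u + (β * x - α * y) * w = 1 := by
      rw [hau, hbu] at hαβ
      linear_combination hαβ
    refine ⟨-((β * x - α * y) * I), (α * s + β * t) * (-I) + (β * x - α * y) * (1 + k * I), ?_⟩
    linear_combination h6 + (-(α * s + β * t) * u - (β * x - α * y) * w) * hII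
  · rw [hR2]
    exact Int.emod_nonneg _ (ne_of_gt hu0)
  · rw [hR2]
    exact Int.emod_lt_of_pos _ hu0
  · have e1 : I * (u - (u + I * w + (k : G) * (I * u))) = w + (k : G) * u := by
      linear_combination (-w - (k : G) * u) * hII
    rw [e1]
    constructor
    · rintro ⟨p, q, rfl⟩
      refine ⟨p * s + q * t - k * (q * x - p * y), q * x - p * y, ?_⟩
      rw [hau, hbu]
      push_cast
      ring
    · rintro ⟨p, q, rfl⟩
      refine ⟨(p + q * k) * x + q * (-t), (p + q * k) * y + q * s, ?_⟩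
      rw [hw, hu]
      push_cast
      ring

-- MODULE b2
/-- a child (with `P = x N b + y R a b`) -/
theorem child_exists {RR : G → G → Prop} (hc : Clo RR) {a b : G} (h : Node RR a b) {x y : ℤ}
    (hxy : IsCoprime x y) (hy : 5 ≤ y)
    (hP : (0 ≤ b.re ∧ 0 ≤ x * N b + y * R a b ∧ 4 * (x * N b + y * R a b) ≤ y * D a b) ∨
      (b.re < 0 ∧ -(y * D a b) ≤ 4 * (x * N b + y * R a b) ∧ x * N b + y * R a b ≤ 0)) :
    ∃ a' : G, Child RR (a, b) (a', I * (y * a + x * b)) ∧
      16 * D a' (I * (y * a + x * b)) ≤ 17 * y ^ 2 * D a b := by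
  obtain ⟨u, hu⟩ : ∃ u : G, u = (y : G) * a + (x : G) * b := ⟨_, rfl⟩
  obtain ⟨P, hPd⟩ : ∃ P : ℤ, P = x * N b + y * R a b := ⟨_, rfl⟩
  rw [← hPd] at hP
  have hD := h.pos
  have hbn := h.bn
  have hnb := h.nb
  have hdir := abs_le.1 (show |4 * b.re| ≤ b.im by
    rw [abs_mul, abs_of_pos (by norm_num : (0 : ℤ) < 4)]; exact h.dir)
  have hy0 : 0 < y := by linarith
  have hyD : 0 < y * D a b := mul_pos hy0 hD
  have hM : 0 < N b := lt_of_lt_of_le hD hbn
  have hbim : 0 ≤ b.im := by linarith [hdir.1, hdir.2]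
  have hN : N u * N b = P ^ 2 + (y * D a b) ^ 2 := by
    rw [hu, N_comb_mul, hPd]; ring
  have hP4 : 16 * P ^ 2 ≤ (y * D a b) ^ 2 := by
    rcases hP with ⟨_, h1, h2⟩ | ⟨_, h1, h2⟩
    · nlinarith
    · nlinarith
  have hNu1 : 16 * N u ≤ 17 * y ^ 2 * D a b := by
    have h1 : 16 * (N u * N b) ≤ 17 * y ^ 2 * D a b * N b := by
      rw [hN]
      have h2 : (y * D a b) ^ 2 ≤ y ^ 2 * D a b * N b := by
        have h3 : y ^ 2 * D a b * D a b ≤ y ^ 2 * D a b * N b :=
          mul_le_mul_of_nonneg_left hbn (by positivity)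
        nlinarith
      nlinarith
    have h2 : (16 * N u) * N b ≤ (17 * y ^ 2 * D a b) * N b := by linarith
    exact le_of_mul_le_mul_right h2 hM
  have hNu2 : 9 * D a b ≤ N u := by
    have h1 : (9 * D a b) * N b ≤ N u * N b := by
      rw [hN]
      have h2 : 25 * (D a b) ^ 2 ≤ (y * D a b) ^ 2 := by
        have h3 : 5 * D a b ≤ y * D a b := mul_le_mul_of_nonneg_right hy hD.le
        nlinarith
      nlinarith [sq_nonneg P]
    exact le_of_mul_le_mul_right h1 hM
  have hNpos : 0 < N u := by linarith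
  obtain ⟨a', h1, h2, h3, h4, h5, h6⟩ := neighbour hc h.rr h.cop hxy.symm hu hNpos
  have hre : N b * u.re = P * b.re + y * D a b * b.im := by
    rw [hPd, hu]
    simp only [N, R, D, re_comb]
    ring
  have him : N b * u.im = P * b.im - y * D a b * b.re := by
    rw [hPd, hu]
    simp only [N, R, D, im_comb]
    ring
  have hdir2 : 4 * |u.im| ≤ u.re := by
    have h7 : y * D a b * b.im ≤ N b * u.re := by
      rw [hre]
      rcases hP with ⟨g1, g2, g3⟩ | ⟨g1, g2, g3⟩
      · nlinarith [mul_nonneg g2 g1]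
      · nlinarith [mul_nonneg (neg_nonneg.2 g3) (neg_nonneg.2 g1.le)]
    have h8 : 4 * (N b * u.im) ≤ y * D a b * b.im := by
      rw [him]
      rcases hP with ⟨g1, g2, g3⟩ | ⟨g1, g2, g3⟩
      · nlinarith [mul_le_mul_of_nonneg_right g3 hbim, mul_nonneg hyD.le g1]
      · nlinarith [mul_nonneg (neg_nonneg.2 g3) hbim,
          mul_le_mul_of_nonneg_left (show -(4 * b.re) ≤ b.im by linarith [hdir.1]) hyD.le]
    have h9 : -(y * D a b * b.im) ≤ 4 * (N b * u.im) := by
      rw [him]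
      rcases hP with ⟨g1, g2, g3⟩ | ⟨g1, g2, g3⟩
      · nlinarith [mul_nonneg g2 hbim,
          mul_le_mul_of_nonneg_left (show 4 * b.re ≤ b.im by linarith [hdir.2]) hyD.le]
      · nlinarith [mul_le_mul_of_nonneg_right g2 hbim,
          mul_nonneg hyD.le (neg_nonneg.2 g1.le)]
    have h10 : |4 * u.im| ≤ u.re := by
      rw [abs_le]
      constructor
      · have : N b * (-u.re) ≤ N b * (4 * u.im) := by linarith
        exact le_of_mul_le_mul_left this hM
      · have : N b * (4 * u.im) ≤ N b * u.re := by linarith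
        exact le_of_mul_le_mul_left this hM
    rwa [abs_mul, abs_of_pos (by norm_num : (0 : ℤ) < 4)] at h10
  rw [← hu]
  have e1 : -(I * (I * u)) = u := by linear_combination (-u) * b1_II
  refine ⟨a', ⟨h, ⟨h1, h2, ?_, h4, ?_, ?_, ?_, ?_⟩, ?_, fun z => ?_⟩, ?_⟩
  · change 0 < D a' (I * u)
    rw [h3]; linarith
  · change R a' (I * u) < N (I * u)
    rw [N_I_mul]; exact h5
  · change D a' (I * u) ≤ N (I * u)
    rw [N_I_mul, h3]; linarith
  · change 8 * N (I * u) ≤ 9 * D a' (I * u)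
    rw [N_I_mul, h3]; linarith
  · change 4 * |(I * u).re| ≤ (I * u).im
    rw [re_I_mul, im_I_mul, abs_neg]; exact hdir2
  · change N (I * u) = D a b + D a' (I * u)
    rw [N_I_mul, h3]; ring
  · change Lat a b z ↔ Lat (-(I * (I * u))) (I * (-(I * (I * u)) - a')) z
    rw [e1]
    exact h6 z
  · rw [h3]; linarith

-- MODULE b3
/-- there are many children: `2 y / 9 - 2` of them for the prime `y` -/
theorem children {RR : G → G → Prop} (hc : Clo RR) {a b : G} (h : Node RR a b) (Y : Finset ℕ)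
    (hY : ∀ y ∈ Y, y.Prime ∧ 5 ≤ y) : ∃ S : ℕ → Finset (G × G),
      (∀ y ∈ Y, ∀ q ∈ S y, Child RR (a, b) q ∧ 16 * D q.1 q.2 ≤ 17 * (y : ℤ) ^ 2 * D a b) ∧
      (∀ y ∈ Y, 2 * y ≤ 9 * ((S y).card + 2)) ∧ (Y : Set ℕ).PairwiseDisjoint S := by
  classical
  have hD := h.pos
  have hbn := h.bn
  have hnb := h.nb
  have hM : 0 < N b := lt_of_lt_of_le hD hbn
  have hex : ∀ y x : ℤ, (IsCoprime x y ∧ 5 ≤ y ∧
      ((0 ≤ b.re ∧ 0 ≤ x * N b + y * R a b ∧ 4 * (x * N b + y * R a b) ≤ y * D a b) ∨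
      (b.re < 0 ∧ -(y * D a b) ≤ 4 * (x * N b + y * R a b) ∧ x * N b + y * R a b ≤ 0))) →
      ∃ a' : G, Child RR (a, b) (a', I * ((y : G) * a + (x : G) * b)) ∧
      16 * D a' (I * ((y : G) * a + (x : G) * b)) ≤ 17 * y ^ 2 * D a b :=
    fun y x hh => child_exists hc h hh.1 hh.2.1 hh.2.2
  choose! A hA using hex
  have hrange : ∀ y : ℤ, ∃ lo hi : ℤ, 0 < y →
      (∀ x, lo ≤ x → x ≤ hi →
      ((0 ≤ b.re ∧ 0 ≤ x * N b + y * R a b ∧ 4 * (x * N b + y * R a b) ≤ y * D a b) ∨
      (b.re < 0 ∧ -(y * D a b) ≤ 4 * (x * N b + y * R a b) ∧ x * N b + y * R a b ≤ 0))) ∧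
      y * D a b - 4 * N b < 4 * N b * (hi + 1 - lo) ∧ 4 * N b * (hi - lo) ≤ y * D a b := by
    intro y
    rcases le_or_gt 0 b.re with hb | hb
    · refine ⟨-((y * R a b) / N b), (y * D a b - 4 * (y * R a b)) / (4 * N b), fun hy => ?_⟩
      have e1 := Int.ediv_mul_le (y * R a b) (ne_of_gt hM)
      have e2 := Int.lt_ediv_add_one_mul_self (y * R a b) hM
      have e3 := Int.ediv_mul_le (y * D a b - 4 * (y * R a b)) (ne_of_gt (show 0 < 4 * N b by linarith))
      have e4 := Int.lt_ediv_add_one_mul_self (y * D a b - 4 * (y * R a b))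
        (show 0 < 4 * N b by linarith)
      generalize (y * R a b) / N b = q1 at *
      generalize (y * D a b - 4 * (y * R a b)) / (4 * N b) = q2 at *
      refine ⟨fun x h1 h2 => Or.inl ⟨hb, ?_, ?_⟩, ?_, ?_⟩
      · nlinarith [mul_le_mul_of_nonneg_right h1 hM.le]
      · nlinarith [mul_le_mul_of_nonneg_right h2 hM.le]
      · nlinarith
      · nlinarith
    · refine ⟨-((y * D a b + 4 * (y * R a b)) / (4 * N b)), (-(y * R a b)) / N b, fun hy => ?_⟩
      have e1 := Int.ediv_mul_le (-(y * R a b)) (ne_of_gt hM)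
      have e2 := Int.lt_ediv_add_one_mul_self (-(y * R a b)) hM
      have e3 := Int.ediv_mul_le (y * D a b + 4 * (y * R a b)) (ne_of_gt (show 0 < 4 * N b by linarith))
      have e4 := Int.lt_ediv_add_one_mul_self (y * D a b + 4 * (y * R a b))
        (show 0 < 4 * N b by linarith)
      generalize (-(y * R a b)) / N b = q1 at *
      generalize (y * D a b + 4 * (y * R a b)) / (4 * N b) = q2 at *
      refine ⟨fun x h1 h2 => Or.inr ⟨hb, ?_, ?_⟩, ?_, ?_⟩
      · nlinarith [mul_le_mul_of_nonneg_right h1 hM.le]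
      · nlinarith [mul_le_mul_of_nonneg_right h2 hM.le]
      · nlinarith
      · nlinarith
  choose lo hi hlh using hrange
  have hyprop : ∀ y ∈ Y, (0 : ℤ) < y ∧ (5 : ℤ) ≤ y ∧ Prime (y : ℤ) := fun y hy => by
    have h5 : (5 : ℤ) ≤ y := by exact_mod_cast (hY y hy).2
    exact ⟨by linarith, h5, Nat.prime_iff_prime_int.1 (hY y hy).1⟩
  have hinj : ∀ (y y' x x' : ℤ), I * ((y : G) * a + (x : G) * b) =
      I * ((y' : G) * a + (x' : G) * b) → y = y' ∧ x = x' := by
    intro y y' x x' he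
    have e0 : (y : G) * a + (x : G) * b = (y' : G) * a + (x' : G) * b := by
      linear_combination (-I) * he + ((y : G) * a + (x : G) * b -
        ((y' : G) * a + (x' : G) * b)) * b1_II
    have e1 : D ((y : G) * a + (x : G) * b) ((0 : ℤ) * a + (1 : ℤ) * b) =
        D ((y' : G) * a + (x' : G) * b) ((0 : ℤ) * a + (1 : ℤ) * b) := by rw [e0]
    have e2 : D ((y : G) * a + (x : G) * b) ((1 : ℤ) * a + (0 : ℤ) * b) =
        D ((y' : G) * a + (x' : G) * b) ((1 : ℤ) * a + (0 : ℤ) * b) := by rw [e0]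
    rw [D_comb, D_comb] at e1 e2
    have e3 := mul_right_cancel₀ (ne_of_gt hD) e1
    have e4 := mul_right_cancel₀ (ne_of_gt hD) e2
    constructor <;> linarith
  have hcop : ∀ y ∈ Y, ∀ x : ℤ, ¬ (y : ℤ) ∣ x → IsCoprime x (y : ℤ) := fun y hy x hx =>
    ((Prime.coprime_iff_not_dvd (hyprop y hy).2.2).2 hx).symm
  refine ⟨fun y => ((Finset.Icc (lo y) (hi y)).filter fun x => ¬ (y : ℤ) ∣ x).image
    fun x => (A y x, I * (((y : ℤ) : G) * a + (x : G) * b)), ?_, ?_, ?_⟩
  · intro y hy q hq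
    obtain ⟨x, hx, rfl⟩ := Finset.mem_image.1 hq
    obtain ⟨hx1, hx2⟩ := Finset.mem_filter.1 hx
    obtain ⟨hx3, hx4⟩ := Finset.mem_Icc.1 hx1
    exact hA y x ⟨hcop y hy x hx2, (hyprop y hy).2.1,
      (hlh y (hyprop y hy).1).1 x hx3 hx4⟩
  · intro y hy
    obtain ⟨-, hl2, hl3⟩ := hlh y (hyprop y hy).1
    have hy0 := (hyprop y hy).1
    have hc1 : (((Finset.Icc (lo y) (hi y)).filter fun x => ¬ (y : ℤ) ∣ x).image
        fun x => (A y x, I * (((y : ℤ) : G) * a + (x : G) * b))).card =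
        ((Finset.Icc (lo y) (hi y)).filter fun x => ¬ (y : ℤ) ∣ x).card := by
      refine Finset.card_image_of_injective _ fun x x' hxx => ?_
      exact (hinj y y x x' (congrArg Prod.snd hxx)).2
    have hlen : hi y - lo y < y := by
      have h1 : 4 * N b * (hi y - lo y) < 4 * N b * y := by nlinarith
      exact lt_of_mul_lt_mul_left h1 (by linarith)
    have hc2 : ((Finset.Icc (lo y) (hi y)).filter fun x => (y : ℤ) ∣ x).card ≤ 1 := by
      refine Finset.card_le_one.2 fun x hx x' hx' => ?_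
      obtain ⟨hx1, hx2⟩ := Finset.mem_filter.1 hx
      obtain ⟨hx3, hx4⟩ := Finset.mem_Icc.1 hx1
      obtain ⟨hx1', hx2'⟩ := Finset.mem_filter.1 hx'
      obtain ⟨hx3', hx4'⟩ := Finset.mem_Icc.1 hx1'
      have hdv : (y : ℤ) ∣ x - x' := dvd_sub hx2 hx2'
      have habs : |x - x'| < y := by
        rw [abs_lt]
        constructor <;> linarith
      have := Int.eq_zero_of_abs_lt_dvd hdv habs
      linarith
    have hc3 := Finset.card_filter_add_card_filter_not (s := Finset.Icc (lo y) (hi y))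
      (fun x => (y : ℤ) ∣ x)
    have hc4 : (hi y + 1 - lo y) ≤ ((Finset.Icc (lo y) (hi y)).card : ℤ) := by
      rw [Int.card_Icc]
      exact Int.self_le_toNat _
    have hc5 : 2 * (y : ℤ) < 9 * (hi y + 1 - lo y + 1) := by
      have h1 : 4 * N b * (2 * (y : ℤ)) < 4 * N b * (9 * (hi y + 1 - lo y + 1)) := by nlinarith
      exact lt_of_mul_lt_mul_left h1 (by linarith)
    rw [hc1]
    have hc6 : ((Finset.Icc (lo y) (hi y)).card : ℤ) ≤
        (((Finset.Icc (lo y) (hi y)).filter fun x => ¬ (y : ℤ) ∣ x).card : ℤ) + 1 := by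
      have : (Finset.Icc (lo y) (hi y)).card ≤
        ((Finset.Icc (lo y) (hi y)).filter fun x => ¬ (y : ℤ) ∣ x).card + 1 := by omega
      exact_mod_cast this
    have hc7 : 2 * (y : ℤ) ≤ 9 * ((((Finset.Icc (lo y) (hi y)).filter
        fun x => ¬ (y : ℤ) ∣ x).card : ℤ) + 2) := by linarith
    exact_mod_cast hc7
  · intro y hy y' hy' hne
    change Disjoint _ _
    rw [Finset.disjoint_left]
    intro q hq hq'
    obtain ⟨x, -, rfl⟩ := Finset.mem_image.1 hq
    obtain ⟨x', -, he⟩ := Finset.mem_image.1 hq'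
    have h1 := (hinj y' y x' x (congrArg Prod.snd he)).1
    exact hne (by exact_mod_cast h1.symm)

end Pool.Agent.Flea
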