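import Pool.Agent.Flea.Defs

/-! # MP_fb7c71_nt: the covering lemma -/

set_option autoImplicit false

namespace Pool.Agent.Flea

-- MODULE a1
open Matrix.SpecialLinearGroup in
private theorem a1_gen {RR : G → G → Prop} (h : Clo RR) (M : Matrix.SpecialLinearGroup (Fin 2) ℤ) :
    (∀ a b, RR a b → RR ((M.1 0 0 : G) * a + (M.1 0 1 : G) * b) ((M.1 1 0 : G) * a + (M.1 1 1 : G) * b)) ∧
    (∀ a b, RR a b → RR (((M⁻¹).1 0 0 : G) * a + ((M⁻¹).1 0 1 : G) * b)
      (((M⁻¹).1 1 0 : G) * a + ((M⁻¹).1 1 1 : G) * b)) := by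
  have hM : M ∈ Subgroup.closure ({ModularGroup.S, ModularGroup.T} : Set (Matrix.SpecialLinearGroup (Fin 2) ℤ)) := by
    rw [SpecialLinearGroup.SL2Z_generators]
    exact Subgroup.mem_top M
  have hmul : ∀ A B : Matrix.SpecialLinearGroup (Fin 2) ℤ,
      (∀ a b, RR a b → RR ((A.1 0 0 : G) * a + (A.1 0 1 : G) * b) ((A.1 1 0 : G) * a + (A.1 1 1 : G) * b)) →
      (∀ a b, RR a b → RR ((B.1 0 0 : G) * a + (B.1 0 1 : G) * b) ((B.1 1 0 : G) * a + (B.1 1 1 : G) * b)) →
      (∀ a b, RR a b → RR (((A * B).1 0 0 : G) * a + ((A * B).1 0 1 : G) * b)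
        (((A * B).1 1 0 : G) * a + ((A * B).1 1 1 : G) * b)) := by
    intro A B hA hB a b hab
    have h1 := hA _ _ (hB a b hab)
    have e : ∀ i j, (A * B).1 i j = A.1 i 0 * B.1 0 j + A.1 i 1 * B.1 1 j := by
      intro i j
      show (A.1 * B.1) i j = _
      rw [Matrix.mul_apply, Fin.sum_univ_two]
    rw [e, e, e, e]
    push_cast
    convert h1 using 1 <;> ring
  induction hM using Subgroup.closure_induction with
  | mem x hx =>
    rcases hx with rfl | hx
    · refine ⟨fun a b hab => ?_, fun a b hab => ?_⟩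
      · have h1 := h.subl _ _ (h.addr _ _ (h.subl a b hab))
        have e : ∀ i j, (ModularGroup.S).1 i j = !![0, -1; 1, 0] i j := fun i j => by
          rw [ModularGroup.S]
        rw [e, e, e, e]
        simp only [Matrix.of_apply, Matrix.cons_val', Matrix.cons_val_zero, Matrix.cons_val_one,
          Matrix.cons_val_fin_one]
        push_cast
        convert h1 using 1 <;> ring
      · have h1 := h.addl _ _ (h.subr _ _ (h.addl a b hab))
        have e : ∀ i j, (ModularGroup.S⁻¹).1 i j = !![0, 1; -1, 0] i j := fun i j => by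
          rw [ModularGroup.S]
          fin_cases i <;> fin_cases j <;> rfl
        rw [e, e, e, e]
        simp only [Matrix.of_apply, Matrix.cons_val', Matrix.cons_val_zero, Matrix.cons_val_one,
          Matrix.cons_val_fin_one]
        push_cast
        convert h1 using 1 <;> ring
    · rw [Set.mem_singleton_iff] at hx
      subst hx
      refine ⟨fun a b hab => ?_, fun a b hab => ?_⟩
      · have h1 := h.addl a b hab
        have e : ∀ i j, (ModularGroup.T).1 i j = !![1, 1; 0, 1] i j := fun i j => by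
          rw [ModularGroup.T]
        rw [e, e, e, e]
        simp only [Matrix.of_apply, Matrix.cons_val', Matrix.cons_val_zero, Matrix.cons_val_one,
          Matrix.cons_val_fin_one]
        push_cast
        convert h1 using 1 <;> ring
      · have h1 := h.subl a b hab
        have e : ∀ i j, (ModularGroup.T⁻¹).1 i j = !![1, -1; 0, 1] i j := fun i j => by
          rw [ModularGroup.T]
          fin_cases i <;> fin_cases j <;> rfl
        rw [e, e, e, e]
        simp only [Matrix.of_apply, Matrix.cons_val', Matrix.cons_val_zero, Matrix.cons_val_one,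
          Matrix.cons_val_fin_one]
        push_cast
        convert h1 using 1 <;> ring
  | one =>
    have e : ∀ i j, (1 : Matrix.SpecialLinearGroup (Fin 2) ℤ).1 i j = (1 : Matrix (Fin 2) (Fin 2) ℤ) i j :=
      fun i j => rfl
    refine ⟨fun a b hab => ?_, fun a b hab => ?_⟩
    · rw [e, e, e, e]
      simpa using hab
    · rw [inv_one, e, e, e, e]
      simpa using hab
  | mul x y _ _ hx hy =>
    refine ⟨hmul x y hx.1 hy.1, ?_⟩
    rw [mul_inv_rev]
    exact hmul _ _ hy.2 hx.2
  | inv x _ hx =>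
    refine ⟨hx.2, ?_⟩
    rw [inv_inv]
    exact hx.1

/-- the set of reachable pairs is stable under `SL(2, ℤ)` -/
theorem sl2 {RR : G → G → Prop} (h : Clo RR) {a b : G} (hab : RR a b) {x y z w : ℤ} (hd : x * w - y * z = 1) :
    RR (x * a + y * b) (z * a + w * b) := by
  have h1 := (a1_gen h ⟨!![x, y; z, w], by rw [Matrix.det_fin_two_of]; exact hd⟩).1 a b hab
  exact h1

-- MODULE a2
/-- a vector `u` of the lattice covers all `n` with `conj u ∣ n + D I` -/
theorem cover {RR : G → G → Prop} (h : Clo RR) {a b : G} (hab : RR a b) {x y : ℤ} (hxy : IsCoprime x y) {u : G}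
    (hu : u = x * a + y * b) (hup : IsCoprime u.re u.im) {n : ℤ} (hn : Hit u n (D a b)) :
    ∃ w, RR u w ∧ R u w = n := by
  obtain ⟨w', z', hz⟩ := hxy
  -- `w' * x + z' * y = 1`
  have h1 : RR (x * a + y * b) (((-z' : ℤ) : G) * a + (w' : G) * b) := sl2 h hab (by linarith)
  have hD : D u (((-z' : ℤ) : G) * a + (w' : G) * b) = D a b := by
    rw [hu, D_comb]
    have : x * w' - y * -z' = 1 := by linarith
    rw [this, one_mul]
  rw [← hu] at h1
  set w₀ : G := ((-z' : ℤ) : G) * a + (w' : G) * b with hw₀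
  obtain ⟨hn1, hn2⟩ := hn
  obtain ⟨s, t, hst⟩ := hup
  have e1 : N u * w₀.re = R u w₀ * u.re - D a b * u.im := by
    rw [← hD]; unfold N R D; ring
  have e2 : N u * w₀.im = R u w₀ * u.im + D a b * u.re := by
    rw [← hD]; unfold N R D; ring
  have d1 : N u ∣ (n - R u w₀) * u.re := by
    have : (n - R u w₀) * u.re = (n * u.re - D a b * u.im) - N u * w₀.re := by rw [e1]; ring
    rw [this]
    exact dvd_sub hn1 (dvd_mul_right _ _)
  have d2 : N u ∣ (n - R u w₀) * u.im := by
    have : (n - R u w₀) * u.im = (n * u.im + D a b * u.re) - N u * w₀.im := by rw [e2]; ring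
    rw [this]
    exact dvd_sub hn2 (dvd_mul_right _ _)
  have d3 : N u ∣ n - R u w₀ := by
    have : n - R u w₀ = s * ((n - R u w₀) * u.re) + t * ((n - R u w₀) * u.im) := by
      linear_combination (n - R u w₀) * (-hst)
    rw [this]
    exact dvd_add (dvd_mul_of_dvd_right d1 _) (dvd_mul_of_dvd_right d2 _)
  obtain ⟨k, hk⟩ := d3
  refine ⟨(k : G) * u + ((1 : ℤ) : G) * w₀, ?_, ?_⟩
  · have h2 := sl2 h h1 (x := 1) (y := 0) (z := k) (w := 1) (by ring)
    have e : (((1 : ℤ) : G) * u + ((0 : ℤ) : G) * w₀) = u := by push_cast; ring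
    rwa [e] at h2
  · have e3 : R u ((k : G) * u + ((1 : ℤ) : G) * w₀) = k * N u + R u w₀ := by
      unfold R N
      rw [re_comb, im_comb]
      ring
    rw [e3]
    linarith [hk]

end Pool.Agent.Flea
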