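import Mathlib

/-!
# MP_fb7c71_nt, the three fleas: definitions

Pairs `(a, b)` of Gaussian integers stand for triangles `P Q T` with `Q - P = a`, `T - Q = I b`.
Twice the area of the triangle is then `|R a b|`.  `RR a b` means: such a triangle is reachable.
-/

set_option autoImplicit false

namespace Pool.Agent.Flea

/-- the Gaussian integers -/
abbrev G : Type := GaussianInt

/-- the imaginary unit -/
def I : G := ⟨0, 1⟩

/-- real part of `conj a * b` -/
def R (a b : G) : ℤ := a.re * b.re + a.im * b.im

/-- imaginary part of `conj a * b` -/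
def D (a b : G) : ℤ := a.re * b.im - a.im * b.re

/-- the norm -/
def N (a : G) : ℤ := a.re ^ 2 + a.im ^ 2

/-- `conj u` divides `n + d I` (that is, `u * conj u` divides `u * (n + d I)`) -/
def Hit (u : G) (n d : ℤ) : Prop := N u ∣ n * u.re - d * u.im ∧ N u ∣ n * u.im + d * u.re

/-- closure properties of the set of pairs which come from reachable triangles -/
structure Clo (RR : G → G → Prop) : Prop where
  addr : ∀ a b, RR a b → RR a (b + a)
  subr : ∀ a b, RR a b → RR a (b - a)
  addl : ∀ a b, RR a b → RR (a + b) b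
  subl : ∀ a b, RR a b → RR (a - b) b
  rot : ∀ a b, RR a b → RR (I * b) (I * a - b)

/-- the lattice spanned by `a` and `b` -/
def Lat (a b u : G) : Prop := ∃ x y : ℤ, u = x * a + y * b

/-- a circle of the packing with a normalised basis of its lattice -/
structure Node (RR : G → G → Prop) (a b : G) : Prop where
  rr : RR a b
  cop : IsCoprime a b
  pos : 0 < D a b
  r0 : 0 ≤ R a b
  r1 : R a b < N b
  bn : D a b ≤ N b
  nb : 8 * N b ≤ 9 * D a b
  dir : 4 * |b.re| ≤ b.im

/-- the circle `q` touches the circle `p`, at the vector `-(I * q.2)` of the lattice of `p` -/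
structure Child (RR : G → G → Prop) (p q : G × G) : Prop where
  np : Node RR p.1 p.2
  nq : Node RR q.1 q.2
  nrm : N q.2 = D p.1 p.2 + D q.1 q.2
  lat : ∀ z, Lat p.1 p.2 z ↔ Lat (-(I * q.2)) (I * (-(I * q.2) - q.1)) z

/-! basic lemmas, for the provers -/

theorem ext' {a b : G} (h1 : a.re = b.re) (h2 : a.im = b.im) : a = b := Zsqrtd.ext h1 h2

@[simp] theorem I_re : I.re = 0 := rfl
@[simp] theorem I_im : I.im = 1 := rfl
theorem re_I_mul (a : G) : (I * a).re = -a.im := by simp [I]
theorem im_I_mul (a : G) : (I * a).im = a.re := by simp [I]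
theorem re_comb (x y : ℤ) (a b : G) : ((x : G) * a + (y : G) * b).re = x * a.re + y * b.re := by simp
theorem im_comb (x y : ℤ) (a b : G) : ((x : G) * a + (y : G) * b).im = x * a.im + y * b.im := by simp
theorem re_combn (x y : ℕ) (a b : G) : ((x : G) * a + (y : G) * b).re = x * a.re + y * b.re := by simp
theorem im_combn (x y : ℕ) (a b : G) : ((x : G) * a + (y : G) * b).im = x * a.im + y * b.im := by simp
theorem re_mul_int (x : ℤ) (a : G) : ((x : G) * a).re = x * a.re := by simp
theorem im_mul_int (x : ℤ) (a : G) : ((x : G) * a).im = x * a.im := by simp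
theorem N_eq_norm (a : G) : N a = a.norm := by rw [Zsqrtd.norm_def, N]; ring
theorem N_nonneg (a : G) : 0 ≤ N a := by unfold N; positivity
theorem N_pos {a : G} (h : a ≠ 0) : 0 < N a := by
  rcases (N_nonneg a).lt_or_eq with h1 | h1
  · exact h1
  · exfalso; apply h
    unfold N at h1
    have h2 : a.re = 0 := by nlinarith [sq_nonneg a.re, sq_nonneg a.im]
    have h3 : a.im = 0 := by nlinarith [sq_nonneg a.re, sq_nonneg a.im]
    exact ext' h2 h3
theorem N_I_mul (a : G) : N (I * a) = N a := by unfold N; rw [re_I_mul, im_I_mul]; ring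
theorem D_comb (x y z w : ℤ) (a b : G) :
    D ((x : G) * a + (y : G) * b) ((z : G) * a + (w : G) * b) = (x * w - y * z) * D a b := by
  unfold D; rw [re_comb, im_comb, re_comb, im_comb]; ring
theorem N_comb_mul (x y : ℤ) (a b : G) :
    N ((x : G) * a + (y : G) * b) * N b = (x * R a b + y * N b) ^ 2 + (x * D a b) ^ 2 := by
  unfold N R D; rw [re_comb, im_comb]; ring
theorem N_comb (x y : ℤ) (a b : G) :
    N ((x : G) * a + (y : G) * b) = x ^ 2 * N a + 2 * x * y * R a b + y ^ 2 * N b := by
  unfold N R; rw [re_comb, im_comb]; ring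

end Pool.Agent.Flea
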