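import Pool.Agent.BrunHooley.Positive

/-! # MP_fb7c71_nt: a lower bound sieve -/

set_option autoImplicit false

namespace Pool.Agent.Flea

open Finset Pool.Agent.BrunHooley

-- MODULE s1
/-- quantitative version of `BrunHooley.sift_pos` (same proof, keep the main term) -/
theorem sift_ge (κ : ℕ) : ∃ (u r0 : ℕ) (c C : ℝ), 0 < c ∧ 0 ≤ C ∧ ∀ r ≥ r0, ∀ A : ℕ → ℕ → Prop, Per A →
    (∀ p ∈ Pz r, rho A p ≤ κ ∧ rho A p < p) → ∀ M : ℕ, 2 ^ (2 ^ r * u) ≤ M →
      c * Real.exp (-(C * r)) * M ≤ (sift A r M : ℝ) := by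
  -- constants
  set K : ℕ := κ + 1 with hK
  have hK1 : 1 ≤ K := by omega
  obtain ⟨β, hβ⟩ := tail_small (K : ℝ) (Real.exp (-(2 * K)) / 2) (by positivity) (by positivity)
  obtain ⟨j1, hj1⟩ := blk_sum_le (3 / 10) (by norm_num)
  have hlog : Real.log 2 + 3 / 10 ≤ 1 := by
    have := Real.log_two_lt_d9
    norm_num at this ⊢
    linarith
  -- j0 : large primes in the blocks beyond j0
  set j0 : ℕ := max j1 (2 * K) with hj0
  have hbig : ∀ j ≥ j0, ∀ p ∈ Blk j, 2 * K ≤ p := by
    intro j hj p hp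
    have h1 := (mem_Blk hp).1
    have h2 : j < 2 ^ j := Nat.lt_two_pow_self
    have h3 : 2 ^ j < 2 ^ 2 ^ j := Nat.lt_two_pow_self
    have h4 : 2 * K ≤ j := (le_max_right _ _).trans hj
    omega
  -- the small product
  set c0 : ℝ := ∏ j ∈ range j0, ∏ p ∈ Blk j, (1 / (p : ℝ)) with hc0
  have hc0pos : 0 < c0 := by
    apply prod_pos
    intro j _
    apply prod_pos
    intro p hp
    have := (mem_Blk hp).2.2.pos
    positivity
  -- growth
  obtain ⟨r1, hr1⟩ := growth (Real.log K) (1 + 2 * β * Real.log K + 2 * K)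
    (Real.log 2 + Real.log K - Real.log c0)
  refine ⟨4 * β + 8, max r1 (j0 + 2 ^ 2 ^ j0 + 1), c0 / 4, 2 * K, by positivity, by positivity, ?_⟩
  intro r hr A hA hrho M hM
  have hrr1 : r1 ≤ r := (le_max_left _ _).trans hr
  have hrj0 : j0 + 2 ^ 2 ^ j0 + 1 ≤ r := (le_max_right _ _).trans hr
  have hj0r : j0 ≤ r := (Nat.le_add_right j0 (2 ^ 2 ^ j0 + 1)).trans hrj0
  have hrhoK : ∀ p ∈ Pz r, rho A p ≤ K := fun p hp => (hrho p hp).1.trans (by omega)
  -- densities
  have hw0 : ∀ p, 0 ≤ ww A p := fun p => by unfold ww; positivity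
  have hw1 : ∀ j < r, ∀ p ∈ Blk j, ww A p < 1 := by
    intro j hj p hp
    have h1 := (hrho p (Blk_sub_Pz hj hp)).2
    have h2 := (mem_Blk hp).2.2.pos
    unfold ww
    rw [div_lt_one (by exact_mod_cast h2)]
    exact_mod_cast h1
  have hV : ∀ j < r, 0 < ∏ p ∈ Blk j, (1 - ww A p) := by
    intro j hj
    apply prod_pos
    intro p hp
    linarith [hw1 j hj p hp]
  -- sums over large blocks
  have hsum : ∀ j < r, j0 ≤ j → ∑ p ∈ Blk j, ww A p ≤ K := by
    intro j hj hjj
    calc ∑ p ∈ Blk j, ww A p ≤ ∑ p ∈ Blk j, (K : ℝ) * (1 / p) := by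
          apply sum_le_sum
          intro p hp
          unfold ww
          rw [mul_one_div]
          apply div_le_div_of_nonneg_right _ (by positivity)
          exact_mod_cast hrhoK p (Blk_sub_Pz hj hp)
      _ = K * ∑ p ∈ Blk j, (1 : ℝ) / p := by rw [mul_sum]
      _ ≤ K * 1 := by
          apply mul_le_mul_of_nonneg_left _ (by positivity)
          exact (hj1 j ((le_max_left _ _).trans hjj)).trans hlog
      _ = K := mul_one _
  have hVlow : ∀ j < r, j0 ≤ j → Real.exp (-(2 * K)) ≤ ∏ p ∈ Blk j, (1 - ww A p) := by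
    intro j hj hjj
    have h1 : ∏ p ∈ Blk j, Real.exp (-(2 * ww A p)) ≤ ∏ p ∈ Blk j, (1 - ww A p) := by
      apply prod_le_prod
      · intro p _; positivity
      · intro p hp
        apply exp_le_one_sub (hw0 p)
        have h2 := hbig j hjj p hp
        have h3 := hrhoK p (Blk_sub_Pz hj hp)
        have h4 := (mem_Blk hp).2.2.pos
        unfold ww
        rw [div_le_iff₀ (by exact_mod_cast h4)]
        have h5 : ((2 * K : ℕ) : ℝ) ≤ p := by exact_mod_cast h2
        have h6 : (rho A p : ℝ) ≤ K := by exact_mod_cast h3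
        push_cast at h5
        linarith
    refine le_trans ?_ h1
    rw [← Real.exp_sum]
    apply Real.exp_le_exp.2
    rw [sum_neg_distrib, ← mul_sum]
    have := hsum j hj hjj
    linarith
  -- the parameters
  have hbe : ∀ j, Even (bb β r j) := fun j => ⟨β + (r - 1 - j), by unfold bb; ring⟩
  have hbon := fun j (hj : j < r) => bonferroni (bb β r j) (hbe j) (Blk j) (ww A)
    (fun p _ => hw0 p) (fun p hp => (hw1 j hj p hp).le)
  set V : ℕ → ℝ := fun j => ∏ p ∈ Blk j, (1 - ww A p) with hVdef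
  set Y : ℕ → ℝ := fun j => tr (bb β r j) (Blk j) (ww A) with hYdef
  set X : ℕ → ℝ := fun j => es (bb β r j + 1) (Blk j) (ww A) with hXdef
  have hVY : ∀ j < r, V j ≤ Y j := fun j hj => (hbon j hj).1
  have hX0 : ∀ j, 0 ≤ X j := fun j => es_nonneg _ _ _ (fun p _ => hw0 p)
  -- bound for X j / V j
  have hXV : ∀ j ∈ range r, X j ≤ V j * (Real.exp (2 * K) *
      ((K : ℝ) ^ (2 * β + 2 * (r - 1 - j) + 1) / (2 * β + 2 * (r - 1 - j) + 1).factorial)) := by
    intro j hj
    rw [mem_range] at hj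
    by_cases hjj : j0 ≤ j
    · have h1 : X j ≤ (∑ p ∈ Blk j, ww A p) ^ (bb β r j + 1) / (bb β r j + 1).factorial :=
        es_le _ _ _ (fun p _ => hw0 p)
      have h2 : (∑ p ∈ Blk j, ww A p) ^ (bb β r j + 1) / ((bb β r j + 1).factorial : ℝ) ≤
          (K : ℝ) ^ (bb β r j + 1) / (bb β r j + 1).factorial := by
        apply div_le_div_of_nonneg_right _ (by positivity)
        exact pow_le_pow_left₀ (sum_nonneg (fun p _ => hw0 p)) (hsum j hj hjj) _
      have h3 := hVlow j hj hjj
      have h4 : (1 : ℝ) ≤ V j * Real.exp (2 * K) := by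
        calc (1 : ℝ) = Real.exp (-(2 * K)) * Real.exp (2 * K) := by
              rw [← Real.exp_add]; simp
          _ ≤ V j * Real.exp (2 * K) := mul_le_mul_of_nonneg_right h3 (by positivity)
      have h5 : 0 ≤ (K : ℝ) ^ (bb β r j + 1) / ((bb β r j + 1).factorial : ℝ) := by positivity
      calc X j ≤ (K : ℝ) ^ (bb β r j + 1) / (bb β r j + 1).factorial := h1.trans h2
        _ = 1 * ((K : ℝ) ^ (bb β r j + 1) / (bb β r j + 1).factorial) := (one_mul _).symm
        _ ≤ (V j * Real.exp (2 * K)) * ((K : ℝ) ^ (bb β r j + 1) / (bb β r j + 1).factorial) :=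
            mul_le_mul_of_nonneg_right h4 h5
        _ = _ := by unfold bb; ring
    · push Not at hjj
      have h1 : X j = 0 := by
        apply es_eq_zero
        have h2 := card_Blk_lt j
        have h3 : 2 ^ 2 ^ (j + 1) ≤ 2 ^ 2 ^ j0 :=
          Nat.pow_le_pow_right (by norm_num) (Nat.pow_le_pow_right (by norm_num) (by omega))
        unfold bb
        omega
      rw [h1]
      have := hV j hj
      positivity
  -- total loss
  have hloss : ∑ l ∈ range r, X l / V l ≤ 1 / 2 := by
    calc ∑ l ∈ range r, X l / V l ≤ ∑ l ∈ range r, (Real.exp (2 * K) *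
          ((K : ℝ) ^ (2 * β + 2 * (r - 1 - l) + 1) / (2 * β + 2 * (r - 1 - l) + 1).factorial)) := by
          apply sum_le_sum
          intro l hl
          rw [div_le_iff₀ (hV l (mem_range.1 hl)), mul_comm]
          exact hXV l hl
      _ = Real.exp (2 * K) * ∑ l ∈ range r,
          ((K : ℝ) ^ (2 * β + 2 * (r - 1 - l) + 1) / (2 * β + 2 * (r - 1 - l) + 1).factorial) := by
          rw [mul_sum]
      _ = Real.exp (2 * K) * ∑ i ∈ range r,
          ((K : ℝ) ^ (2 * β + 2 * i + 1) / (2 * β + 2 * i + 1).factorial) := by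
          congr 1
          exact sum_range_reflect (fun i =>
            ((K : ℝ) ^ (2 * β + 2 * i + 1) / ((2 * β + 2 * i + 1).factorial : ℝ))) r
      _ ≤ Real.exp (2 * K) * (Real.exp (-(2 * K)) / 2) :=
          mul_le_mul_of_nonneg_left (hβ r) (by positivity)
      _ = 1 / 2 := by
          rw [← mul_div_assoc, ← Real.exp_add]; simp
  -- main term
  have hYpos : ∀ j ∈ range r, 0 < Y j := fun j hj =>
    lt_of_lt_of_le (hV j (mem_range.1 hj)) (hVY j (mem_range.1 hj))
  have hmain : (∏ j ∈ range r, V j) / 2 ≤ ∏ j ∈ range r, Y j -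
      ∑ l ∈ range r, X l * ∏ j ∈ (range r).erase l, Y j := by
    have h1 : ∑ l ∈ range r, X l * ∏ j ∈ (range r).erase l, Y j ≤
        ∑ l ∈ range r, (X l / V l) * ∏ j ∈ range r, Y j := by
      apply sum_le_sum
      intro l hl
      rw [← mul_prod_erase (range r) Y hl, ← mul_assoc]
      apply mul_le_mul_of_nonneg_right
      · have hVl := hV l (mem_range.1 hl)
        rw [div_mul_eq_mul_div, le_div_iff₀ hVl]
        exact mul_le_mul_of_nonneg_left (hVY l (mem_range.1 hl)) (hX0 l)
      · exact prod_nonneg (fun j hj => (hYpos j (mem_of_mem_erase hj)).le)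
    rw [← sum_mul] at h1
    have h2 : 0 < ∏ j ∈ range r, Y j := prod_pos hYpos
    have h3 : ∏ j ∈ range r, V j ≤ ∏ j ∈ range r, Y j :=
      prod_le_prod (fun j hj => (hV j (mem_range.1 hj)).le) (fun j hj => hVY j (mem_range.1 hj))
    nlinarith
  -- lower bound for the product
  have hWlow : c0 * Real.exp (-(2 * K * r)) ≤ ∏ j ∈ range r, V j := by
    have h1 : range r = range j0 ∪ Ico j0 r := by
      ext x
      simp only [mem_range, mem_union, mem_Ico]
      constructor
      · intro hx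
        rcases lt_or_ge x j0 with h | h
        · exact Or.inl h
        · exact Or.inr ⟨h, hx⟩
      · rintro (h | ⟨_, h⟩)
        · exact lt_of_lt_of_le h hj0r
        · exact h
    have hdis : Disjoint (range j0) (Ico j0 r) := by
      rw [disjoint_left]; intro x h1 h2
      rw [mem_range] at h1; rw [mem_Ico] at h2; omega
    rw [h1, prod_union hdis]
    apply mul_le_mul
    · apply prod_le_prod
      · intro j _
        apply prod_nonneg
        intro p _; positivity
      · intro j hj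
        rw [mem_range] at hj
        apply prod_le_prod
        · intro p _; positivity
        · intro p hp
          have h2 := (hrho p (Blk_sub_Pz (lt_of_lt_of_le hj hj0r) hp)).2
          have h3 := (mem_Blk hp).2.2.pos
          have h3' : (0 : ℝ) < p := by exact_mod_cast h3
          unfold ww
          rw [div_le_iff₀ h3', sub_mul, div_mul_cancel₀ _ h3'.ne', one_mul]
          have : (rho A p : ℝ) + 1 ≤ p := by exact_mod_cast h2
          linarith
    · calc Real.exp (-(2 * K * r)) ≤ ∏ _j ∈ Ico j0 r, Real.exp (-(2 * K)) := by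
            rw [prod_const, Nat.card_Ico, ← Real.exp_nat_mul]
            apply Real.exp_le_exp.2
            have : ((r - j0 : ℕ) : ℝ) ≤ r := by exact_mod_cast Nat.sub_le r j0
            have hK0 : (0 : ℝ) ≤ K := by positivity
            nlinarith
        _ ≤ _ := by
            apply prod_le_prod
            · intro j _; positivity
            · intro j hj
              rw [mem_Ico] at hj
              exact hVlow j hj.2 hj.1
    · positivity
    · apply prod_nonneg
      intro j hj
      rw [mem_range] at hj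
      exact (hV j (lt_of_lt_of_le hj hj0r)).le
  -- apply the main inequality
  have hineq := main_ineq A hA (bb β r) hbe K hK1 r M hrhoK
  have hE := prod_EE_le K β r hK1
  have hEnn : 0 ≤ ∏ j ∈ range r, EE K (bb β r j) j :=
    prod_nonneg (fun j _ => by unfold EE; positivity)
  -- final comparison
  have hfin : (1 + (r : ℝ) * ((K * 2 ^ 2 ^ r : ℕ) : ℝ)) * ∏ j ∈ range r, EE K (bb β r j) j <
      (M / 2) * ((∏ j ∈ range r, V j) / 2) := by
    have hM' : (2 : ℝ) ^ (2 ^ r * (4 * β + 7)) ≤ M / 2 := by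
      have e1 : (2 : ℝ) ^ (2 ^ r * (4 * β + 8)) ≤ M := by exact_mod_cast hM
      have e2 : (2 : ℝ) ^ (2 ^ r * (4 * β + 8)) = 2 ^ (2 ^ r) * 2 ^ (2 ^ r * (4 * β + 7)) := by
        rw [← pow_add]; congr 1; ring
      have e3 : (2 : ℝ) ≤ 2 ^ (2 ^ r) := by
        calc (2 : ℝ) = 2 ^ 1 := by norm_num
          _ ≤ 2 ^ (2 ^ r) := pow_le_pow_right₀ (by norm_num) (Nat.one_le_two_pow)
      have e4 : (0 : ℝ) < 2 ^ (2 ^ r * (4 * β + 7)) := by positivity
      rw [e2] at e1
      nlinarith
    have hg := hr1 r hrr1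
    have hKR : (1 : ℝ) ≤ K := by exact_mod_cast hK1
    -- LHS bound
    have hL : (1 + (r : ℝ) * ((K * 2 ^ 2 ^ r : ℕ) : ℝ)) * ∏ j ∈ range r, EE K (bb β r j) j ≤
        Real.exp r * (K : ℝ) ^ (2 * β * r + r ^ 2 + 1) * 2 ^ (2 ^ r * (4 * β + 5)) := by
      have h1 : 1 + (r : ℝ) * ((K * 2 ^ 2 ^ r : ℕ) : ℝ) ≤ Real.exp r * (K * 2 ^ 2 ^ r) := by
        have h2 : (r : ℝ) + 1 ≤ Real.exp r := Real.add_one_le_exp _
        have h3 : (1 : ℝ) ≤ K * 2 ^ 2 ^ r := by
          have : (1 : ℝ) ≤ 2 ^ 2 ^ r := one_le_pow₀ (by norm_num)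
          nlinarith
        push_cast
        nlinarith
      calc _ ≤ (Real.exp r * (K * 2 ^ 2 ^ r)) *
            ((K : ℝ) ^ (2 * β * r + r ^ 2) * 2 ^ (2 ^ r * (4 * β + 4))) :=
            mul_le_mul h1 hE hEnn (by positivity)
        _ = _ := by
            rw [show 2 ^ r * (4 * β + 5) = 2 ^ r + 2 ^ r * (4 * β + 4) by ring, pow_add, pow_succ]
            ring
    refine lt_of_le_of_lt hL ?_
    have hR : (2 : ℝ) ^ (2 ^ r * (4 * β + 7)) * (c0 * Real.exp (-(2 * K * r)) / 2) ≤
        (M / 2) * ((∏ j ∈ range r, V j) / 2) := by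
      apply mul_le_mul hM'
      · linarith
      · positivity
      · positivity
    refine lt_of_lt_of_le ?_ hR
    exact compare K β r c0 hc0pos hK1 hg
  have hge : (M : ℝ) * ((∏ j ∈ range r, V j) / 2) ≤ M * (∏ j ∈ range r, Y j -
      ∑ l ∈ range r, X l * ∏ j ∈ (range r).erase l, Y j) :=
    mul_le_mul_of_nonneg_left hmain (by positivity)
  have h1 := hineq
  simp only [hYdef, hXdef] at hge
  have h2 : c0 / 4 * Real.exp (-(2 * K * r)) * M ≤ M * ((∏ j ∈ range r, V j) / 2) -
      (M / 2) * ((∏ j ∈ range r, V j) / 2) := by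
    have h3 : (0 : ℝ) ≤ M := by positivity
    nlinarith [mul_le_mul_of_nonneg_left hWlow h3]
  linarith

end Pool.Agent.Flea
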