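import Pool.Agent.Flea.Lat
import Pool.Agent.Flea.Sie

/-! # MP_fb7c71_nt: vectors of a lattice whose norm has no small prime factor -/

set_option autoImplicit false

namespace Pool.Agent.Flea

open Finset

-- MODULE v1
private theorem v1_one {s t a b : G} (h : s * a + t * b = 1) :
    N s * N a + N t * N b + (R s t * (2 * R a b) - D s t * (2 * D a b)) = 1 := by
  have h1 : N (s * a + t * b) = 1 := by rw [h]; simp [N]
  rw [← h1]
  unfold N R D
  simp
  ring

private theorem v1_sq (a b : G) : (2 * D a b) ^ 2 = 4 * (N a * N b) - (2 * R a b) ^ 2 := by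
  unfold N R D; ring

private theorem v1_coeff {p : ℕ} (hp : p.Prime) {a b : G} (h : IsCoprime a b)
    (h1 : (p : ℤ) ∣ N a) (h2 : (p : ℤ) ∣ N b) (h3 : (p : ℤ) ∣ 2 * R a b) : False := by
  obtain ⟨s, t, hst⟩ := h
  have e := v1_one hst
  have hpI : Prime (p : ℤ) := Nat.prime_iff_prime_int.1 hp
  have h4 : (p : ℤ) ∣ 2 * D a b := by
    apply hpI.dvd_of_dvd_pow (n := 2)
    rw [v1_sq]
    apply dvd_sub
    · exact dvd_mul_of_dvd_right (dvd_mul_of_dvd_left h1 _) _
    · rw [sq]; exact dvd_mul_of_dvd_left h3 _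
  apply hpI.not_dvd_one
  rw [← e]
  apply dvd_add
  · exact dvd_add (dvd_mul_of_dvd_right h1 _) (dvd_mul_of_dvd_right h2 _)
  · exact dvd_sub (dvd_mul_of_dvd_right h3 _) (dvd_mul_of_dvd_right h4 _)

private theorem v1_N (y x : ℕ) (a b : G) :
    N ((y : G) * a + (x : G) * b) = (y : ℤ) ^ 2 * N a + x * (y * (2 * R a b)) + (x : ℤ) ^ 2 * N b := by
  unfold N R; rw [re_combn, im_combn]; ring

private theorem v1_per (a b : G) (y : ℕ) :
    BrunHooley.Per (fun p x : ℕ => (p : ℤ) ∣ N ((y : G) * a + (x : G) * b)) := by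
  intro p m
  show (p : ℤ) ∣ N ((y : G) * a + ((m + p : ℕ) : G) * b) ↔ (p : ℤ) ∣ N ((y : G) * a + (m : G) * b)
  have e : N ((y : G) * a + ((m + p : ℕ) : G) * b) = N ((y : G) * a + (m : G) * b) +
      p * (y * (2 * R a b) + (2 * m + p) * N b) := by
    rw [v1_N, v1_N]; push_cast; ring
  rw [e]
  exact dvd_add_left (dvd_mul_right _ _)

open Polynomial in
private theorem v1_card {p : ℕ} (hp : p.Prime) (A B C : ℤ) (h : ¬ ((p : ℤ) ∣ A ∧ (p : ℤ) ∣ B ∧ (p : ℤ) ∣ C))
    (S : Finset ℕ) (hS : S ⊆ range p) (hS2 : ∀ x ∈ S, (p : ℤ) ∣ A + x * B + (x : ℤ) ^ 2 * C) :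
    S.card ≤ 2 := by
  have : Fact p.Prime := ⟨hp⟩
  set f : (ZMod p)[X] := Polynomial.C (A : ZMod p) + Polynomial.C (B : ZMod p) * X +
    Polynomial.C (C : ZMod p) * X ^ 2 with hf
  have hf0 : f ≠ 0 := by
    intro h0
    apply h
    have c0 : f.coeff 0 = 0 := by rw [h0]; simp
    have c1 : f.coeff 1 = 0 := by rw [h0]; simp
    have c2 : f.coeff 2 = 0 := by rw [h0]; simp
    rw [hf, Polynomial.coeff_add, Polynomial.coeff_add, Polynomial.coeff_C_mul,
      Polynomial.coeff_C_mul, Polynomial.coeff_C, Polynomial.coeff_X, Polynomial.coeff_X_pow] at c0 c1 c2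
    norm_num at c0 c1 c2
    exact ⟨(ZMod.intCast_zmod_eq_zero_iff_dvd _ _).1 c0,
      (ZMod.intCast_zmod_eq_zero_iff_dvd _ _).1 c1,
      (ZMod.intCast_zmod_eq_zero_iff_dvd _ _).1 c2⟩
  have hdeg : f.natDegree ≤ 2 := by
    rw [hf]; compute_degree
  have hinj : Set.InjOn (fun x : ℕ => (x : ZMod p)) S := by
    intro x hx z hz hxz
    have hx1 := mem_range.1 (hS hx)
    have hz1 := mem_range.1 (hS hz)
    have := (ZMod.natCast_eq_natCast_iff' x z p).1 hxz
    rwa [Nat.mod_eq_of_lt hx1, Nat.mod_eq_of_lt hz1] at this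
  calc S.card = (S.image (fun x : ℕ => (x : ZMod p))).card := (card_image_of_injOn hinj).symm
    _ ≤ f.roots.toFinset.card := by
        apply card_le_card
        intro z hz
        obtain ⟨x, hx, rfl⟩ := mem_image.1 hz
        rw [Multiset.mem_toFinset, Polynomial.mem_roots hf0]
        have h1 := (ZMod.intCast_zmod_eq_zero_iff_dvd _ p).2 (hS2 x hx)
        rw [Polynomial.IsRoot, hf]
        simp
        push_cast at h1
        rw [← h1]; ring
    _ ≤ f.roots.card := Multiset.toFinset_card_le _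
    _ ≤ f.natDegree := f.card_roots'
    _ ≤ 2 := hdeg

private theorem v1_rho {p : ℕ} (hp : p.Prime) {a b : G} (h : IsCoprime a b) {y : ℕ} (hy : ¬ p ∣ y) :
    BrunHooley.rho (fun p x : ℕ => (p : ℤ) ∣ N ((y : G) * a + (x : G) * b)) p ≤ 2 ∧
    BrunHooley.rho (fun p x : ℕ => (p : ℤ) ∣ N ((y : G) * a + (x : G) * b)) p < p := by
  classical
  have hpI : Prime (p : ℤ) := Nat.prime_iff_prime_int.1 hp
  have hyI : ¬ (p : ℤ) ∣ (y : ℤ) := by exact_mod_cast hy
  have key : ¬ ((p : ℤ) ∣ (y : ℤ) ^ 2 * N a ∧ (p : ℤ) ∣ y * (2 * R a b) ∧ (p : ℤ) ∣ N b) := by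
    rintro ⟨h1, h2, h3⟩
    have h1' := (hpI.dvd_or_dvd h1).resolve_left (fun h => hyI (hpI.dvd_of_dvd_pow h))
    have h2' := (hpI.dvd_or_dvd h2).resolve_left hyI
    exact v1_coeff hp h h1' h3 h2'
  have h2 : BrunHooley.rho (fun p x : ℕ => (p : ℤ) ∣ N ((y : G) * a + (x : G) * b)) p ≤ 2 := by
    unfold BrunHooley.rho
    apply v1_card hp _ _ _ key _ (@Finset.filter_subset ℕ _ (_) _)
    intro x hx
    have hx := (@Finset.mem_filter ℕ _ (_) _ _).1 hx
    rw [← v1_N]
    exact hx.2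
  refine ⟨h2, ?_⟩
  rcases hp.eq_two_or_odd' with h3 | h3
  · subst h3
    by_contra hcon
    push Not at hcon
    have h4 : (range 2).filter (fun x : ℕ => ((2 : ℕ) : ℤ) ∣ N ((y : G) * a + (x : G) * b)) = range 2 := by
      apply Finset.eq_of_subset_of_card_le (Finset.filter_subset _ _)
      rw [card_range]
      unfold BrunHooley.rho at hcon
      refine hcon.trans (le_of_eq ?_)
      congr 1
      ext x
      constructor
      · intro hx
        have hx := (@Finset.mem_filter ℕ _ (_) _ _).1 hx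
        exact (@Finset.mem_filter ℕ _ (_) _ _).2 hx
      · intro hx
        have hx := (@Finset.mem_filter ℕ _ (_) _ _).1 hx
        exact (@Finset.mem_filter ℕ _ (_) _ _).2 hx
    have m0 : (0 : ℕ) ∈ range 2 := by simp
    have m1 : (1 : ℕ) ∈ range 2 := by simp
    rw [← h4, mem_filter, v1_N] at m0 m1
    have q0 := m0.2
    have q1 := m1.2
    simp only [Nat.cast_zero, Nat.cast_one, zero_mul, one_mul, add_zero, one_pow, ne_eq,
      OfNat.ofNat_ne_zero, not_false_eq_true, zero_pow] at q0 q1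
    have q2 : ((2 : ℕ) : ℤ) ∣ y * (2 * R a b) := ⟨y * R a b, by push_cast; ring⟩
    apply key
    refine ⟨q0, q2, ?_⟩
    have := (Int.dvd_add_right (dvd_add q0 q2)).1 q1
    exact this
  · have : 3 ≤ p := by
      have := hp.two_le
      rcases h3 with ⟨k, hk⟩
      omega
    omega

open Classical in
/-- vectors `y a + x b` with fixed prime `y` -/
theorem line_count : ∃ (u r0 : ℕ) (c C : ℝ), 0 < c ∧ 0 ≤ C ∧ ∀ r ≥ r0, ∀ a b : G, IsCoprime a b →
    ∀ y : ℕ, y.Prime → 2 ^ 2 ^ r ≤ y → ∀ M : ℕ, 2 ^ (2 ^ r * u) ≤ M →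
      c * Real.exp (-(C * r)) * M ≤ (((range M).filter fun x : ℕ => ∀ p : ℕ, p.Prime → p < 2 ^ 2 ^ r →
        ¬ (p : ℤ) ∣ N ((y : G) * a + (x : G) * b)).card : ℝ) := by
  obtain ⟨u, r0, c, C, hc, hC, H⟩ := sift_ge 2
  refine ⟨u, r0, c, C, hc, hC, ?_⟩
  intro r hr a b hab y hy hyr M hM
  have h := H r hr (fun p x : ℕ => (p : ℤ) ∣ N ((y : G) * a + (x : G) * b)) (v1_per a b y) ?_ M hM
  · refine h.trans ?_
    unfold BrunHooley.sift
    norm_cast
    apply card_le_card
    intro x hx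
    have hx := (@Finset.mem_filter ℕ _ (_) _ _).1 hx
    refine (@Finset.mem_filter ℕ _ (_) _ _).2 ⟨hx.1, fun p hp hpr => hx.2 p ?_⟩
    unfold BrunHooley.Pz
    rw [mem_filter, mem_range]
    exact ⟨hpr, hp⟩
  · intro p hp
    unfold BrunHooley.Pz at hp
    rw [mem_filter, mem_range] at hp
    apply v1_rho hp.2 hab
    intro hpy
    have := (Nat.prime_dvd_prime_iff_eq hp.2 hy).1 hpy
    omega

-- MODULE v2
/-- The primes in `(N, 2N]`. -/
private def v2_bp (N : ℕ) : Finset ℕ := (Finset.Ioc N (2 * N)).filter Nat.Prime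

private theorem v2_cb (n : ℕ) (n_large : 2 < n) :
    Nat.centralBinom n ≤ (2 * n) ^ Nat.sqrt (2 * n) * 4 ^ (2 * n / 3) * (2 * n) ^ (v2_bp n).card := by
  have n_pos : 0 < n := (Nat.zero_le _).trans_lt n_large
  have n2_pos : 1 ≤ 2 * n := mul_pos (zero_lt_two' ℕ) n_pos
  let S := {p ∈ Finset.range (2 * n / 3 + 1) | Nat.Prime p}
  let f := fun x : ℕ => x ^ n.centralBinom.factorization x
  have hf : ∀ x, ¬ x.Prime → f x = 1 := by
    intro x hx
    show x ^ n.centralBinom.factorization x = 1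
    rw [Nat.factorization_eq_zero_of_not_prime n.centralBinom hx, _root_.pow_zero]
  have h0 : Nat.centralBinom n = (∏ x ∈ S, f x) * ∏ x ∈ v2_bp n, f x := by
    have hdisj : Disjoint S (v2_bp n) := by
      rw [Finset.disjoint_left]
      intro x hx hx'
      simp only [S, v2_bp, mem_filter, mem_range, mem_Ioc] at hx hx'
      omega
    rw [← Finset.prod_union hdisj]
    refine (Eq.trans ?_ n.prod_pow_factorization_centralBinom).symm
    apply Finset.prod_subset
    · intro x hx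
      simp only [S, v2_bp, mem_union, mem_filter, mem_range, mem_Ioc] at hx ⊢
      omega
    · intro x hx h2x
      simp only [S, v2_bp, mem_union, mem_filter, mem_range, mem_Ioc, not_or, not_and] at hx h2x
      by_cases hp : x.Prime
      · have h3 : ¬ x < 2 * n / 3 + 1 := fun h => h2x.1 h hp
        have h4 : x ≤ n := by
          by_contra h5
          exact h2x.2 ⟨by omega, by omega⟩ hp
        show x ^ n.centralBinom.factorization x = 1
        rw [Nat.factorization_centralBinom_of_two_mul_self_lt_three_mul n_large h4 (by omega),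
          Nat.pow_zero]
      · exact hf x hp
  rw [h0]
  apply Nat.mul_le_mul
  · rw [← Finset.prod_filter_mul_prod_filter_not S (· ≤ Nat.sqrt (2 * n))]
    apply mul_le_mul'
    · refine (Finset.prod_le_prod' fun p _ => (?_ : f p ≤ 2 * n)).trans ?_
      · exact Nat.pow_factorization_choose_le (mul_pos two_pos n_pos)
      have : (Finset.Icc 1 (Nat.sqrt (2 * n))).card = Nat.sqrt (2 * n) := by
        rw [Nat.card_Icc, Nat.add_sub_cancel]
      rw [Finset.prod_const]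
      refine pow_right_mono₀ n2_pos ((Finset.card_le_card fun x hx => ?_).trans this.le)
      obtain ⟨h1, h2⟩ := Finset.mem_filter.1 hx
      exact Finset.mem_Icc.mpr ⟨(Finset.mem_filter.1 h1).2.one_lt.le, h2⟩
    · refine le_trans ?_ (primorial_le_four_pow (2 * n / 3))
      refine (Finset.prod_le_prod' fun p hp => (?_ : f p ≤ p)).trans ?_
      · obtain ⟨h1, h2⟩ := Finset.mem_filter.1 hp
        refine (pow_right_mono₀ (Finset.mem_filter.1 h1).2.one_lt.le ?_).trans (pow_one p).le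
        exact Nat.factorization_choose_le_one (Nat.sqrt_lt'.mp <| not_le.1 h2)
      refine Finset.prod_le_prod_of_subset_of_one_le' (Finset.filter_subset _ _) ?_
      exact fun p hp _ => (Finset.mem_filter.1 hp).2.one_lt.le
  · refine (Finset.prod_le_prod' fun p _ => (?_ : f p ≤ 2 * n)).trans ?_
    · exact Nat.pow_factorization_choose_le (mul_pos two_pos n_pos)
    · rw [Finset.prod_const]

/-- Chebyshev's lower bound -/
theorem primes_ge : ∃ (c : ℝ) (Y0 : ℕ), 0 < c ∧ ∀ Y : ℕ, Y0 ≤ Y →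
    c * Y / Real.log Y ≤ (((Ioc Y (2 * Y)).filter Nat.Prime).card : ℝ) := by
  have e1 : ∀ᶠ x : ℝ in Filter.atTop, Real.log x ≤ (1 / 100) * √x := by
    have h := (isLittleO_log_rpow_atTop (by norm_num : (0 : ℝ) < 1 / 2)).bound
      (by norm_num : (0 : ℝ) < 1 / 100)
    filter_upwards [h, Filter.eventually_ge_atTop 1] with x hx hx1
    rw [Real.norm_eq_abs, Real.norm_eq_abs, abs_of_nonneg (Real.log_nonneg hx1),
      abs_of_nonneg (by positivity)] at hx
    rwa [Real.sqrt_eq_rpow]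
  have e3 := (tendsto_natCast_atTop_atTop (R := ℝ)).eventually
    (e1.and (Filter.eventually_ge_atTop 9))
  obtain ⟨n0, hn0⟩ := Filter.eventually_atTop.1 e3
  refine ⟨1 / 100, n0, by norm_num, fun n hn => ?_⟩
  obtain ⟨_, h3⟩ := hn0 n hn
  obtain ⟨h1, _⟩ := hn0 (2 * n) (by omega)
  have hn9 : 9 ≤ n := by exact_mod_cast h3
  have hn0' : (0 : ℝ) < n := by linarith
  have h4 := Nat.four_pow_lt_mul_centralBinom n (by omega)
  have h5 := h4.le.trans (Nat.mul_le_mul_left n (v2_cb n (by omega)))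
  have h6 : (4 : ℝ) ^ n ≤ n * ((2 * n) ^ Nat.sqrt (2 * n) * 4 ^ (2 * n / 3) *
      (2 * n) ^ (v2_bp n).card) := by exact_mod_cast h5
  have h7 := Real.log_le_log (by positivity) h6
  have hcard : (((Ioc n (2 * n)).filter Nat.Prime).card : ℝ) = ((v2_bp n).card : ℝ) := rfl
  rw [hcard]
  rw [Real.log_mul (by positivity) (by positivity), Real.log_mul (by positivity) (by positivity),
    Real.log_mul (by positivity) (by positivity), Real.log_pow, Real.log_pow, Real.log_pow,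
    Real.log_pow] at h7
  push_cast at h1
  set L := Real.log (2 * n) with hL
  have hLn : Real.log n ≤ L := Real.log_le_log hn0' (by linarith)
  have hLn2 : L = Real.log 2 + Real.log n := by rw [hL, Real.log_mul (by norm_num) hn0'.ne']
  have hl2 : 0.6931471803 < Real.log 2 := Real.log_two_gt_d9
  have hl2' : Real.log 2 < 0.6931471808 := Real.log_two_lt_d9
  have hl4 : Real.log 4 = 2 * Real.log 2 := by
    rw [show (4 : ℝ) = 2 ^ 2 by norm_num, Real.log_pow]; norm_num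
  have hlogn : 1 ≤ Real.log n := by
    rw [Real.le_log_iff_exp_le hn0']
    have := Real.exp_one_lt_d9
    linarith
  have hL1 : 1 ≤ L := by linarith
  have h8 : ((Nat.sqrt (2 * n) : ℕ) : ℝ) ≤ √(2 * n) := by
    have := @Real.nat_sqrt_le_real_sqrt (2 * n)
    push_cast at this
    exact this
  have h9 : ((2 * n / 3 : ℕ) : ℝ) ≤ (2 * n) / 3 := by
    have : ((2 * n / 3 : ℕ) : ℝ) ≤ ((2 * n : ℕ) : ℝ) / ((3 : ℕ) : ℝ) := Nat.cast_div_le
    push_cast at this
    exact this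
  have hsq : √(2 * (n : ℝ)) * √(2 * (n : ℝ)) = 2 * n := Real.mul_self_sqrt (by positivity)
  have h10 : ((Nat.sqrt (2 * n) : ℕ) : ℝ) * L ≤ (1 / 50) * n := by
    calc ((Nat.sqrt (2 * n) : ℕ) : ℝ) * L ≤ √(2 * n) * ((1 / 100) * √(2 * n)) :=
          mul_le_mul h8 h1 (by linarith) (by positivity)
      _ = (1 / 50) * n := by linarith
  have h11 : ((2 * n / 3 : ℕ) : ℝ) * Real.log 4 ≤ (2 * n) / 3 * Real.log 4 :=
    mul_le_mul_of_nonneg_right h9 (by rw [hl4]; linarith)
  have hs1 : 1 ≤ √(2 * (n : ℝ)) := by rw [Real.one_le_sqrt]; linarith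
  have h12 : L ≤ (1 / 50) * n := by nlinarith
  have h13 : (1 / 50 : ℝ) * n ≤ (v2_bp n).card * L := by
    rw [hl4] at h7 h11
    nlinarith
  rw [div_le_iff₀ (by linarith)]
  have hLL : L ≤ 2 * Real.log n := by linarith
  have : ((v2_bp n).card : ℝ) * L ≤ (v2_bp n).card * (2 * Real.log n) :=
    mul_le_mul_of_nonneg_left hLL (by positivity)
  linarith

-- MODULE v3
private theorem v3_large (c C : ℝ) (hc : 0 < c) (Y0 : ℕ) : ∃ r0 : ℕ, ∀ r ≥ r0,
    2 ≤ c * Real.exp (-(C * r)) * (2 : ℝ) ^ 2 ^ r ∧ Y0 ≤ r := by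
  have h1 := tendsto_pow_const_div_const_pow_of_one_lt 1 (r := (2 : ℝ)) (by norm_num)
  have h2 : Filter.Tendsto (fun n : ℕ => (|Real.log (2 / c)| + |C|) * ((n : ℝ) ^ 1 / 2 ^ n)) Filter.atTop (nhds 0) := by
    simpa using h1.const_mul (|Real.log (2 / c)| + |C|)
  have h3 := h2.eventually (gt_mem_nhds (show (0 : ℝ) < Real.log 2 from Real.log_pos (by norm_num)))
  obtain ⟨r1, hr1⟩ := Filter.eventually_atTop.1 h3
  refine ⟨max (max r1 1) Y0, fun r hr => ⟨?_, le_trans (le_max_right _ _) hr⟩⟩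
  have hr2 : r1 ≤ r := le_trans (le_trans (le_max_left _ _) (le_max_left _ _)) hr
  have hr3 : 1 ≤ r := le_trans (le_trans (le_max_right _ _) (le_max_left _ _)) hr
  have hr3' : (1 : ℝ) ≤ r := by exact_mod_cast hr3
  have h4 := hr1 r hr2
  have h2p : (0 : ℝ) < 2 ^ r := by positivity
  have h5 : (|Real.log (2 / c)| + |C|) * (r : ℝ) < Real.log 2 * 2 ^ r := by
    have e : (|Real.log (2 / c)| + |C|) * ((r : ℝ) ^ 1 / 2 ^ r) = (|Real.log (2 / c)| + |C|) * (r : ℝ) / 2 ^ r := by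
      rw [pow_one]; ring
    rw [e, div_lt_iff₀ h2p] at h4
    exact h4
  have h6 : Real.log (2 / c) + C * r ≤ Real.log 2 * 2 ^ r := by
    have a1 := le_abs_self (Real.log (2 / c))
    have a2 := le_abs_self C
    have a3 := abs_nonneg (Real.log (2 / c))
    nlinarith
  have h7 : (2 / c) * Real.exp (C * r) ≤ (2 : ℝ) ^ 2 ^ r := by
    have e1 : (2 / c) * Real.exp (C * r) = Real.exp (Real.log (2 / c) + C * r) := by
      rw [Real.exp_add, Real.exp_log (by positivity)]
    have e2 : (2 : ℝ) ^ 2 ^ r = Real.exp (Real.log 2 * 2 ^ r) := by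
      rw [← Real.exp_log (show (0 : ℝ) < (2 : ℝ) ^ 2 ^ r by positivity), Real.log_pow]
      congr 1
      push_cast
      ring
    rw [e1, e2]
    exact Real.exp_le_exp.2 h6
  have h8 : (2 : ℝ) = c * Real.exp (-(C * r)) * ((2 / c) * Real.exp (C * r)) := by
    rw [Real.exp_neg]
    have := Real.exp_pos (C * r)
    field_simp
  calc (2 : ℝ) = c * Real.exp (-(C * r)) * ((2 / c) * Real.exp (C * r)) := h8
    _ ≤ c * Real.exp (-(C * r)) * (2 : ℝ) ^ 2 ^ r := by
      apply mul_le_mul_of_nonneg_left h7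
      positivity

private theorem v3_cop {a b v : G} {x y : ℤ} (hxy : IsCoprime y x) (hv : v = y * a + x * b) {Z : ℕ}
    (hD : D a b < Z) (hD0 : 0 < D a b) (hN : ∀ p : ℕ, p.Prime → (p : ℤ) ∣ N v → Z ≤ p) :
    IsCoprime v.re v.im := by
  rw [Int.isCoprime_iff_gcd_eq_one]
  by_contra hne
  obtain ⟨q, hq, hqd⟩ := Nat.exists_prime_and_dvd hne
  have h1 : (q : ℤ) ∣ v.re := (Int.natCast_dvd_natCast.2 hqd).trans (Int.gcd_dvd_left _ _)
  have h2 : (q : ℤ) ∣ v.im := (Int.natCast_dvd_natCast.2 hqd).trans (Int.gcd_dvd_right _ _)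
  have h3 : (q : ℤ) ∣ N v := by
    unfold N
    exact dvd_add (Dvd.dvd.pow h1 two_ne_zero) (Dvd.dvd.pow h2 two_ne_zero)
  have h4 : Z ≤ q := hN q hq h3
  have hqp : Prime (q : ℤ) := Nat.prime_iff_prime_int.1 hq
  have h5 : ¬ (q : ℤ) ∣ D a b := by
    intro hd
    have := Int.le_of_dvd hD0 hd
    have : (Z : ℤ) ≤ q := by exact_mod_cast h4
    linarith
  have e1 : a.re * v.im - a.im * v.re = x * D a b := by
    rw [hv, re_comb, im_comb]; unfold D; ring
  have e2 : b.re * v.im - b.im * v.re = -y * D a b := by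
    rw [hv, re_comb, im_comb]; unfold D; ring
  have d1 : (q : ℤ) ∣ x * D a b := by
    rw [← e1]; exact dvd_sub (Dvd.dvd.mul_left h2 _) (Dvd.dvd.mul_left h1 _)
  have d2 : (q : ℤ) ∣ -y * D a b := by
    rw [← e2]; exact dvd_sub (Dvd.dvd.mul_left h2 _) (Dvd.dvd.mul_left h1 _)
  have d3 : (q : ℤ) ∣ x := (hqp.dvd_or_dvd d1).resolve_right h5
  have d4 : (q : ℤ) ∣ y := (dvd_neg.1 ((hqp.dvd_or_dvd d2).resolve_right h5))
  exact hqp.not_isUnit (hxy.isUnit_of_dvd' d4 d3)

private theorem v3_bounds {RR : G → G → Prop} {a b v : G} (h : Node RR a b) {x y Y : ℤ} (hv : v = y * a + x * b)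
    (hY : 0 ≤ Y) (hx0 : 0 ≤ x) (hx : x ≤ Y) (hy : Y ≤ y) (hy2 : y ≤ 2 * Y) :
    8 * Y ^ 2 * D a b ≤ 9 * N v ∧ N v ≤ 16 * Y ^ 2 * D a b := by
  have e := N_comb_mul y x a b
  rw [← hv] at e
  have hpos := h.pos
  have hr0 := h.r0
  have hr1 := h.r1
  have hbn := h.bn
  have hnb := h.nb
  have hNb : 0 < N b := lt_of_lt_of_le hpos hbn
  have hNv := N_nonneg v
  set P := y * R a b + x * N b with hP
  have hy0 : 0 ≤ y := le_trans hY hy
  have hP0 : 0 ≤ P := add_nonneg (mul_nonneg hy0 hr0) (mul_nonneg hx0 hNb.le)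
  have hP1 : P ≤ 3 * Y * N b := by
    have i1 : y * R a b ≤ (2 * Y) * N b := mul_le_mul hy2 hr1.le hr0 (by positivity)
    have i2 : x * N b ≤ Y * N b := mul_le_mul_of_nonneg_right hx hNb.le
    rw [hP]; nlinarith
  constructor
  · have i1 : Y ^ 2 * D a b ^ 2 ≤ N v * N b := by
      rw [e]
      have : Y ^ 2 ≤ y ^ 2 := pow_le_pow_left₀ hY hy 2
      nlinarith [sq_nonneg P, sq_nonneg (D a b), mul_le_mul_of_nonneg_right this (sq_nonneg (D a b))]
    have i2 : 8 * (Y ^ 2 * D a b ^ 2) ≤ 9 * (N v * D a b) := by nlinarith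
    have i3 : (8 * Y ^ 2 * D a b) * D a b ≤ (9 * N v) * D a b := by nlinarith
    exact le_of_mul_le_mul_right i3 hpos
  · have i1 : P ^ 2 ≤ (3 * Y * N b) ^ 2 := pow_le_pow_left₀ hP0 hP1 2
    have i2 : (y * D a b) ^ 2 ≤ (2 * Y * D a b) ^ 2 := by
      apply pow_le_pow_left₀ (by positivity)
      exact mul_le_mul_of_nonneg_right hy2 hpos.le
    have i3 : (2 * Y * D a b) ^ 2 ≤ 4 * Y ^ 2 * D a b * N b := by
      have : 0 ≤ 4 * Y ^ 2 * D a b := by positivity
      nlinarith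
    have i4 : N v * N b ≤ (9 * Y ^ 2 * N b + 4 * Y ^ 2 * D a b) * N b := by
      rw [e]; nlinarith
    have i5 := le_of_mul_le_mul_right i4 hNb
    have i6 : 8 * (9 * Y ^ 2 * N b) ≤ 81 * Y ^ 2 * D a b := by
      have : 0 ≤ 9 * Y ^ 2 := by positivity
      nlinarith
    have i7 : 0 ≤ Y ^ 2 * D a b := by positivity
    nlinarith

private theorem v3_inj {a b : G} (hD0 : 0 < D a b) {x y x' y' : ℤ}
    (h : (y : G) * a + (x : G) * b = (y' : G) * a + (x' : G) * b) : y = y' ∧ x = x' := by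
  have hre := congrArg (fun z : G => z.re) h
  have him := congrArg (fun z : G => z.im) h
  simp only [re_comb, im_comb] at hre him
  have e1 : x * D a b = x' * D a b := by
    unfold D; linear_combination a.re * him - a.im * hre
  have e2 : y * D a b = y' * D a b := by
    unfold D; linear_combination b.im * hre - b.re * him
  exact ⟨mul_right_cancel₀ hD0.ne' e2, mul_right_cancel₀ hD0.ne' e1⟩

/-- the vectors used in the second moment -/
theorem vec_count : ∃ (u r0 : ℕ) (c C : ℝ), 1 ≤ u ∧ 0 < c ∧ 0 ≤ C ∧ ∀ r ≥ r0, ∀ (RR : G → G → Prop) (a b : G),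
    Node RR a b → D a b < 2 ^ 2 ^ r → ∀ Y : ℕ, 2 ^ (2 ^ r * u) ≤ Y → ∃ V : Finset G,
      (∀ v ∈ V, (∃ x y : ℤ, IsCoprime x y ∧ v = x * a + y * b) ∧ IsCoprime v.re v.im ∧
        (∀ p : ℕ, p.Prime → (p : ℤ) ∣ N v → 2 ^ 2 ^ r ≤ p) ∧
        8 * (Y : ℤ) ^ 2 * D a b ≤ 9 * N v ∧ N v ≤ 16 * (Y : ℤ) ^ 2 * D a b) ∧
      c * Real.exp (-(C * r)) * Y ^ 2 / Real.log Y ≤ (V.card : ℝ) := by
  classical
  obtain ⟨u1, r1, c1, C1, hc1, hC1, hline⟩ := line_count
  obtain ⟨c2, Y0, hc2, hprim⟩ := primes_ge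
  obtain ⟨r2, hr2⟩ := v3_large c1 C1 hc1 Y0
  refine ⟨max u1 1, max r1 r2, c1 * c2 / 2, C1, le_max_right _ _, by positivity, hC1, ?_⟩
  intro r hr RR a b hn hD Y hY
  have hpos := hn.pos
  have h2u1 : 2 ^ (2 ^ r * u1) ≤ Y :=
    le_trans (Nat.pow_le_pow_right (by norm_num) (Nat.mul_le_mul_left _ (le_max_left _ _))) hY
  have h2r : 2 ^ 2 ^ r ≤ Y :=
    le_trans (Nat.pow_le_pow_right (by norm_num) (Nat.le_mul_of_pos_right _ (lt_of_lt_of_le Nat.zero_lt_one (le_max_right _ _)))) hY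
  obtain ⟨hbig, hY0r⟩ := hr2 r (le_trans (le_max_right _ _) hr)
  have hY0 : Y0 ≤ Y := by
    have : r < 2 ^ r := Nat.lt_two_pow_self
    have : 2 ^ r < 2 ^ 2 ^ r := Nat.lt_two_pow_self
    omega
  have hY2 : 2 ≤ Y := by
    have : 1 ≤ 2 ^ r := Nat.one_le_two_pow
    have : 2 ^ 1 ≤ 2 ^ 2 ^ r := Nat.pow_le_pow_right (by norm_num) this
    omega
  -- the set
  set good : ℕ → ℕ → Prop := fun y x => ∀ p : ℕ, p.Prime → p < 2 ^ 2 ^ r →
        ¬ (p : ℤ) ∣ N ((y : G) * a + (x : G) * b) with hgood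
  set Ps := (Ioc Y (2 * Y)).filter Nat.Prime with hPs
  set W : Finset (Σ _ : ℕ, ℕ) := Ps.sigma fun y => ((range Y).filter (good y)).erase 0 with hW
  set f : (Σ _ : ℕ, ℕ) → G := fun q => ((q.1 : ℤ) : G) * a + ((q.2 : ℤ) : G) * b with hf
  have hcast : ∀ y x : ℕ, (((y : ℕ) : ℤ) : G) * a + (((x : ℕ) : ℤ) : G) * b = (y : G) * a + (x : G) * b := by
    intro y x; push_cast; rfl
  refine ⟨W.image f, ?_, ?_⟩
  · intro v hv
    obtain ⟨⟨y, x⟩, hq, rfl⟩ := Finset.mem_image.1 hv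
    rw [hW, Finset.mem_sigma] at hq
    obtain ⟨hq1, hq2⟩ := hq
    simp only at hq1 hq2
    rw [hPs, Finset.mem_filter, Finset.mem_Ioc] at hq1
    rw [Finset.mem_erase, Finset.mem_filter, Finset.mem_range] at hq2
    obtain ⟨⟨hy1, hy2⟩, hyp⟩ := hq1
    obtain ⟨hx0, hxY, hg⟩ := hq2
    have hxy : IsCoprime (y : ℤ) (x : ℤ) := by
      rw [Nat.isCoprime_iff_coprime]
      exact (Nat.Prime.coprime_iff_not_dvd hyp).2 (Nat.not_dvd_of_pos_of_lt (Nat.pos_of_ne_zero hx0) (by omega))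
    have hNp : ∀ p : ℕ, p.Prime → (p : ℤ) ∣ N (((y : ℤ) : G) * a + ((x : ℤ) : G) * b) → 2 ^ 2 ^ r ≤ p := by
      intro p hp hpd
      by_contra hlt
      apply hg p hp (by omega)
      rw [← hcast]
      exact hpd
    refine ⟨⟨y, x, hxy, rfl⟩, ?_, hNp, ?_⟩
    · exact v3_cop hxy rfl (by exact_mod_cast hD) hpos hNp
    · exact v3_bounds hn rfl (by positivity) (by positivity) (by exact_mod_cast hxY.le) (by exact_mod_cast hy1.le)
        (by exact_mod_cast hy2)
  · have hinj : Set.InjOn f (W : Set (Σ _ : ℕ, ℕ)) := by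
      rintro ⟨y, x⟩ _ ⟨y', x'⟩ _ hh
      obtain ⟨h1, h2⟩ := v3_inj hpos hh
      have h1' : y = y' := by exact_mod_cast h1
      have h2' : x = x' := by exact_mod_cast h2
      rw [h1', h2']
    rw [Finset.card_image_of_injOn hinj, hW, Finset.card_sigma]
    push_cast
    have hYr : (2 : ℝ) ^ 2 ^ r ≤ Y := by exact_mod_cast h2r
    have hlogpos : 0 < Real.log Y := Real.log_pos (by exact_mod_cast hY2)
    have hE : 0 < c1 * Real.exp (-(C1 * r)) := by positivity
    have hone : 2 ≤ c1 * Real.exp (-(C1 * r)) * Y := le_trans hbig (mul_le_mul_of_nonneg_left hYr hE.le)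
    have hterm : ∀ y ∈ Ps, c1 * Real.exp (-(C1 * r)) * Y / 2 ≤ ((((range Y).filter (good y)).erase 0).card : ℝ) := by
      intro y hy
      rw [hPs, Finset.mem_filter, Finset.mem_Ioc] at hy
      obtain ⟨⟨hy1, hy2⟩, hyp⟩ := hy
      have l1 := hline r (le_trans (le_max_left _ _) hr) a b hn.cop y hyp (by omega) Y h2u1
      have l2 : ((range Y).filter (good y)).card ≤ (((range Y).filter (good y)).erase 0).card + 1 := by
        have := Finset.pred_card_le_card_erase (s := (range Y).filter (good y)) (a := 0)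
        omega
      have l3 : (((range Y).filter (good y)).card : ℝ) ≤ ((((range Y).filter (good y)).erase 0).card : ℝ) + 1 := by
        exact_mod_cast l2
      have l4 : c1 * Real.exp (-(C1 * r)) * Y ≤ (((range Y).filter (good y)).card : ℝ) := by
        convert l1 using 3
      linarith
    have hsum : (Ps.card : ℝ) * (c1 * Real.exp (-(C1 * r)) * Y / 2) ≤
        ∑ y ∈ Ps, ((((range Y).filter (good y)).erase 0).card : ℝ) := by
      rw [← nsmul_eq_mul]
      exact Finset.card_nsmul_le_sum _ _ _ hterm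
    have hp := hprim Y hY0
    calc c1 * c2 / 2 * Real.exp (-(C1 * r)) * Y ^ 2 / Real.log Y
        = (c2 * Y / Real.log Y) * (c1 * Real.exp (-(C1 * r)) * Y / 2) := by field_simp
      _ ≤ (Ps.card : ℝ) * (c1 * Real.exp (-(C1 * r)) * Y / 2) := by
          apply mul_le_mul_of_nonneg_right hp
          positivity
      _ ≤ _ := hsum

end Pool.Agent.Flea
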