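import Pool.Agent.Flea.Mom

/-! # MP_fb7c71_nt: the second moment in a window -/

set_option autoImplicit false

namespace Pool.Agent.Flea

open Finset

/-- if `u` is primitive, `g ∣ N u` and `g` divides `conj u * t`, then `g ∣ N t` -/
theorem dvd_norm {u t : G} (hu : IsCoprime u.re u.im) {g : ℤ} (hg : g ∣ N u) (hR : g ∣ R u t) (hD : g ∣ D u t) :
    g ∣ N t := by
  obtain ⟨s, r, hsr⟩ := hu
  obtain ⟨n, hn⟩ := hg
  obtain ⟨α, hα⟩ := hR
  obtain ⟨β, hβ⟩ := hD
  unfold N at hn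
  unfold R at hα
  unfold D at hβ
  -- t.re = s R - r D + m t.im with m = r u.re - s u.im
  have h1 : t.re = g * (s * α - r * β) + (r * u.re - s * u.im) * t.im := by
    linear_combination (-t.re) * hsr + s * hα - r * hβ
  have h2 : (r * u.re - s * u.im) ^ 2 + 1 = g * (n * (r ^ 2 + s ^ 2)) := by
    linear_combination (r ^ 2 + s ^ 2) * hn - (s * u.re + r * u.im + 1) * hsr
  unfold N
  refine ⟨g * (s * α - r * β) ^ 2 + 2 * (s * α - r * β) * (r * u.re - s * u.im) * t.im + n * (r ^ 2 + s ^ 2) * t.im ^ 2, ?_⟩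
  rw [h1]
  linear_combination t.im ^ 2 * h2

/-- two vectors hitting with `u` modulo `g` -/
theorem dvd_sub_norm {u v v' : G} (hu : IsCoprime u.re u.im) {g n n' d : ℤ} (hg : g ∣ N u) (hgv : g ∣ N v)
    (hgv' : g ∣ N v') (hc : IsCoprime g d) (h1 : Hit u n d) (h2 : Hit v n d) (h3 : Hit u n' d) (h4 : Hit v' n' d) :
    g ∣ N (v - v') := by
  have key : ∀ (w : G) (m : ℤ), g ∣ N w → Hit u m d → Hit w m d → g ∣ R u w ∧ g ∣ D u w := by
    intro w m hw ⟨a1, a2⟩ ⟨b1, b2⟩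
    have a1' := hg.trans a1
    have a2' := hg.trans a2
    have b1' := hw.trans b1
    have b2' := hw.trans b2
    constructor
    · apply hc.dvd_of_dvd_mul_left
      have := (a2'.mul_left w.re).sub (b1'.mul_left u.im)
      have e : w.re * (m * u.im + d * u.re) - u.im * (m * w.re - d * w.im) = d * R u w := by
        unfold R; ring
      rwa [e] at this
    · apply hc.dvd_of_dvd_mul_left
      have := (a1'.mul_left w.re).sub (b1'.mul_left u.re)
      have e : w.re * (m * u.re - d * u.im) - u.re * (m * w.re - d * w.im) = d * D u w := by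
        unfold D; ring
      rwa [e] at this
  obtain ⟨x1, x2⟩ := key v n hgv h1 h2
  obtain ⟨y1, y2⟩ := key v' n' hgv' h3 h4
  refine dvd_norm hu hg ?_ ?_
  · have := dvd_sub x1 y1
    have e : R u v - R u v' = R u (v - v') := by
      unfold R; rw [Zsqrtd.re_sub, Zsqrtd.im_sub]; ring
    rwa [e] at this
  · have := dvd_sub x2 y2
    have e : D u v - D u v' = D u (v - v') := by
      unfold D; rw [Zsqrtd.re_sub, Zsqrtd.im_sub]; ring
    rwa [e] at this

/-- packing: few vectors in a disc if `g` divides the norms of all differences -/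
theorem packing (W : Finset G) (g : ℕ) (hg : 0 < g) (S : ℝ) (hS : 0 ≤ S) (hW : ∀ v ∈ W, (N v : ℝ) ≤ S)
    (hd : ∀ v ∈ W, ∀ v' ∈ W, (g : ℤ) ∣ N (v - v')) : (W.card : ℝ) ≤ 16 * (S / g) + 8 := by
  have hgR : (0 : ℝ) < g := by exact_mod_cast hg
  set h : ℝ := Real.sqrt (g / 2) with hh
  have hh0 : 0 < h := Real.sqrt_pos.2 (by positivity)
  have hh2 : h ^ 2 = g / 2 := Real.sq_sqrt (by positivity)
  set s : ℝ := Real.sqrt S with hs
  have hs0 : 0 ≤ s := Real.sqrt_nonneg _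
  have hs2 : s ^ 2 = S := Real.sq_sqrt hS
  set a : ℤ := ⌊-(s / h)⌋ with ha
  set b : ℤ := ⌊s / h⌋ with hb
  have hmaps : ∀ x : ℤ, (x : ℝ) ^ 2 ≤ S → ⌊(x : ℝ) / h⌋ ∈ Icc a b := by
    intro x hx
    have h1 : |(x : ℝ)| ≤ s := Real.abs_le_sqrt hx
    obtain ⟨h2, h3⟩ := abs_le.1 h1
    rw [mem_Icc]
    constructor
    · apply Int.floor_le_floor
      rw [← neg_div]
      exact div_le_div_of_nonneg_right h2 hh0.le
    · apply Int.floor_le_floor
      exact div_le_div_of_nonneg_right h3 hh0.le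
  have hfl : ∀ x y : ℝ, ⌊x / h⌋ = ⌊y / h⌋ → |x - y| < h := by
    intro x y hxy
    have h1 := Int.abs_sub_lt_one_of_floor_eq_floor hxy
    have h2 : x / h - y / h = (x - y) / h := by ring
    rw [h2, abs_div, abs_of_pos hh0, div_lt_one hh0] at h1
    exact h1
  have hcard : W.card ≤ (Icc a b ×ˢ Icc a b).card := by
    refine card_le_card_of_injOn (fun v : G => (⌊(v.re : ℝ) / h⌋, ⌊(v.im : ℝ) / h⌋)) ?_ ?_
    · intro v hv
      have h1 := hW v hv
      unfold N at h1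
      push_cast at h1
      simp only [coe_product, Set.mem_prod, mem_coe]
      exact ⟨hmaps _ (by nlinarith [sq_nonneg (v.im : ℝ)]), hmaps _ (by nlinarith [sq_nonneg (v.re : ℝ)])⟩
    · intro v hv v' hv' he
      simp only [Prod.mk.injEq] at he
      have h1 := hfl _ _ he.1
      have h2 := hfl _ _ he.2
      have h3 := hd v hv v' hv'
      have h4 : (N (v - v') : ℝ) < g := by
        unfold N
        rw [Zsqrtd.re_sub, Zsqrtd.im_sub]
        push_cast
        have h5 : ((v.re : ℝ) - v'.re) ^ 2 < h ^ 2 := sq_lt_sq' (abs_lt.1 h1).1 (abs_lt.1 h1).2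
        have h6 : ((v.im : ℝ) - v'.im) ^ 2 < h ^ 2 := sq_lt_sq' (abs_lt.1 h2).1 (abs_lt.1 h2).2
        rw [hh2] at h5 h6
        linarith
      have h5 : N (v - v') < g := by exact_mod_cast h4
      have h6 : N (v - v') = 0 := by
        have h7 := N_nonneg (v - v')
        by_contra h8
        have := Int.le_of_dvd (lt_of_le_of_ne h7 (Ne.symm h8)) h3
        omega
      have h7 : v - v' = 0 := by
        by_contra h8
        have := N_pos h8
        omega
      exact sub_eq_zero.1 h7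
  rw [card_product, Int.card_Icc] at hcard
  have hab : (((b + 1 - a).toNat : ℕ) : ℝ) ≤ 2 * (s / h) + 2 := by
    have h1 : (b : ℝ) ≤ s / h := Int.floor_le _
    have h2 : -(s / h) < a + 1 := Int.lt_floor_add_one _
    have h3 : (0 : ℝ) ≤ s / h := by positivity
    have h4 : ((((b + 1 - a).toNat : ℕ) : ℤ) : ℝ) = max ((b : ℝ) + 1 - a) 0 := by
      rw [Int.toNat_eq_max]
      push_cast
      rfl
    have h5 : (((b + 1 - a).toNat : ℕ) : ℝ) = max ((b : ℝ) + 1 - a) 0 := by exact_mod_cast h4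
    rw [h5]
    apply max_le <;> linarith
  have h1 : (W.card : ℝ) ≤ (((b + 1 - a).toNat : ℕ) : ℝ) * (((b + 1 - a).toNat : ℕ) : ℝ) := by exact_mod_cast hcard
  have h0 : (0 : ℝ) ≤ (((b + 1 - a).toNat : ℕ) : ℝ) := by positivity
  have h3 : (s / h) ^ 2 = 2 * (S / g) := by
    rw [div_pow, hs2, hh2]; field_simp
  have h4 : (0 : ℝ) ≤ s / h := by positivity
  calc (W.card : ℝ) ≤ (((b + 1 - a).toNat : ℕ) : ℝ) * (((b + 1 - a).toNat : ℕ) : ℝ) := h1
    _ ≤ (2 * (s / h) + 2) * (2 * (s / h) + 2) := mul_le_mul hab hab h0 (by positivity)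
    _ ≤ 8 * (s / h) ^ 2 + 8 := by nlinarith [sq_nonneg (s / h - 1)]
    _ = 16 * (S / g) + 8 := by rw [h3]; ring

theorem hit_iff_win {u : G} (hu : IsCoprime u.re u.im) (hu0 : 0 < N u) (d w : ℤ) :
    ∃ A : ℕ, 0 < A ∧ N u = A ∧ ∃ r : ℤ, ∀ n : ℕ, Hit u (n + w) d ↔ (A : ℤ) ∣ (n : ℤ) - r := by
  obtain ⟨r, hr⟩ := hit_iff hu d
  obtain ⟨A, hA⟩ := Int.eq_ofNat_of_zero_le hu0.le
  have hA0 : 0 < A := by
    have : (0 : ℤ) < (A : ℤ) := by rw [← hA]; exact hu0
    exact_mod_cast this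
  refine ⟨A, hA0, hA, r - w, fun n => ?_⟩
  rw [hr, hA]
  have : (n : ℤ) + w - r = n - (r - w) := by ring
  rw [this]

open Classical in
/-- the number of `n` of the window in a residue class -/
theorem one_win {u : G} (hu : IsCoprime u.re u.im) (hu0 : 0 < N u) (d w : ℤ) (X : ℕ) :
    |((((range X).filter fun n : ℕ => Hit u (n + w) d).card : ℕ) : ℝ) - X / (N u : ℝ)| ≤ 1 := by
  obtain ⟨A, hA0, hA, r, hr⟩ := hit_iff_win hu hu0 d w
  have h1 : ((range X).filter fun n : ℕ => Hit u (n + w) d) = ((range X).filter fun n : ℕ => (A : ℤ) ∣ (n : ℤ) - r) := by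
    apply filter_congr
    intro n _
    rw [hr n]
  rw [h1, hA]
  have := m5_bd A hA0 r X
  simpa using this

open Classical in
/-- two residue classes: the common `n` lie in one class modulo the least common multiple -/
theorem two_win {u v : G} (hu : IsCoprime u.re u.im) (hv : IsCoprime v.re v.im)
    (hu0 : 0 < N u) (hv0 : 0 < N v) (d e w : ℤ) (X : ℕ) :
    ((((range X).filter fun n : ℕ => Hit u (n + w) d ∧ Hit v (n + w) e).card : ℕ) : ℝ) ≤
      X * (Int.gcd (N u) (N v) : ℝ) / ((N u : ℝ) * N v) + 1 := by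
  have hpos : (0 : ℝ) ≤ X * (Int.gcd (N u) (N v) : ℝ) / ((N u : ℝ) * N v) := by
    have h1 : (0 : ℝ) < N u := by exact_mod_cast hu0
    have h2 : (0 : ℝ) < N v := by exact_mod_cast hv0
    positivity
  rcases ((range X).filter fun n : ℕ => Hit u (n + w) d ∧ Hit v (n + w) e).eq_empty_or_nonempty with hE | ⟨n0, hn0⟩
  · rw [hE, card_empty, Nat.cast_zero]; linarith
  obtain ⟨_, hn1, hn2⟩ := mem_filter.1 hn0
  obtain ⟨A, hA0, hA, r, hr⟩ := hit_iff_win hu hu0 d w
  obtain ⟨B, hB0, hB, s, hs⟩ := hit_iff_win hv hv0 e w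
  have hL0 : 0 < Nat.lcm A B := Nat.lcm_pos hA0 hB0
  have hsub : ((range X).filter fun n : ℕ => Hit u (n + w) d ∧ Hit v (n + w) e) ⊆
      ((range X).filter fun n : ℕ => ((Nat.lcm A B : ℕ) : ℤ) ∣ (n : ℤ) - (n0 : ℤ)) := by
    intro n hn
    obtain ⟨hnX, h1, h2⟩ := mem_filter.1 hn
    refine mem_filter.2 ⟨hnX, ?_⟩
    have a1 := (hr n).1 h1
    have a2 := (hr n0).1 hn1
    have b1 := (hs n).1 h2
    have b2 := (hs n0).1 hn2
    have a3 : (A : ℤ) ∣ (n : ℤ) - n0 := by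
      have := dvd_sub a1 a2
      have h7 : ((n : ℤ) - r) - ((n0 : ℤ) - r) = n - n0 := by ring
      rwa [h7] at this
    have b3 : (B : ℤ) ∣ (n : ℤ) - n0 := by
      have := dvd_sub b1 b2
      have h7 : ((n : ℤ) - s) - ((n0 : ℤ) - s) = n - n0 := by ring
      rwa [h7] at this
    have a4 := Int.natCast_dvd.1 a3
    have b4 := Int.natCast_dvd.1 b3
    exact Int.natCast_dvd.2 (Nat.lcm_dvd a4 b4)
  have h1 := m5_bd (Nat.lcm A B) hL0 n0 X
  have h2 : ((((range X).filter fun n : ℕ => Hit u (n + w) d ∧ Hit v (n + w) e).card : ℕ) : ℝ) ≤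
    ((((range X).filter fun n : ℕ => ((Nat.lcm A B : ℕ) : ℤ) ∣ (n : ℤ) - (n0 : ℤ)).card : ℕ) : ℝ) := by
    exact_mod_cast card_le_card hsub
  have h3 := (abs_le.1 h1).2
  have hAR : (0 : ℝ) < A := by exact_mod_cast hA0
  have hBR : (0 : ℝ) < B := by exact_mod_cast hB0
  have hLR : (0 : ℝ) < (Nat.lcm A B : ℕ) := by exact_mod_cast hL0
  have h4 : (Nat.gcd A B : ℝ) * (Nat.lcm A B : ℕ) = A * B := by exact_mod_cast Nat.gcd_mul_lcm A B
  have h5 : (X : ℝ) / ((Nat.lcm A B : ℕ) : ℝ) = X * (Nat.gcd A B : ℝ) / (A * B) := by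
    rw [← h4]
    have hg : (0 : ℝ) < Nat.gcd A B := by exact_mod_cast Nat.gcd_pos_of_pos_left B hA0
    field_simp
  rw [hA, hB, Int.gcd_natCast_natCast]
  push_cast
  rw [← h5]
  linarith

open Classical in
/-- the vectors which hit together with `u`, for the same `d` -/
theorem same_sum (z k : ℕ) (hz : 2 ≤ z) {u : G} {d : ℤ} (hu : IsCoprime u.re u.im) (hu0 : 0 < N u) (hd : 0 < d)
    (hdz : d ^ 2 < z) (hur : ∀ p : ℕ, p.Prime → (p : ℤ) ∣ N u → z ≤ p) {A S : ℝ} (hA : 1 ≤ A) (hS : 1 ≤ S)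
    (huA : A ≤ (N u : ℝ)) (huS : (N u : ℝ) ≤ S) (huk : (N u).toNat < z ^ (k + 1))
    (V : Finset G) (hV : ∀ v ∈ V, IsCoprime v.re v.im ∧ A ≤ (N v : ℝ) ∧ (N v : ℝ) ≤ S) (w : ℤ) (X : ℕ) :
    ∑ v ∈ V, ((((range X).filter fun n : ℕ => Hit u (n + w) d ∧ Hit v (n + w) d).card : ℕ) : ℝ) ≤
      2 ^ k * (24 * (S / A ^ 2 * X + S)) := by
  have hNv : ∀ v ∈ V, (0 : ℤ) < N v := by
    intro v hv
    have h1 := (hV v hv).2.1
    have : (0 : ℝ) < N v := by linarith
    exact_mod_cast this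
  set W : Finset G := V.filter fun v => ∃ n : ℕ, Hit u (n + w) d ∧ Hit v (n + w) d with hW
  have h1 : ∑ v ∈ V, ((((range X).filter fun n : ℕ => Hit u (n + w) d ∧ Hit v (n + w) d).card : ℕ) : ℝ) =
      ∑ v ∈ W, ((((range X).filter fun n : ℕ => Hit u (n + w) d ∧ Hit v (n + w) d).card : ℕ) : ℝ) := by
    symm
    apply sum_subset (filter_subset _ _)
    intro v hv hvW
    rw [Nat.cast_eq_zero, card_eq_zero, filter_eq_empty_iff]
    intro n _ hn
    exact hvW (mem_filter.2 ⟨hv, n, hn⟩)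
  rw [h1]
  set T : Finset ℕ := (N u).toNat.divisors.filter fun g => ∀ p : ℕ, p.Prime → p ∣ g → z ≤ p with hT
  have hNu : (((N u).toNat : ℕ) : ℤ) = N u := Int.toNat_of_nonneg hu0.le
  have hTcard : T.card ≤ 2 ^ k := rough_div z k (N u).toNat hz (by omega) huk
  have hmaps : ∀ v ∈ W, Int.gcd (N u) (N v) ∈ T := by
    intro v _
    rw [hT, mem_filter, Nat.mem_divisors]
    refine ⟨⟨?_, by omega⟩, ?_⟩
    · have : ((Int.gcd (N u) (N v) : ℕ) : ℤ) ∣ ((N u).toNat : ℕ) := by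
        rw [hNu]; exact Int.gcd_dvd_left _ _
      exact Int.natCast_dvd_natCast.1 this
    · intro p hp hpg
      exact hur p hp ((Int.natCast_dvd_natCast.2 hpg).trans (Int.gcd_dvd_left _ _))
  rw [← sum_fiberwise_of_maps_to hmaps]
  have hone : ∀ g ∈ T, ∑ v ∈ W.filter (fun v => Int.gcd (N u) (N v) = g),
      ((((range X).filter fun n : ℕ => Hit u (n + w) d ∧ Hit v (n + w) d).card : ℕ) : ℝ) ≤
        24 * (S / A ^ 2 * X + S) := by
    intro g hg
    rw [hT, mem_filter, Nat.mem_divisors] at hg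
    obtain ⟨⟨hg1, _⟩, hg2⟩ := hg
    have hg0 : 0 < g := Nat.pos_of_dvd_of_pos hg1 (by omega)
    have hgR : (1 : ℝ) ≤ g := by exact_mod_cast hg0
    have hgu : (g : ℤ) ∣ N u := by
      rw [← hNu]; exact Int.natCast_dvd_natCast.2 hg1
    have hgS : (g : ℝ) ≤ S := by
      have : (g : ℤ) ≤ N u := Int.le_of_dvd hu0 hgu
      have : ((g : ℤ) : ℝ) ≤ (N u : ℝ) := by exact_mod_cast this
      push_cast at this
      linarith
    have hcop : IsCoprime (g : ℤ) d := by
      apply m4_cop z hd hdz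
      intro p hp hpg
      exact hg2 p hp (Int.natCast_dvd_natCast.1 hpg)
    have hpack := packing (W.filter (fun v => Int.gcd (N u) (N v) = g)) g hg0 S (by linarith) (by
      intro v hv
      exact (hV v (mem_filter.1 (mem_filter.1 hv).1).1).2.2) (by
      intro v hv v' hv'
      obtain ⟨hvW, hvg⟩ := mem_filter.1 hv
      obtain ⟨hvW', hvg'⟩ := mem_filter.1 hv'
      obtain ⟨_, n, n1, n2⟩ := mem_filter.1 hvW
      obtain ⟨_, n', n1', n2'⟩ := mem_filter.1 hvW'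
      refine dvd_sub_norm hu hgu ?_ ?_ hcop n1 n2 n1' n2'
      · rw [← hvg]; exact Int.gcd_dvd_right _ _
      · rw [← hvg']; exact Int.gcd_dvd_right _ _)
    have hterm : ∀ v ∈ W.filter (fun v => Int.gcd (N u) (N v) = g),
        ((((range X).filter fun n : ℕ => Hit u (n + w) d ∧ Hit v (n + w) d).card : ℕ) : ℝ) ≤ X * g / A ^ 2 + 1 := by
      intro v hv
      obtain ⟨hvW, hvg⟩ := mem_filter.1 hv
      have hvV := (mem_filter.1 hvW).1
      have h2 := two_win hu (hV v hvV).1 hu0 (hNv v hvV) d d w X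
      rw [hvg] at h2
      refine h2.trans ?_
      have h3 : A ^ 2 ≤ (N u : ℝ) * N v := by
        have := (hV v hvV).2.1
        nlinarith
      have h4 : (X : ℝ) * g / ((N u : ℝ) * N v) ≤ X * g / A ^ 2 :=
        div_le_div_of_nonneg_left (by positivity) (by positivity) h3
      linarith
    refine (sum_le_card_nsmul _ _ _ hterm).trans ?_
    rw [nsmul_eq_mul]
    have hX0 : (0 : ℝ) ≤ X := Nat.cast_nonneg X
    have h2 : (((W.filter (fun v => Int.gcd (N u) (N v) = g)).card : ℕ) : ℝ) * (X * g / A ^ 2 + 1) ≤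
        (16 * (S / g) + 8) * (X * g / A ^ 2 + 1) := mul_le_mul_of_nonneg_right hpack (by positivity)
    refine h2.trans ?_
    have hA2 : (0 : ℝ) < A ^ 2 := by positivity
    have hgp : (0 : ℝ) < g := by linarith
    have e : (16 * (S / g) + 8) * (X * g / A ^ 2 + 1) = 16 * (S / A ^ 2 * X) + 16 * (S / g) + 8 * (g / A ^ 2 * X) + 8 := by
      field_simp
      ring
    rw [e]
    have i1 : S / g ≤ S := div_le_self (by linarith) hgR
    have i2 : (g : ℝ) / A ^ 2 * X ≤ S / A ^ 2 * X := by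
      apply mul_le_mul_of_nonneg_right _ hX0
      exact div_le_div_of_nonneg_right hgS hA2.le
    linarith
  refine (sum_le_card_nsmul _ _ _ hone).trans ?_
  rw [nsmul_eq_mul]
  have hT' : (T.card : ℝ) ≤ 2 ^ k := by exact_mod_cast hTcard
  apply mul_le_mul_of_nonneg_right hT'
  have hX0 : (0 : ℝ) ≤ X := Nat.cast_nonneg X
  positivity

open Classical in
/-- pairs with different `d` -/
theorem pair_win (z : ℕ) {u v : G} {d e : ℤ} (hu : IsCoprime u.re u.im) (hv : IsCoprime v.re v.im)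
    (hu0 : 0 < N u) (hv0 : 0 < N v) (hd : 0 < d) (he : 0 < e) (hdz : d ^ 2 < z) (hez : e ^ 2 < z) (hde : d ≠ e)
    (hur : ∀ p : ℕ, p.Prime → (p : ℤ) ∣ N u → z ≤ p) (w : ℤ) (X : ℕ) :
    ((((range X).filter fun n : ℕ => Hit u (n + w) d ∧ Hit v (n + w) e).card : ℕ) : ℝ) ≤ X / ((N u : ℝ) * N v) + 1 := by
  have hpos : (0 : ℝ) ≤ X / ((N u : ℝ) * N v) := by
    have h1 : (0 : ℝ) < N u := by exact_mod_cast hu0
    have h2 : (0 : ℝ) < N v := by exact_mod_cast hv0
    positivity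
  rcases ((range X).filter fun n : ℕ => Hit u (n + w) d ∧ Hit v (n + w) e).eq_empty_or_nonempty with hE | ⟨n0, hn0⟩
  · rw [hE, card_empty, Nat.cast_zero]; linarith
  obtain ⟨_, hn1, hn2⟩ := mem_filter.1 hn0
  have hcop : Int.gcd (N u) (N v) = 1 := by
    by_contra hg
    obtain ⟨p, hp, hpg⟩ := Nat.exists_prime_and_dvd hg
    have h1 : (p : ℤ) ∣ N u := (Int.natCast_dvd_natCast.2 hpg).trans (Int.gcd_dvd_left _ _)
    have h2 : (p : ℤ) ∣ N v := (Int.natCast_dvd_natCast.2 hpg).trans (Int.gcd_dvd_right _ _)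
    have h3 := hur p hp h1
    have h4 : (p : ℤ) ∣ ((n0 : ℤ) + w) ^ 2 + d ^ 2 := h1.trans (hit_dvd hu0 hn1)
    have h5 : (p : ℤ) ∣ ((n0 : ℤ) + w) ^ 2 + e ^ 2 := h2.trans (hit_dvd hv0 hn2)
    have h6 : (p : ℤ) ∣ d ^ 2 - e ^ 2 := by
      have := dvd_sub h4 h5
      have h7 : (((n0 : ℤ) + w) ^ 2 + d ^ 2) - (((n0 : ℤ) + w) ^ 2 + e ^ 2) = d ^ 2 - e ^ 2 := by ring
      rwa [h7] at this
    have h8 : d ^ 2 - e ^ 2 = 0 := by
      apply Int.eq_zero_of_abs_lt_dvd h6
      have h9 : (z : ℤ) ≤ p := by exact_mod_cast h3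
      rw [abs_lt]
      constructor
      · nlinarith [sq_nonneg d]
      · nlinarith [sq_nonneg e]
    apply hde
    nlinarith [h8]
  have h1 := two_win hu hv hu0 hv0 d e w X
  rw [hcop] at h1
  simpa using h1

open Classical in
/-- **the second moment** in a window -/
theorem moment_win (z k X : ℕ) (w : ℤ) (hz : 2 ≤ z) (U : Finset (ℤ × G)) (hne : U.Nonempty) (A C : ℝ)
    (hA : 1 ≤ A) (hC : 1 ≤ C)
    (hU : ∀ p ∈ U, 0 < p.1 ∧ p.1 ^ 2 < z ∧ IsCoprime p.2.re p.2.im ∧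
      (∀ q : ℕ, q.Prime → (q : ℤ) ∣ N p.2 → z ≤ q) ∧ A ≤ (N p.2 : ℝ) ∧ (N p.2 : ℝ) ≤ C * A)
    (hk : C * A < (z : ℝ) ^ (k + 1)) :
    ((((range X).filter fun n : ℕ => ∀ p ∈ U, ¬ Hit p.2 (n + w) p.1).card : ℕ) : ℝ) ≤
      24 * 2 ^ k * C ^ 3 * (A * X + A ^ 3) / U.card + 3 * (C * A) ^ 2 := by
  have hN0 : ∀ p ∈ U, (0 : ℤ) < N p.2 := by
    intro p hp
    have h1 := (hU p hp).2.2.2.2.1
    have : (0 : ℝ) < N p.2 := by linarith
    exact_mod_cast this
  have hNr : ∀ p ∈ U, (0 : ℝ) < N p.2 := by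
    intro p hp
    have := hN0 p hp
    exact_mod_cast this
  set f : ℕ → ℤ × G → ℝ := fun n p => if Hit p.2 (n + w) p.1 then 1 else 0 with hf
  set mu : ℝ := ∑ p ∈ U, 1 / (N p.2 : ℝ) with hmu
  set M : ℝ := (U.card : ℝ) with hM
  set S : ℕ → ℝ := fun n => ∑ p ∈ U, f n p with hS
  have hM1 : 1 ≤ M := by
    have := hne.card_pos
    rw [hM]; exact_mod_cast this
  have hCA : 1 ≤ C * A := by nlinarith
  have hCA0 : 0 < C * A := by linarith
  have hX0 : (0 : ℝ) ≤ X := Nat.cast_nonneg X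
  set E : ℝ := 2 ^ k * (24 * (C * A / A ^ 2 * X + C * A)) with hE
  have hE0 : 0 ≤ E := by positivity
  have hmu1 : M / (C * A) ≤ mu := by
    rw [hmu, hM]
    have : ∑ _p ∈ U, 1 / (C * A) ≤ ∑ p ∈ U, 1 / (N p.2 : ℝ) := by
      apply sum_le_sum
      intro p hp
      exact one_div_le_one_div_of_le (hNr p hp) (hU p hp).2.2.2.2.2
    rw [sum_const, nsmul_eq_mul, mul_one_div] at this
    exact this
  have hmu0 : 0 < mu := lt_of_lt_of_le (by positivity) hmu1
  -- first moment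
  have hcnt : ∀ p ∈ U, ∑ n ∈ range X, f n p = ((((range X).filter fun n : ℕ => Hit p.2 (n + w) p.1).card : ℕ) : ℝ) := by
    intro p _
    rw [hf]
    simp only
    rw [sum_ite, sum_const_zero, add_zero, sum_const, nsmul_eq_mul, mul_one]
  have h1 : ∑ n ∈ range X, S n = ∑ p ∈ U, ((((range X).filter fun n : ℕ => Hit p.2 (n + w) p.1).card : ℕ) : ℝ) := by
    rw [hS]
    simp only
    rw [sum_comm]
    exact sum_congr rfl hcnt
  have h1b : |∑ n ∈ range X, S n - X * mu| ≤ M := by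
    rw [h1, hmu, mul_sum, ← sum_sub_distrib]
    refine (abs_sum_le_sum_abs _ _).trans ?_
    have : ∑ p ∈ U, |((((range X).filter fun n : ℕ => Hit p.2 (n + w) p.1).card : ℕ) : ℝ) - X * (1 / (N p.2 : ℝ))| ≤ ∑ _p ∈ U, (1 : ℝ) := by
      apply sum_le_sum
      intro p hp
      have := one_win (hU p hp).2.2.1 (hN0 p hp) p.1 w X
      rw [mul_one_div]
      exact this
    rw [sum_const, nsmul_eq_mul, mul_one] at this
    exact this
  obtain ⟨h1c, h1d⟩ := abs_le.1 h1b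
  -- second moment
  have hP : ∀ p q : ℤ × G, ∑ n ∈ range X, f n p * f n q =
      ((((range X).filter fun n : ℕ => Hit p.2 (n + w) p.1 ∧ Hit q.2 (n + w) q.1).card : ℕ) : ℝ) := by
    intro p q
    rw [card_filter]
    push_cast
    apply sum_congr rfl
    intro n _
    rw [hf]
    simp only
    by_cases a : Hit p.2 (n + w) p.1 <;> by_cases b : Hit q.2 (n + w) q.1 <;> simp [a, b]
  have hone : ∀ p ∈ U, ∑ q ∈ U, ∑ n ∈ range X, f n p * f n q ≤
      E + ∑ q ∈ U, (X / ((N p.2 : ℝ) * N q.2) + 1) := by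
    intro p hp
    rw [← sum_filter_add_sum_filter_not U (fun q => q.1 = p.1)]
    have i1 : ∑ q ∈ U.filter (fun q => q.1 = p.1), ∑ n ∈ range X, f n p * f n q ≤ E := by
      have hinj : Set.InjOn Prod.snd ((U.filter (fun q => q.1 = p.1) : Finset (ℤ × G)) : Set (ℤ × G)) := by
        intro a ha b hb hab
        have ha' := (mem_filter.1 (mem_coe.1 ha)).2
        have hb' := (mem_filter.1 (mem_coe.1 hb)).2
        exact Prod.ext (ha'.trans hb'.symm) hab
      have e1 : ∑ q ∈ U.filter (fun q => q.1 = p.1), ∑ n ∈ range X, f n p * f n q =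
          ∑ v ∈ (U.filter (fun q => q.1 = p.1)).image Prod.snd,
            ((((range X).filter fun n : ℕ => Hit p.2 (n + w) p.1 ∧ Hit v (n + w) p.1).card : ℕ) : ℝ) := by
        rw [sum_image hinj]
        apply sum_congr rfl
        intro q hq
        rw [hP, (mem_filter.1 hq).2]
      rw [e1]
      obtain ⟨a1, a2, a3, a4, a5, a6⟩ := hU p hp
      refine same_sum z k hz a3 (hN0 p hp) a1 a2 a4 hA hCA a5 a6 ?_ _ ?_ w X
      · have b1 : (((N p.2).toNat : ℕ) : ℤ) = N p.2 := Int.toNat_of_nonneg (hN0 p hp).le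
        have b2 : (((N p.2).toNat : ℕ) : ℝ) = (N p.2 : ℝ) := by exact_mod_cast congrArg (Int.cast : ℤ → ℝ) b1
        have b3 : (((N p.2).toNat : ℕ) : ℝ) < (z : ℝ) ^ (k + 1) := by rw [b2]; linarith
        exact_mod_cast b3
      · intro v hv
        obtain ⟨q, hq, rfl⟩ := mem_image.1 hv
        obtain ⟨b1, b2, b3, b4, b5, b6⟩ := hU q (mem_filter.1 hq).1
        exact ⟨b3, b5, b6⟩
    have i2 : ∑ q ∈ U.filter (fun q => ¬ q.1 = p.1), ∑ n ∈ range X, f n p * f n q ≤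
        ∑ q ∈ U, (X / ((N p.2 : ℝ) * N q.2) + 1) := by
      have e1 : ∑ q ∈ U.filter (fun q => ¬ q.1 = p.1), ∑ n ∈ range X, f n p * f n q ≤
          ∑ q ∈ U.filter (fun q => ¬ q.1 = p.1), (X / ((N p.2 : ℝ) * N q.2) + 1) := by
        apply sum_le_sum
        intro q hq
        obtain ⟨hqU, hqp⟩ := mem_filter.1 hq
        rw [hP]
        exact pair_win z (hU p hp).2.2.1 (hU q hqU).2.2.1 (hN0 p hp) (hN0 q hqU) (hU p hp).1 (hU q hqU).1
          (hU p hp).2.1 (hU q hqU).2.1 (fun h => hqp h.symm) (hU p hp).2.2.2.1 w X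
      refine e1.trans (sum_le_sum_of_subset_of_nonneg (filter_subset _ _) ?_)
      intro q hq _
      have a1 := hNr p hp
      have a2 := hNr q hq
      positivity
    linarith
  have h2 : ∑ n ∈ range X, S n ^ 2 ≤ M * E + (X * mu ^ 2 + M ^ 2) := by
    have hsq : ∀ n ∈ range X, S n ^ 2 = ∑ p ∈ U, ∑ q ∈ U, f n p * f n q := by
      intro n _
      rw [hS]
      simp only
      rw [sq, sum_mul_sum]
    rw [sum_congr rfl hsq, sum_comm]
    have e1 : ∀ p ∈ U, ∑ n ∈ range X, ∑ q ∈ U, f n p * f n q ≤ E + ∑ q ∈ U, (X / ((N p.2 : ℝ) * N q.2) + 1) := by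
      intro p hp
      rw [sum_comm]
      exact hone p hp
    refine (sum_le_sum e1).trans (le_of_eq ?_)
    simp only [sum_add_distrib, sum_const, nsmul_eq_mul, mul_one]
    rw [hM, sq (U.card : ℝ)]
    congr 2
    rw [hmu, sq, sum_mul_sum, mul_sum]
    apply sum_congr rfl
    intro p _
    rw [mul_sum]
    apply sum_congr rfl
    intro q _
    rw [div_eq_mul_one_div, one_div_mul_one_div]
  -- variance
  have h3 : ∑ n ∈ range X, (S n - mu) ^ 2 ≤ M * E + M ^ 2 + 2 * mu * M := by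
    have e : ∑ n ∈ range X, (S n - mu) ^ 2 = ∑ n ∈ range X, S n ^ 2 - 2 * mu * ∑ n ∈ range X, S n + X * mu ^ 2 := by
      have : ∀ n ∈ range X, (S n - mu) ^ 2 = S n ^ 2 - 2 * mu * S n + mu ^ 2 := by
        intro n _; ring
      rw [sum_congr rfl this, sum_add_distrib, sum_sub_distrib, ← mul_sum, sum_const, card_range, nsmul_eq_mul]
    rw [e]
    nlinarith [mul_le_mul_of_nonneg_left h1c (by positivity : (0 : ℝ) ≤ 2 * mu)]
  have h4 : ((((range X).filter fun n : ℕ => ∀ p ∈ U, ¬ Hit p.2 (n + w) p.1).card : ℕ) : ℝ) * mu ^ 2 ≤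
      ∑ n ∈ range X, (S n - mu) ^ 2 := by
    have : ∑ n ∈ (range X).filter (fun n : ℕ => ∀ p ∈ U, ¬ Hit p.2 (n + w) p.1), (S n - mu) ^ 2 =
      ((((range X).filter fun n : ℕ => ∀ p ∈ U, ¬ Hit p.2 (n + w) p.1).card : ℕ) : ℝ) * mu ^ 2 := by
      rw [← nsmul_eq_mul, ← sum_const]
      apply sum_congr rfl
      intro n hn
      have hn' := (mem_filter.1 hn).2
      have : S n = 0 := by
        rw [hS]
        simp only
        apply sum_eq_zero
        intro p hp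
        rw [hf]
        simp [hn' p hp]
      rw [this]; ring
    rw [← this]
    apply sum_le_sum_of_subset_of_nonneg (filter_subset _ _)
    intro n _ _
    positivity
  have h5 := h4.trans h3
  -- divide
  have hM0 : 0 < M := by linarith
  have q1 : 1 / mu ≤ C * A / M := by
    rw [div_le_div_iff₀ hmu0 hM0]
    have := (div_le_iff₀ hCA0).1 hmu1
    linarith
  have q0 : 0 ≤ 1 / mu := by positivity
  set c : ℝ := ((((range X).filter fun n : ℕ => ∀ p ∈ U, ¬ Hit p.2 (n + w) p.1).card : ℕ) : ℝ) with hc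
  have h6 : c ≤ (M * E + M ^ 2) * (1 / mu) ^ 2 + 2 * M * (1 / mu) := by
    have e : (M * E + M ^ 2) * (1 / mu) ^ 2 + 2 * M * (1 / mu) =
        (M * E + M ^ 2 + 2 * mu * M) / mu ^ 2 := by
      field_simp
    rw [e, le_div_iff₀ (by positivity)]
    exact h5
  have q2 : (1 / mu) ^ 2 ≤ (C * A / M) ^ 2 := pow_le_pow_left₀ q0 q1 2
  have h7 : c ≤ (M * E + M ^ 2) * (C * A / M) ^ 2 + 2 * M * (C * A / M) := by
    refine h6.trans ?_
    have i2 : (M * E + M ^ 2) * (1 / mu) ^ 2 ≤ (M * E + M ^ 2) * (C * A / M) ^ 2 :=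
      mul_le_mul_of_nonneg_left q2 (by positivity)
    have i3 : 2 * M * (1 / mu) ≤ 2 * M * (C * A / M) := mul_le_mul_of_nonneg_left q1 (by positivity)
    linarith
  refine h7.trans ?_
  have j2 : (M * E + M ^ 2) * (C * A / M) ^ 2 = E * (C * A) ^ 2 / M + (C * A) ^ 2 := by
    field_simp
  have j3 : 2 * M * (C * A / M) = 2 * (C * A) := by
    field_simp
  have j4 : E * (C * A) ^ 2 = 24 * 2 ^ k * C ^ 3 * (A * X + A ^ 3) := by
    rw [hE]; field_simp
  rw [j2, j3, j4]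
  have j5 : (C * A) ≤ (C * A) ^ 2 := by nlinarith
  linarith

end Pool.Agent.Flea
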