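import Pool.Agent.Flea.Gr
import Pool.Agent.Flea.Vec
import Pool.Agent.Flea.Win

/-! # MP_fb7c71_nt: choice of the parameters -/

set_option autoImplicit false

namespace Pool.Agent.Flea

open Finset

-- MODULE f1
private theorem f1_coprime {v a b : G} {Z : ℕ} (hv : ∀ q : ℕ, q.Prime → (q : ℤ) ∣ N v → Z ≤ q)
    (h0 : 0 < D a b) (h1 : D a b < (Z : ℤ)) : IsCoprime (N v) (D a b) := by
  rw [Int.isCoprime_iff_gcd_eq_one]
  by_contra hne
  obtain ⟨p, hp, hpd⟩ := Nat.exists_prime_and_dvd hne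
  have h2 : (p : ℤ) ∣ (Int.gcd (N v) (D a b) : ℤ) := Int.natCast_dvd_natCast.2 hpd
  have h3 : (p : ℤ) ∣ N v := h2.trans (Int.gcd_dvd_left ..)
  have h4 : (p : ℤ) ∣ D a b := h2.trans (Int.gcd_dvd_right ..)
  have h5 := Int.le_of_dvd h0 h4
  have h6 := hv p hp h3
  have h7 : (Z : ℤ) ≤ p := by exact_mod_cast h6
  linarith

/-- the family `U` -/
theorem family : ∃ (κ C c B : ℝ) (u r0 : ℕ), 0 < κ ∧ 1 ≤ C ∧ 0 < c ∧ 0 ≤ B ∧ 1 ≤ u ∧
    ∀ (RR : G → G → Prop), Clo RR → ∀ a b : G, Node RR a b → ∀ r ≥ r0, ∀ T : ℝ, (D a b : ℝ) ≤ T → 1 ≤ T →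
      T ^ 2 < 2 ^ 2 ^ r → ∀ Y : ℕ, 2 ^ (2 ^ r * u) ≤ Y →
      ∃ U : Finset (ℤ × G),
        (∀ p ∈ U, 0 < p.1 ∧ p.1 ^ 2 < ((2 ^ 2 ^ r : ℕ) : ℤ) ∧ IsCoprime p.2.re p.2.im ∧
          (∀ q : ℕ, q.Prime → (q : ℤ) ∣ N p.2 → 2 ^ 2 ^ r ≤ q) ∧
          (8 / 9 * Y ^ 2 * T / C ≤ (N p.2 : ℝ)) ∧ ((N p.2 : ℝ) ≤ 16 * Y ^ 2 * T) ∧
          ∀ n : ℤ, Hit p.2 n p.1 → ∃ v w, RR v w ∧ R v w = n) ∧
        c * (T / (D a b : ℝ)) ^ (1 + κ) * Real.exp (-(B * r)) * Y ^ 2 / Real.log Y ≤ (U.card : ℝ) := by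
  classical
  obtain ⟨κ, C0, hκ, hC0, hgr⟩ := growth
  obtain ⟨u, r0, c0, C1, hu, hc0, hC1, hvec⟩ := vec_count
  have hC00 : 0 < C0 := lt_of_lt_of_le one_pos hC0
  refine ⟨κ, C0, c0 / C0 ^ (1 + κ), C1, u, r0, hκ, hC0, div_pos hc0 (Real.rpow_pos_of_pos hC00 _), hC1, hu, ?_⟩
  intro RR hRR a b hab r hr T hT hT1 hT2 Y hY
  obtain ⟨S, hS, hScard⟩ := hgr RR hRR a b hab T hT
  -- the sizes of the circles
  have hsize : ∀ q ∈ S, 0 < D q.1 q.2 ∧ (D q.1 q.2) ^ 2 < ((2 ^ 2 ^ r : ℕ) : ℤ) ∧ D q.1 q.2 < ((2 ^ 2 ^ r : ℕ) : ℤ) := by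
    intro q hq
    have h1 := (hS q hq).1.pos
    have h2 := (hS q hq).2.2
    have h3 : ((D q.1 q.2) ^ 2 : ℝ) < ((2 ^ 2 ^ r : ℕ) : ℝ) := by
      have h4 : (0 : ℝ) ≤ (D q.1 q.2 : ℝ) := by exact_mod_cast h1.le
      have h5 : ((D q.1 q.2 : ℝ)) ^ 2 ≤ T ^ 2 := pow_le_pow_left₀ h4 h2 2
      refine lt_of_le_of_lt h5 ?_
      push_cast
      exact hT2
    have h6 : (D q.1 q.2) ^ 2 < ((2 ^ 2 ^ r : ℕ) : ℤ) := by exact_mod_cast h3
    exact ⟨h1, h6, by nlinarith⟩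
  have hV : ∀ q : G × G, ∃ V : Finset G, q ∈ S →
      (∀ v ∈ V, (∃ x y : ℤ, IsCoprime x y ∧ v = x * q.1 + y * q.2) ∧ IsCoprime v.re v.im ∧
        (∀ p : ℕ, p.Prime → (p : ℤ) ∣ N v → 2 ^ 2 ^ r ≤ p) ∧
        8 * (Y : ℤ) ^ 2 * D q.1 q.2 ≤ 9 * N v ∧ N v ≤ 16 * (Y : ℤ) ^ 2 * D q.1 q.2) ∧
      c0 * Real.exp (-(C1 * r)) * Y ^ 2 / Real.log Y ≤ (V.card : ℝ) := by
    intro q
    by_cases hq : q ∈ S
    · obtain ⟨V, h1, h2⟩ := hvec r hr RR q.1 q.2 (hS q hq).1 (by exact_mod_cast (hsize q hq).2.2) Y hY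
      exact ⟨V, fun _ => ⟨h1, h2⟩⟩
    · exact ⟨∅, fun h => absurd h hq⟩
  choose V hV using hV
  refine ⟨S.biUnion fun q => (V q).image fun v => (D q.1 q.2, v), ?_, ?_⟩
  · intro p hp
    rw [Finset.mem_biUnion] at hp
    obtain ⟨q, hq, hp⟩ := hp
    rw [Finset.mem_image] at hp
    obtain ⟨v, hv, rfl⟩ := hp
    obtain ⟨⟨x, y, hxy, hvxy⟩, h2, h3, h4, h5⟩ := (hV q hq).1 v hv
    obtain ⟨k1, k2, k3⟩ := hsize q hq
    refine ⟨k1, k2, h2, h3, ?_, ?_, ?_⟩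
    · have h6 := (hS q hq).2.1
      have h7 : (8 : ℝ) * (Y : ℝ) ^ 2 * (D q.1 q.2 : ℝ) ≤ 9 * (N v : ℝ) := by exact_mod_cast h4
      have h8 : T / C0 ≤ (D q.1 q.2 : ℝ) := by
        rw [div_le_iff₀ hC00]
        linarith
      have h9 : 8 / 9 * (Y : ℝ) ^ 2 * T / C0 = 8 / 9 * (Y : ℝ) ^ 2 * (T / C0) := by ring
      rw [h9]
      have h10 : 8 / 9 * (Y : ℝ) ^ 2 * (T / C0) ≤ 8 / 9 * (Y : ℝ) ^ 2 * (D q.1 q.2 : ℝ) :=
        mul_le_mul_of_nonneg_left h8 (by positivity)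
      show 8 / 9 * (Y : ℝ) ^ 2 * (T / C0) ≤ (N v : ℝ)
      linarith
    · have h6 := (hS q hq).2.2
      have h7 : (N v : ℝ) ≤ 16 * (Y : ℝ) ^ 2 * (D q.1 q.2 : ℝ) := by exact_mod_cast h5
      show (N v : ℝ) ≤ 16 * (Y : ℝ) ^ 2 * T
      exact h7.trans (mul_le_mul_of_nonneg_left h6 (by positivity))
    · intro n hn
      obtain ⟨w, hw1, hw2⟩ := cover hRR (hS q hq).1.rr hxy hvxy h2 hn
      exact ⟨v, w, hw1, hw2⟩
  · have hdisj : ∀ q ∈ S, ∀ q' ∈ S, q ≠ q' →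
        Disjoint ((V q).image fun v => (D q.1 q.2, v)) ((V q').image fun v => (D q'.1 q'.2, v)) := by
      intro q hq q' hq' hne
      rw [Finset.disjoint_left]
      intro p hp hp'
      rw [Finset.mem_image] at hp hp'
      obtain ⟨v, hv, rfl⟩ := hp
      obtain ⟨v', hv', he⟩ := hp'
      have he1 : D q'.1 q'.2 = D q.1 q.2 := congrArg Prod.fst he
      have he2 : v' = v := congrArg Prod.snd he
      subst he2
      obtain ⟨⟨x, y, hxy, hvxy⟩, h2, h3, h4, h5⟩ := (hV q hq).1 v' hv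
      obtain ⟨⟨x', y', hxy', hvxy'⟩, -⟩ := (hV q' hq').1 v' hv'
      have h6 := node_unique (hS q hq).1 (hS q' hq').1 he1 ⟨x, y, hvxy⟩ ⟨x', y', hvxy'⟩
        (f1_coprime h3 (hsize q hq).1 (hsize q hq).2.2)
      exact hne (Prod.ext h6.1 h6.2)
    rw [Finset.card_biUnion hdisj]
    have hcard : ∀ q ∈ S, ((V q).image fun v => (D q.1 q.2, v)).card = (V q).card := by
      intro q _
      exact Finset.card_image_of_injective _ fun v v' h => congrArg Prod.snd h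
    rw [Finset.sum_congr rfl hcard]
    push_cast
    obtain ⟨K, hK⟩ : ∃ K : ℝ, K = Real.exp (-(C1 * r)) * Y ^ 2 / Real.log Y := ⟨_, rfl⟩
    have hK0 : 0 ≤ K := by
      rw [hK]
      exact div_nonneg (by positivity) (Real.log_natCast_nonneg Y)
    have h1 : (S.card : ℝ) * (c0 * K) ≤ ∑ q ∈ S, ((V q).card : ℝ) := by
      have h2 := Finset.card_nsmul_le_sum S (fun q => ((V q).card : ℝ)) (c0 * K) (fun q hq => by
        refine le_trans (le_of_eq ?_) (hV q hq).2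
        rw [hK]; ring)
      rwa [nsmul_eq_mul] at h2
    refine le_trans ?_ h1
    have hD0 : (0 : ℝ) < (D a b : ℝ) := by exact_mod_cast hab.pos
    have h3 : (T / (C0 * (D a b : ℝ))) ^ (1 + κ) = (T / (D a b : ℝ)) ^ (1 + κ) / C0 ^ (1 + κ) := by
      rw [← Real.div_rpow (by positivity) hC00.le]
      congr 1
      rw [div_div, mul_comm]
    rw [h3] at hScard
    calc c0 / C0 ^ (1 + κ) * (T / (D a b : ℝ)) ^ (1 + κ) * Real.exp (-(C1 * r)) * Y ^ 2 / Real.log Y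
        = (T / (D a b : ℝ)) ^ (1 + κ) / C0 ^ (1 + κ) * (c0 * K) := by
          rw [hK]; ring
      _ ≤ (S.card : ℝ) * (c0 * K) := mul_le_mul_of_nonneg_right hScard (mul_nonneg hc0.le hK0)

-- MODULE f2
/-- an elementary comparison -/
theorem cmp_exp (κ B : ℝ) (hκ : 0 < κ) (hB : 0 ≤ B) : ∃ c : ℝ, 0 < c ∧ ∀ r : ℕ,
    Real.exp (B * r) * 2 ^ r ≤ c * ((2 : ℝ) ^ 2 ^ r) ^ (κ / 4) := by
  have hl2 : 0 < Real.log 2 := Real.log_pos (by norm_num)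
  set a : ℝ := Real.log 2 * (κ / 4) with ha
  have ha0 : 0 < a := by positivity
  set b : ℝ := B + Real.log 2 with hb
  refine ⟨Real.exp (b ^ 2 / (2 * a)), Real.exp_pos _, fun r => ?_⟩
  have hsq : (r : ℝ) ^ 2 / 2 ≤ (2 : ℝ) ^ r := by
    have hnat : ∀ r : ℕ, r ^ 2 + r + 2 ≤ 2 * 2 ^ r := by
      intro r
      induction r with
      | zero => norm_num
      | succ n ih =>
        have h1 : (n : ℕ) + 1 ≤ 2 ^ n := Nat.lt_two_pow_self
        rw [pow_succ 2 n]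
        nlinarith
    have h := hnat r
    have h' : ((r : ℝ)) ^ 2 + r + 2 ≤ 2 * 2 ^ r := by exact_mod_cast h
    have hr0 : (0 : ℝ) ≤ r := Nat.cast_nonneg r
    linarith
  have h1 : ((2 : ℝ) ^ 2 ^ r) ^ (κ / 4) = Real.exp (a * 2 ^ r) := by
    rw [Real.rpow_def_of_pos (by positivity), Real.log_pow]
    congr 1
    push_cast
    rw [ha]; ring
  have h2 : Real.exp (B * r) * 2 ^ r = Real.exp (b * r) := by
    have : ((2 : ℝ)) ^ r = Real.exp (Real.log 2 * r) := by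
      rw [mul_comm, Real.exp_nat_mul, Real.exp_log (by norm_num)]
    rw [this, ← Real.exp_add, hb]; ring_nf
  rw [h1, h2, ← Real.exp_add]
  apply Real.exp_le_exp.mpr
  have h3 : b * r ≤ b ^ 2 / (2 * a) + a * ((r : ℝ) ^ 2 / 2) := by
    have h4 : 0 ≤ (b - a * r) ^ 2 / (2 * a) := by positivity
    have h5 : (b - a * r) ^ 2 / (2 * a) = b ^ 2 / (2 * a) - b * r + a * ((r : ℝ) ^ 2 / 2) := by
      field_simp; ring
    linarith
  nlinarith [mul_le_mul_of_nonneg_left hsq ha0.le]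

-- MODULE f3
private theorem f3_big {C A M X : ℝ} (k : ℕ) (hC : 1 ≤ C) (hA : 1 ≤ A) (hM : 1 ≤ M) :
    24 * 2 ^ k * (18 * C) ^ 3 * (A * X + A ^ 3) / M + 3 * (18 * C * A) ^ 2 ≤
      1944 * C ^ 2 * (4 * 2 ^ k * (18 * C * A) * X / M) + (24 * 2 ^ k + 3) * (18 * C * A) ^ 3 := by
  have hM0 : 0 < M := by linarith
  have b1 : 24 * 2 ^ k * (18 * C) ^ 3 * (A * X + A ^ 3) / M =
      1944 * C ^ 2 * (4 * 2 ^ k * (18 * C * A) * X / M) + 24 * 2 ^ k * (18 * C * A) ^ 3 / M := by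
    ring
  have b4 : 1 ≤ 18 * C * A := by nlinarith
  have b2 : 24 * 2 ^ k * (18 * C * A) ^ 3 / M ≤ 24 * 2 ^ k * (18 * C * A) ^ 3 :=
    div_le_self (by positivity) hM
  have b3 : (18 * C * A) ^ 2 ≤ (18 * C * A) ^ 3 := pow_le_pow_right₀ b4 (by norm_num)
  rw [b1]
  linarith

private theorem f3_size {Z s : ℝ} (u k : ℕ) (hs : 2 ≤ s) (hs2 : s ^ 2 = Z) (hk : 2 * u + 3 < k + 1) :
    8 * (Z ^ u) ^ 2 * s < Z ^ (k + 1) := by
  have a1 : s ≤ Z := by rw [← hs2]; nlinarith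
  have a2 : 4 ≤ Z := by rw [← hs2]; nlinarith
  have a3 : 8 * (Z ^ u) ^ 2 * s ≤ Z ^ (2 * u + 3) := by
    have e : Z ^ (2 * u + 3) = (Z * Z) * (Z ^ u) ^ 2 * Z := by ring
    rw [e]
    apply mul_le_mul _ a1 (by linarith) (by positivity)
    apply mul_le_mul_of_nonneg_right _ (by positivity)
    nlinarith
  exact lt_of_le_of_lt a3 (pow_lt_pow_right₀ (by linarith) hk)

private theorem f3_pow {Z s X : ℝ} {u K : ℕ} (hK : K = 8 * u + 4) (hs : 2 ≤ s) (hs2 : s ^ 2 = Z) (hX : Z ^ K ≤ X) :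
    (8 * (Z ^ u) ^ 2 * s) ^ 3 ≤ 512 * X ^ (3 / 4 : ℝ) := by
  have hZ : 1 ≤ Z := by rw [← hs2]; nlinarith
  have hZ0 : 0 < Z := by linarith
  have a1 : s ^ 3 ≤ Z ^ 2 := by
    rw [← hs2]
    calc s ^ 3 ≤ s ^ 4 := pow_le_pow_right₀ (by linarith) (by norm_num)
      _ = (s ^ 2) ^ 2 := by ring
  have h1 : (8 * (Z ^ u) ^ 2 * s) ^ 3 ≤ 512 * Z ^ (6 * u + 2) := by
    calc (8 * (Z ^ u) ^ 2 * s) ^ 3 = 512 * (Z ^ u) ^ 6 * s ^ 3 := by ring
      _ ≤ 512 * (Z ^ u) ^ 6 * Z ^ 2 := mul_le_mul_of_nonneg_left a1 (by positivity)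
      _ = 512 * Z ^ (6 * u + 2) := by ring
  have h2 : Z ^ (6 * u + 2) ≤ X ^ (3 / 4 : ℝ) := by
    calc Z ^ (6 * u + 2) ≤ Z ^ (6 * u + 3) := pow_le_pow_right₀ hZ (by omega)
      _ = (Z ^ K) ^ (3 / 4 : ℝ) := by
          rw [hK, ← Real.rpow_natCast Z (8 * u + 4), ← Real.rpow_mul hZ0.le, ← Real.rpow_natCast Z (6 * u + 3)]
          congr 1
          push_cast
          ring
      _ ≤ X ^ (3 / 4 : ℝ) := Real.rpow_le_rpow (by positivity) hX (by norm_num)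
  exact h1.trans (mul_le_mul_of_nonneg_left h2 (by norm_num))

open Classical in
/-- one value of `r` -/
private theorem f3_one {κ C c B c2 : ℝ} {u r k K X : ℕ} (hκ : 0 < κ) (hC : 1 ≤ C) (hc : 0 < c) (hu : 1 ≤ u)
    (hc2 : 0 < c2) (hK : K = 8 * u + 4) (hk : k = 4 * K) (hr1 : 1 ≤ r)
    (hcmp : Real.exp (B * r) * 2 ^ r ≤ c2 * ((2 : ℝ) ^ 2 ^ r) ^ (κ / 4))
    {RR : G → G → Prop} {d : ℝ} (hd : 0 < d) (T : ℝ) (hT : T = 2 ^ 2 ^ (r - 1) / 2) (hT1 : 1 ≤ T)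
    (Y : ℕ) (hY : Y = 2 ^ (2 ^ r * u)) (hA1 : 1 ≤ 8 / 9 * (Y : ℝ) ^ 2 * T / C) (U : Finset (ℤ × G))
    (hU : ∀ p ∈ U, 0 < p.1 ∧ p.1 ^ 2 < ((2 ^ 2 ^ r : ℕ) : ℤ) ∧ IsCoprime p.2.re p.2.im ∧
          (∀ q : ℕ, q.Prime → (q : ℤ) ∣ N p.2 → 2 ^ 2 ^ r ≤ q) ∧
          (8 / 9 * Y ^ 2 * T / C ≤ (N p.2 : ℝ)) ∧ ((N p.2 : ℝ) ≤ 16 * Y ^ 2 * T) ∧
          ∀ n : ℤ, Hit p.2 n p.1 → ∃ v w, RR v w ∧ R v w = n)
    (hcard : c * (T / d) ^ (1 + κ) * Real.exp (-(B * r)) * Y ^ 2 / Real.log Y ≤ (U.card : ℝ))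
    (hX1 : 2 ^ (2 ^ r * K) ≤ X) (hX2 : X < 2 ^ (2 ^ (r + 1) * K)) (η : ℝ) (hη : η ≤ κ / (8 * K)) (hη2 : η ≤ 1 / 4)
    (m : ℤ) :
    ((((range X).filter fun n : ℕ => ¬ ∃ v w, RR v w ∧ R v w = (n : ℤ) + m).card : ℕ) : ℝ) ≤
      (1944 * C ^ 2 * (64 * 2 ^ k * d * u * c2 * (2 * d) ^ κ / c) + (24 * 2 ^ k + 3) * 512) * (X : ℝ) ^ (1 - η) := by
  have hX0 : 0 < X := lt_of_lt_of_le (by positivity) hX1
  have hXR : (1 : ℝ) ≤ X := by exact_mod_cast hX0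
  have hKpos : 0 < K := by omega
  have hKR : (0 : ℝ) < K := by exact_mod_cast hKpos
  set z : ℕ := 2 ^ 2 ^ r with hz
  have hz2 : 2 ≤ z := by
    rw [hz]
    calc 2 = 2 ^ 1 := by norm_num
      _ ≤ 2 ^ 2 ^ r := Nat.pow_le_pow_right (by norm_num) Nat.one_le_two_pow
  have hzR : ((z : ℕ) : ℝ) = (2 : ℝ) ^ 2 ^ r := by rw [hz]; push_cast; rfl
  have hzpos : (0 : ℝ) < (2 : ℝ) ^ 2 ^ r := by positivity
  have hz1R : (1 : ℝ) ≤ (2 : ℝ) ^ 2 ^ r := one_le_pow₀ (by norm_num)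
  -- s
  set s : ℝ := 2 ^ 2 ^ (r - 1) with hs
  have hspos : 0 < s := by positivity
  have hs2 : s ^ 2 = (2 : ℝ) ^ 2 ^ r := by
    rw [hs, ← pow_mul, ← pow_succ, Nat.sub_add_cancel hr1]
  have hY2 : 2 ≤ Y := by
    rw [hY]
    calc 2 = 2 ^ 1 := by norm_num
      _ ≤ 2 ^ (2 ^ r * u) := Nat.pow_le_pow_right (by norm_num) (Nat.mul_pos (by positivity) hu)
  have hYR : (2 : ℝ) ≤ Y := by exact_mod_cast hY2
  have hlogY : 0 < Real.log Y := Real.log_pos (by linarith)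
  have hTpos : 0 < T := by linarith
  have hMpos : (0 : ℝ) < U.card := by
    refine lt_of_lt_of_le ?_ hcard
    positivity
  have hne : U.Nonempty := by
    rw [← card_pos]
    exact_mod_cast hMpos
  have hXz : X < z ^ (2 * K) := by
    rw [hz, ← pow_mul]
    calc X < 2 ^ (2 ^ (r + 1) * K) := hX2
      _ = 2 ^ (2 ^ r * (2 * K)) := by rw [pow_succ]; ring_nf
  -- A
  have hCpos : 0 < C := by linarith
  set A : ℝ := 8 / 9 * Y ^ 2 * T / C with hA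
  have hCA : 18 * C * A = 16 * Y ^ 2 * T := by
    rw [hA]; field_simp; ring
  have hsize : 16 * (Y : ℝ) ^ 2 * T = 8 * (((2 : ℝ) ^ 2 ^ r) ^ u) ^ 2 * s := by
    rw [hT, hY]
    push_cast
    have : ((2 : ℝ) ^ (2 ^ r * u)) = ((2 : ℝ) ^ 2 ^ r) ^ u := by rw [← pow_mul]
    rw [this]
    ring
  have hs2' : 2 ≤ s := by
    rw [hs]
    calc (2 : ℝ) = 2 ^ 1 := by norm_num
      _ ≤ 2 ^ 2 ^ (r - 1) := pow_le_pow_right₀ (by norm_num) Nat.one_le_two_pow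
  have hkk : 18 * C * A < (z : ℝ) ^ (k + 1) := by
    rw [hCA, hsize, hzR]
    exact f3_size u k hs2' hs2 (by omega)
  have hmom := moment_win z k X m hz2 U hne A (18 * C) hA1 (by linarith) (by
    intro p hp
    obtain ⟨h1, h2, h3, h4, h5, h6, -⟩ := hU p hp
    exact ⟨h1, h2, h3, h4, h5, by rw [hCA]; exact h6⟩) hkk
  have hsub : ((((range X).filter fun n : ℕ => ¬ ∃ v w, RR v w ∧ R v w = (n : ℤ) + m).card : ℕ) : ℝ) ≤
      ((((range X).filter fun n : ℕ => ∀ p ∈ U, ¬ Hit p.2 (n + m) p.1).card : ℕ) : ℝ) := by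
    have : ((range X).filter fun n : ℕ => ¬ ∃ v w, RR v w ∧ R v w = (n : ℤ) + m) ⊆
        ((range X).filter fun n : ℕ => ∀ p ∈ U, ¬ Hit p.2 (n + m) p.1) := by
      intro n hn
      rw [mem_filter] at hn ⊢
      exact ⟨hn.1, fun p hp hh => hn.2 ((hU p hp).2.2.2.2.2.2 (n + m) hh)⟩
    exact_mod_cast card_le_card this
  refine hsub.trans (hmom.trans ?_)
  have hM1 : (1 : ℝ) ≤ U.card := by exact_mod_cast hne.card_pos
  refine (f3_big (X := (X : ℝ)) k hC hA1 hM1).trans ?_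
  rw [hCA]
  -- powers of X
  have hXle : (X : ℝ) ≤ ((2 : ℝ) ^ 2 ^ r) ^ (2 * K) := by
    have := hXz.le
    rw [← hzR]
    exact_mod_cast this
  have hXge : ((2 : ℝ) ^ 2 ^ r) ^ K ≤ X := by
    rw [← pow_mul]
    exact_mod_cast hX1
  have e1 : (X : ℝ) ^ (κ / (8 * K)) ≤ ((2 : ℝ) ^ 2 ^ r) ^ (κ / 4) := by
    calc (X : ℝ) ^ (κ / (8 * K)) ≤ (((2 : ℝ) ^ 2 ^ r) ^ (2 * K)) ^ (κ / (8 * K)) :=
          Real.rpow_le_rpow (by positivity) hXle (by positivity)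
      _ = ((2 : ℝ) ^ 2 ^ r) ^ (κ / 4) := by
          rw [← Real.rpow_natCast, ← Real.rpow_mul hzpos.le]
          congr 1
          push_cast
          field_simp
          ring
  have hη1 : (X : ℝ) ^ (1 - κ / (8 * K)) ≤ (X : ℝ) ^ (1 - η) :=
    Real.rpow_le_rpow_of_exponent_le hXR (by linarith)
  have hη3 : (X : ℝ) ^ (3 / 4 : ℝ) ≤ (X : ℝ) ^ (1 - η) :=
    Real.rpow_le_rpow_of_exponent_le hXR (by linarith)
  -- second term
  have t2 : (24 * 2 ^ k + 3) * (16 * (Y : ℝ) ^ 2 * T) ^ 3 ≤ (24 * 2 ^ k + 3) * 512 * (X : ℝ) ^ (1 - η) := by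
    have h1 := f3_pow (X := (X : ℝ)) hK hs2' hs2 hXge
    rw [← hsize] at h1
    rw [mul_assoc (24 * 2 ^ k + 3 : ℝ)]
    refine mul_le_mul_of_nonneg_left ?_ (by positivity)
    exact h1.trans (mul_le_mul_of_nonneg_left hη3 (by norm_num))
  -- first term
  have hTd : 0 < T / d := by positivity
  have hcp : 0 < (T / d) ^ (1 + κ) := Real.rpow_pos_of_pos hTd _
  have t1 : 4 * 2 ^ k * (16 * (Y : ℝ) ^ 2 * T) * X / U.card ≤
      64 * 2 ^ k * d * u * c2 * (2 * d) ^ κ / c * (X : ℝ) ^ (1 - η) := by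
    set L : ℝ := c * (T / d) ^ (1 + κ) * Real.exp (-(B * r)) * Y ^ 2 / Real.log Y with hL
    have hLpos : 0 < L := by rw [hL]; positivity
    have h1 : 4 * 2 ^ k * (16 * (Y : ℝ) ^ 2 * T) * X / U.card ≤ 4 * 2 ^ k * (16 * (Y : ℝ) ^ 2 * T) * X / L :=
      div_le_div_of_nonneg_left (by positivity) hLpos hcard
    refine h1.trans ?_
    have h2 : (T / d) ^ (1 + κ) = T / d * (s / (2 * d)) ^ κ := by
      rw [Real.rpow_add hTd, Real.rpow_one]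
      congr 2
      rw [hT]; field_simp
    have h3 : (s / (2 * d)) ^ κ = ((2 : ℝ) ^ 2 ^ r) ^ (κ / 2) / (2 * d) ^ κ := by
      rw [Real.div_rpow hspos.le (by positivity)]
      congr 1
      rw [← hs2, ← Real.rpow_natCast, ← Real.rpow_mul hspos.le]
      congr 1
      push_cast
      ring
    have h4 : ((2 : ℝ) ^ 2 ^ r) ^ (κ / 2) = ((2 : ℝ) ^ 2 ^ r) ^ (κ / 4) * ((2 : ℝ) ^ 2 ^ r) ^ (κ / 4) := by
      rw [← Real.rpow_add hzpos]; congr 1; ring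
    have h5 : Real.log Y ≤ 2 ^ r * u := by
      rw [hY]
      push_cast
      rw [Real.log_pow]
      push_cast
      have := Real.log_two_lt_d9
      have h6 : (0 : ℝ) ≤ 2 ^ r * u := by positivity
      exact mul_le_of_le_one_right h6 (by linarith)
    set W : ℝ := ((2 : ℝ) ^ 2 ^ r) ^ (κ / 4) with hW
    have hWpos : 0 < W := Real.rpow_pos_of_pos hzpos _
    have h6 : Real.exp (B * r) * Real.log Y ≤ u * (c2 * W) := by
      calc Real.exp (B * r) * Real.log Y ≤ Real.exp (B * r) * (2 ^ r * u) :=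
            mul_le_mul_of_nonneg_left h5 (by positivity)
        _ = u * (Real.exp (B * r) * 2 ^ r) := by ring
        _ ≤ u * (c2 * W) := mul_le_mul_of_nonneg_left hcmp (by positivity)
    have hdk : 0 < (2 * d) ^ κ := Real.rpow_pos_of_pos (by positivity) _
    have h7 : 4 * 2 ^ k * (16 * (Y : ℝ) ^ 2 * T) * X / L =
        64 * 2 ^ k * d * (2 * d) ^ κ / c * X * (Real.exp (B * r) * Real.log Y) / (W * W) := by
      rw [hL, h2, h3, h4, Real.exp_neg]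
      have hY0 : (Y : ℝ) ≠ 0 := by positivity
      have hE : Real.exp (B * r) ≠ 0 := (Real.exp_pos _).ne'
      field_simp
      ring
    have h8 : (X : ℝ) / W ≤ (X : ℝ) ^ (1 - η) := by
      refine le_trans ?_ hη1
      rw [Real.rpow_sub (by linarith), Real.rpow_one]
      exact div_le_div_of_nonneg_left (by positivity) (Real.rpow_pos_of_pos (by linarith) _) e1
    calc 4 * 2 ^ k * (16 * (Y : ℝ) ^ 2 * T) * X / L
        = 64 * 2 ^ k * d * (2 * d) ^ κ / c * X * (Real.exp (B * r) * Real.log Y) / (W * W) := h7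
      _ ≤ 64 * 2 ^ k * d * (2 * d) ^ κ / c * X * (u * (c2 * W)) / (W * W) := by
          refine div_le_div_of_nonneg_right (mul_le_mul_of_nonneg_left h6 ?_) (by positivity)
          positivity
      _ = 64 * 2 ^ k * d * u * c2 * (2 * d) ^ κ / c * (X / W) := by
          field_simp
      _ ≤ 64 * 2 ^ k * d * u * c2 * (2 * d) ^ κ / c * (X : ℝ) ^ (1 - η) := by
          refine mul_le_mul_of_nonneg_left h8 ?_
          positivity
  have t1' := mul_le_mul_of_nonneg_left t1 (by positivity : (0 : ℝ) ≤ 1944 * C ^ 2)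
  calc 1944 * C ^ 2 * (4 * 2 ^ k * (16 * (Y : ℝ) ^ 2 * T) * X / U.card) +
        (24 * 2 ^ k + 3) * (16 * (Y : ℝ) ^ 2 * T) ^ 3
      ≤ 1944 * C ^ 2 * (64 * 2 ^ k * d * u * c2 * (2 * d) ^ κ / c * (X : ℝ) ^ (1 - η)) +
        (24 * 2 ^ k + 3) * 512 * (X : ℝ) ^ (1 - η) := add_le_add t1' t2
    _ = _ := by ring

open Classical in
/-- **the main theorem** for nodes -/
theorem main_node : ∃ η : ℝ, 0 < η ∧ η < 1 ∧ ∀ (RR : G → G → Prop), Clo RR → ∀ a b : G, Node RR a b →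
    ∃ c : ℝ, ∀ m : ℤ, ∀ X : ℕ, 1 ≤ X →
      ((((range X).filter fun n : ℕ => ¬ ∃ v w, RR v w ∧ R v w = (n : ℤ) + m).card : ℕ) : ℝ) ≤ c * (X : ℝ) ^ (1 - η) := by
  obtain ⟨κ, C, c, B, u, r0, hκ, hC, hc, hB, hu, hfam⟩ := family
  obtain ⟨c2, hc2, hcmp⟩ := cmp_exp κ B hκ hB
  set K : ℕ := 8 * u + 4 with hK
  set k : ℕ := 4 * K with hk
  have hKpos : 0 < K := by omega
  have hKR : (0 : ℝ) < K := by exact_mod_cast hKpos
  set η : ℝ := min (κ / (8 * K)) (1 / 4) with hη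
  have hη0 : 0 < η := lt_min (by positivity) (by norm_num)
  have hηa : η ≤ κ / (8 * K) := min_le_left _ _
  have hηb : η ≤ 1 / 4 := min_le_right _ _
  refine ⟨η, hη0, by linarith, ?_⟩
  intro RR hclo a b hab
  set d : ℝ := (D a b : ℝ) with hd
  have hd0 : 0 < d := by rw [hd]; exact_mod_cast hab.pos
  -- a lower bound for r
  obtain ⟨n1, hn1⟩ := exists_nat_gt (2 * d + 2 * C + 2)
  set r1 : ℕ := max r0 (n1 + 1) with hr1
  set X0 : ℕ := 2 ^ (2 ^ r1 * K) with hX0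
  set c3 : ℝ := 1944 * C ^ 2 * (64 * 2 ^ k * d * u * c2 * (2 * d) ^ κ / c) + (24 * 2 ^ k + 3) * 512 with hc3
  have hc3pos : 0 ≤ c3 := by
    rw [hc3]
    have : 0 ≤ (2 * d) ^ κ := Real.rpow_nonneg (by positivity) _
    positivity
  refine ⟨X0 + c3, ?_⟩
  intro m X hX
  have hXR : (1 : ℝ) ≤ X := by exact_mod_cast hX
  have hXp : (1 : ℝ) ≤ (X : ℝ) ^ (1 - η) := Real.one_le_rpow hXR (by linarith)
  rcases lt_or_ge X X0 with hlt | hge
  · have h1 : ((((range X).filter fun n : ℕ => ¬ ∃ v w, RR v w ∧ R v w = (n : ℤ) + m).card : ℕ) : ℝ) ≤ X := by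
      have := card_filter_le (range X) (fun n : ℕ => ¬ ∃ v w, RR v w ∧ R v w = (n : ℤ) + m)
      rw [card_range] at this
      exact_mod_cast this
    have h2 : (X : ℝ) ≤ X0 := by exact_mod_cast hlt.le
    have h3 : (0 : ℝ) ≤ X0 := by positivity
    nlinarith
  · -- choose r
    have hbd : ∀ m : ℕ, 2 ^ (2 ^ m * K) ≤ X → m ≤ X := by
      intro m hm
      have h1 : m < 2 ^ m := Nat.lt_two_pow_self
      have h2 : 2 ^ m ≤ 2 ^ m * K := Nat.le_mul_of_pos_right _ hKpos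
      have h3 : 2 ^ m * K < 2 ^ (2 ^ m * K) := Nat.lt_two_pow_self
      omega
    set r : ℕ := Nat.findGreatest (fun m => 2 ^ (2 ^ m * K) ≤ X) X with hr
    have hr1r : r1 ≤ r := Nat.le_findGreatest (hbd r1 hge) hge
    have hX1 : 2 ^ (2 ^ r * K) ≤ X :=
      Nat.findGreatest_spec (P := fun m => 2 ^ (2 ^ m * K) ≤ X) (hbd r1 hge) hge
    have hX2 : X < 2 ^ (2 ^ (r + 1) * K) := by
      by_contra hcon
      push Not at hcon
      have := Nat.le_findGreatest (P := fun m => 2 ^ (2 ^ m * K) ≤ X) (hbd (r + 1) hcon) hcon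
      omega
    have hr0 : r0 ≤ r := (le_max_left _ _).trans hr1r
    have hn1r : n1 + 1 ≤ r := (le_max_right _ _).trans hr1r
    have hrone : 1 ≤ r := by omega
    set T : ℝ := 2 ^ 2 ^ (r - 1) / 2 with hT
    have hTn : (n1 : ℝ) ≤ 2 * T := by
      have h1 : r - 1 < 2 ^ (r - 1) := Nat.lt_two_pow_self
      have h2 : 2 ^ (r - 1) < 2 ^ 2 ^ (r - 1) := Nat.lt_two_pow_self
      have h3 : n1 ≤ 2 ^ 2 ^ (r - 1) := by omega
      have h4 : (n1 : ℝ) ≤ 2 ^ 2 ^ (r - 1) := by exact_mod_cast h3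
      rw [hT]; linarith
    have hdT : d ≤ T := by linarith
    have hT1 : 1 ≤ T := by linarith
    have hT2 : T ^ 2 < 2 ^ 2 ^ r := by
      rw [hT, div_pow, ← pow_mul, ← pow_succ, Nat.sub_add_cancel hrone]
      have : (0 : ℝ) < 2 ^ 2 ^ r := by positivity
      linarith
    set Y : ℕ := 2 ^ (2 ^ r * u) with hY
    have hY1 : (1 : ℝ) ≤ Y := by
      have : 1 ≤ Y := Nat.one_le_two_pow
      exact_mod_cast this
    have hA1 : 1 ≤ 8 / 9 * (Y : ℝ) ^ 2 * T / C := by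
      rw [le_div_iff₀ (by linarith)]
      have h1 : (n1 : ℝ) ≤ Y := by
        have h1 : r < 2 ^ r := Nat.lt_two_pow_self
        have h2 : 2 ^ r ≤ 2 ^ r * u := Nat.le_mul_of_pos_right _ hu
        have h3 : 2 ^ r * u < 2 ^ (2 ^ r * u) := Nat.lt_two_pow_self
        have h4 : n1 ≤ Y := by omega
        exact_mod_cast h4
      have h2 : 2 * C ≤ (Y : ℝ) ^ 2 := by nlinarith
      nlinarith
    obtain ⟨U, hU, hcard⟩ := hfam RR hclo a b hab r hr0 T hdT hT1 hT2 Y le_rfl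
    have := f3_one (K := K) (k := k) hκ hC hc hu hc2 hK hk hrone (hcmp r) hd0 T rfl hT1 Y rfl hA1 U hU hcard
      hX1 hX2 η hηa hηb m
    refine this.trans ?_
    rw [← hc3]
    have h3 : (0 : ℝ) ≤ X0 := by positivity
    nlinarith

end Pool.Agent.Flea
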