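import Pool.Agent.Flea.Ch

/-! # MP_fb7c71_nt: growth of the packing -/

set_option autoImplicit false

namespace Pool.Agent.Flea

open Finset

-- MODULE g1
private theorem g1_primes : ∃ Y : Finset ℕ, (∀ y ∈ Y, y.Prime ∧ 100 ≤ y) ∧ 6 ≤ ∑ y ∈ Y, 1 / (y : ℝ) := by
  classical
  set f : ℕ → ℝ := Set.indicator {p | p.Prime} (fun n : ℕ ↦ (1 : ℝ) / n) with hf
  have hns : ¬ Summable f := not_summable_one_div_on_primes
  have hnn : ∀ i, 0 ≤ f i := fun i => Set.indicator_nonneg (fun x _ => by positivity) i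
  have ht := (not_summable_iff_tendsto_nat_atTop_of_nonneg hnn).mp hns
  obtain ⟨n, hn, hn100⟩ := ((Filter.tendsto_atTop.mp ht (6 + ∑ i ∈ range 100, f i)).and
    (Filter.eventually_ge_atTop 100)).exists
  refine ⟨(Ico 100 n).filter Nat.Prime, ?_, ?_⟩
  · intro y hy
    rw [mem_filter, mem_Ico] at hy
    exact ⟨hy.2, hy.1.1⟩
  · have h1 : ∑ y ∈ (Ico 100 n).filter Nat.Prime, 1 / (y : ℝ) = ∑ y ∈ Ico 100 n, f y := by
      rw [sum_filter]
      refine sum_congr rfl fun y _ => ?_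
      rw [hf, Set.indicator_apply]
      rfl
    rw [h1, sum_Ico_eq_sub f hn100]
    linarith

/-- weights -/
theorem weights : ∃ (Y : Finset ℕ) (κ : ℝ), 0 < κ ∧ Y.Nonempty ∧ (∀ y ∈ Y, y.Prime ∧ 11 ≤ y) ∧
    1 ≤ ∑ y ∈ Y, (2 * (y : ℝ) / 9 - 2) * (17 / 16 * (y : ℝ) ^ 2) ^ (-(1 + κ)) := by
  obtain ⟨Y, hY, hs⟩ := g1_primes
  have hne : Y.Nonempty := by
    rw [nonempty_iff_ne_empty]
    rintro rfl
    simp at hs
    linarith
  set F : ℝ → ℝ := fun κ => ∑ y ∈ Y, (2 * (y : ℝ) / 9 - 2) * (17 / 16 * (y : ℝ) ^ 2) ^ (-(1 + κ)) with hF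
  have hc : Continuous F := by
    refine continuous_finsetSum _ fun y hy => ?_
    have hy0 : (0 : ℝ) < 17 / 16 * (y : ℝ) ^ 2 := by
      have : (100 : ℝ) ≤ y := by exact_mod_cast (hY y hy).2
      positivity
    refine continuous_const.mul ?_
    exact Continuous.rpow continuous_const (by fun_prop) fun x => Or.inl hy0.ne'
  have h0 : 1 < F 0 := by
    have h1 : ∀ y ∈ Y, 19 / 100 * (1 / (y : ℝ)) ≤
        (2 * (y : ℝ) / 9 - 2) * (17 / 16 * (y : ℝ) ^ 2) ^ (-(1 + (0 : ℝ))) := by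
      intro y hy
      have hy1 : (100 : ℝ) ≤ y := by exact_mod_cast (hY y hy).2
      have hy0 : (0 : ℝ) < y := by linarith
      rw [add_zero, Real.rpow_neg_one]
      rw [← div_eq_mul_inv, mul_one_div, div_le_div_iff₀ hy0 (by positivity)]
      nlinarith [mul_nonneg (sub_nonneg.mpr hy1) hy0.le, mul_pos hy0 hy0]
    calc (1 : ℝ) < 19 / 100 * 6 := by norm_num
      _ ≤ 19 / 100 * ∑ y ∈ Y, 1 / (y : ℝ) := by gcongr
      _ = ∑ y ∈ Y, 19 / 100 * (1 / (y : ℝ)) := by rw [mul_sum]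
      _ ≤ F 0 := sum_le_sum h1
  have hev : ∀ᶠ κ in nhdsWithin (0 : ℝ) (Set.Ioi 0), 1 < F κ :=
    (hc.continuousAt.continuousWithinAt.eventually (lt_mem_nhds h0))
  obtain ⟨κ, hκ, hκ0⟩ := (hev.and self_mem_nhdsWithin).exists
  exact ⟨Y, κ, hκ0, hne, fun y hy => ⟨(hY y hy).1, by have := (hY y hy).2; omega⟩, hκ.le⟩

-- MODULE g2
private theorem g2_aux {Y : Finset ℕ} {κ C : ℝ} (hκ : 0 < κ) (hC : 1 ≤ C) (hY : ∀ y ∈ Y, y.Prime ∧ 11 ≤ y)
    (hYC : ∀ y ∈ Y, 17 / 16 * (y : ℝ) ^ 2 ≤ C)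
    (hw : 1 ≤ ∑ y ∈ Y, (2 * (y : ℝ) / 9 - 2) * (17 / 16 * (y : ℝ) ^ 2) ^ (-(1 + κ)))
    {RR : G → G → Prop} (hc : Clo RR) : ∀ n : ℕ, ∀ a b : G, Node RR a b → ∀ T : ℝ, (D a b : ℝ) ≤ T →
      T < 8 ^ n * (D a b : ℝ) → ∃ S : Finset (G × G),
        (∀ q ∈ S, Relation.ReflTransGen (Child RR) (a, b) q ∧
          (Node RR q.1 q.2 ∧ T < C * (D q.1 q.2 : ℝ) ∧ (D q.1 q.2 : ℝ) ≤ T)) ∧
        (T / (C * (D a b : ℝ))) ^ (1 + κ) ≤ (S.card : ℝ) := by
  classical
  intro n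
  induction n with
  | zero =>
    intro a b _ T h1 h2
    exfalso
    simp at h2
    linarith
  | succ n ih =>
    intro a b hab T h1 h2
    have hD0 : (0 : ℝ) < D a b := by exact_mod_cast hab.pos
    rcases lt_or_ge T (C * (D a b : ℝ)) with hT | hT
    · refine ⟨{(a, b)}, ?_, ?_⟩
      · intro q hq
        rw [mem_singleton] at hq
        subst hq
        exact ⟨Relation.ReflTransGen.refl, hab, hT, h1⟩
      · rw [card_singleton, Nat.cast_one]
        have hCD : 0 < C * (D a b : ℝ) := by positivity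
        apply Real.rpow_le_one
        · apply div_nonneg (by linarith) hCD.le
        · rw [div_le_one hCD]; exact hT.le
        · linarith
    · obtain ⟨S, hS1, hS2, hS3⟩ := children hc hab Y (fun y hy => ⟨(hY y hy).1, by have := (hY y hy).2; omega⟩)
      have hbd : ∀ y ∈ Y, ∀ q ∈ S y, (D q.1 q.2 : ℝ) ≤ 17 / 16 * (y : ℝ) ^ 2 * D a b := by
        intro y hy q hq
        have := (hS1 y hy q hq).2
        have h3 : (16 : ℝ) * D q.1 q.2 ≤ 17 * (y : ℝ) ^ 2 * D a b := by exact_mod_cast this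
        linarith
      have key : ∀ q : G × G, ∃ Sq : Finset (G × G), q ∈ Y.biUnion S →
          ((∀ r ∈ Sq, Relation.ReflTransGen (Child RR) q r ∧
            (Node RR r.1 r.2 ∧ T < C * (D r.1 r.2 : ℝ) ∧ (D r.1 r.2 : ℝ) ≤ T)) ∧
          (T / (C * (D q.1 q.2 : ℝ))) ^ (1 + κ) ≤ (Sq.card : ℝ)) := by
        intro q
        by_cases hq : q ∈ Y.biUnion S
        · obtain ⟨y, hy, hqy⟩ := mem_biUnion.mp hq
          obtain ⟨hch, _⟩ := hS1 y hy q hqy
          have h3 : (D q.1 q.2 : ℝ) ≤ T := by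
            calc (D q.1 q.2 : ℝ) ≤ 17 / 16 * (y : ℝ) ^ 2 * D a b := hbd y hy q hqy
              _ ≤ C * D a b := by gcongr; exact hYC y hy
              _ ≤ T := hT
          have h4 : T < 8 ^ n * (D q.1 q.2 : ℝ) := by
            have h5 : (8 : ℝ) * D a b ≤ D q.1 q.2 := by exact_mod_cast child_lt hch
            calc T < 8 ^ (n + 1) * (D a b : ℝ) := h2
              _ = 8 ^ n * (8 * D a b) := by ring
              _ ≤ 8 ^ n * D q.1 q.2 := by gcongr
          obtain ⟨Sq, h6, h7⟩ := ih q.1 q.2 hch.nq T h3 h4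
          exact ⟨Sq, fun _ => ⟨h6, h7⟩⟩
        · exact ⟨∅, fun h => absurd h hq⟩
      choose Sq hSq using key
      have hchild : ∀ q ∈ Y.biUnion S, Child RR (a, b) q := by
        intro q hq
        obtain ⟨y, hy, hqy⟩ := mem_biUnion.mp hq
        exact (hS1 y hy q hqy).1
      refine ⟨(Y.biUnion S).biUnion Sq, ?_, ?_⟩
      · intro r hr
        obtain ⟨q, hq, hr⟩ := mem_biUnion.mp hr
        obtain ⟨h3, h4⟩ := (hSq q hq).1 r hr
        exact ⟨Relation.ReflTransGen.head (hchild q hq) h3, h4⟩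
      · have hdis : (↑(Y.biUnion S) : Set (G × G)).PairwiseDisjoint Sq := by
          intro q hq q' hq' hne
          rw [Function.onFun, disjoint_left]
          intro r hr hr'
          exact hne (desc_disjoint (hchild q hq) (hchild q' hq') ((hSq q hq).1 r hr).1 ((hSq q' hq').1 r hr').1)
        rw [card_biUnion hdis, sum_biUnion hS3]
        push_cast
        have hT0 : 0 ≤ T := by linarith
        have hX : 0 ≤ (T / (C * (D a b : ℝ))) ^ (1 + κ) := by positivity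
        calc (T / (C * (D a b : ℝ))) ^ (1 + κ)
            ≤ (∑ y ∈ Y, (2 * (y : ℝ) / 9 - 2) * (17 / 16 * (y : ℝ) ^ 2) ^ (-(1 + κ))) *
              (T / (C * (D a b : ℝ))) ^ (1 + κ) := le_mul_of_one_le_left hX hw
          _ = ∑ y ∈ Y, (2 * (y : ℝ) / 9 - 2) * ((17 / 16 * (y : ℝ) ^ 2) ^ (-(1 + κ)) *
              (T / (C * (D a b : ℝ))) ^ (1 + κ)) := by
              rw [sum_mul]; exact sum_congr rfl fun y _ => by ring
          _ ≤ ∑ y ∈ Y, ∑ q ∈ S y, ((Sq q).card : ℝ) := by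
              refine sum_le_sum fun y hy => ?_
              have hy11 : (11 : ℝ) ≤ y := by exact_mod_cast (hY y hy).2
              have hy0 : (0 : ℝ) < 17 / 16 * (y : ℝ) ^ 2 := by positivity
              have e1 : (17 / 16 * (y : ℝ) ^ 2) ^ (-(1 + κ)) * (T / (C * (D a b : ℝ))) ^ (1 + κ) =
                  (T / (C * (17 / 16 * (y : ℝ) ^ 2 * D a b))) ^ (1 + κ) := by
                rw [Real.rpow_neg hy0.le, ← Real.inv_rpow hy0.le,
                  ← Real.mul_rpow (by positivity) (by positivity)]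
                congr 1
                field_simp
              rw [e1]
              have hcard : 2 * (y : ℝ) / 9 - 2 ≤ ((S y).card : ℝ) := by
                have : (2 : ℝ) * y ≤ 9 * ((S y).card + 2) := by exact_mod_cast hS2 y hy
                linarith
              have hE : 0 ≤ (T / (C * (17 / 16 * (y : ℝ) ^ 2 * D a b))) ^ (1 + κ) := by positivity
              calc (2 * (y : ℝ) / 9 - 2) * (T / (C * (17 / 16 * (y : ℝ) ^ 2 * D a b))) ^ (1 + κ)
                  ≤ ((S y).card : ℝ) * (T / (C * (17 / 16 * (y : ℝ) ^ 2 * D a b))) ^ (1 + κ) := by gcongr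
                _ = ∑ _q ∈ S y, (T / (C * (17 / 16 * (y : ℝ) ^ 2 * D a b))) ^ (1 + κ) := by
                    rw [sum_const, nsmul_eq_mul]
                _ ≤ ∑ q ∈ S y, ((Sq q).card : ℝ) := by
                    refine sum_le_sum fun q hq => ?_
                    have hqW : q ∈ Y.biUnion S := mem_biUnion.mpr ⟨y, hy, hq⟩
                    refine le_trans ?_ (hSq q hqW).2
                    have hDq : (0 : ℝ) < D q.1 q.2 := by exact_mod_cast (hchild q hqW).nq.pos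
                    apply Real.rpow_le_rpow (by positivity) _ (by linarith)
                    gcongr
                    exact hbd y hy q hq

/-- more than `T ^ (1 + κ)` circles with `D` between `T / C` and `T` -/
theorem growth : ∃ κ C : ℝ, 0 < κ ∧ 1 ≤ C ∧ ∀ (RR : G → G → Prop), Clo RR → ∀ a b : G, Node RR a b →
    ∀ T : ℝ, (D a b : ℝ) ≤ T → ∃ S : Finset (G × G),
      (∀ q ∈ S, Node RR q.1 q.2 ∧ T < C * (D q.1 q.2 : ℝ) ∧ (D q.1 q.2 : ℝ) ≤ T) ∧
      (T / (C * (D a b : ℝ))) ^ (1 + κ) ≤ (S.card : ℝ) := by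
  classical
  obtain ⟨Y, κ, hκ, hne, hY, hw⟩ := weights
  obtain ⟨y0, hy0⟩ := hne
  set M : ℕ := Y.sup id with hM
  have hle : ∀ y ∈ Y, y ≤ M := fun y hy => le_sup (f := id) hy
  have hM11 : (11 : ℝ) ≤ M := by exact_mod_cast (hY y0 hy0).2.trans (hle y0 hy0)
  have hC : (1 : ℝ) ≤ 17 / 16 * (M : ℝ) ^ 2 := by nlinarith
  refine ⟨κ, 17 / 16 * (M : ℝ) ^ 2, hκ, hC, ?_⟩
  intro RR hc a b hab T hT
  have hD0 : (0 : ℝ) < D a b := by exact_mod_cast hab.pos
  obtain ⟨n, hn⟩ := pow_unbounded_of_one_lt (T / D a b) (by norm_num : (1 : ℝ) < 8)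
  rw [div_lt_iff₀ hD0] at hn
  obtain ⟨S, h1, h2⟩ := g2_aux hκ hC hY (fun y hy => by
    have : (y : ℝ) ≤ M := by exact_mod_cast hle y hy
    gcongr) hw hc n a b hab T hT hn
  exact ⟨S, fun q hq => (h1 q hq).2, h2⟩

end Pool.Agent.Flea
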