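import Pool.Agent.Flea.Ch

/-! # MP_fb7c71_nt: a first node -/

set_option autoImplicit false

namespace Pool.Agent.Flea

-- MODULE r1
private theorem r1_node {RR : G → G → Prop} (hc : Clo RR) {a b : G} (hab : RR a b) (hcop : IsCoprime a b)
    (hD : 0 < D a b) {x y : ℤ} (hxy : IsCoprime x y) {u : G} (hu : u = x * a + y * b) (h1 : 9 * D a b ≤ N u)
    (h2 : 4 * |u.im| ≤ u.re) : ∃ a' b' : G, Node RR a' b' := by
  have hN : 0 < N u := by linarith
  obtain ⟨a', q1, q2, q3, q4, q5, -⟩ := neighbour hc hab hcop hxy hu hN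
  refine ⟨a', I * u, ⟨q1, q2, ?_, q4, ?_, ?_, ?_, ?_⟩⟩
  · rw [q3]; linarith
  · rw [N_I_mul]; exact q5
  · rw [N_I_mul, q3]; linarith
  · rw [N_I_mul, q3]; linarith
  · rw [re_I_mul, im_I_mul, abs_neg]; exact h2

/-- a first node, from a circle with `0 < D` -/
theorem root_pos {RR : G → G → Prop} (hc : Clo RR) {a b : G} (hab : RR a b) (hcop : IsCoprime a b)
    (hD : 0 < D a b) : ∃ a' b' : G, Node RR a' b' := by
  have hg : 0 < Int.gcd b.im (-a.im) := by
    rw [Nat.pos_iff_ne_zero]
    intro h0
    rw [Int.gcd_eq_zero_iff] at h0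
    unfold D at hD
    have e1 := h0.1
    have e2 : a.im = 0 := by linarith [h0.2]
    rw [e1, e2] at hD
    simp at hD
  obtain ⟨g, x1, y1, hg0, hg1, e1, e2⟩ := Int.exists_gcd_one' hg
  have hc1 : IsCoprime x1 y1 := Int.isCoprime_iff_gcd_eq_one.2 hg1
  obtain ⟨t, s', hst⟩ := hc1
  have hg' : (0 : ℤ) < g := by exact_mod_cast hg0
  set δ := x1 * a.re + y1 * b.re with hδ
  have hδ0 : 0 < δ := by
    have : 0 < δ * g := by
      have : δ * g = D a b := by rw [hδ]; unfold D; linear_combination (-a.re) * e1 - b.re * e2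
      rw [this]; exact hD
    exact pos_of_mul_pos_left this hg'.le
  have him : x1 * a.im + y1 * b.im = 0 := by
    have : (x1 * a.im + y1 * b.im) * g = 0 := by linear_combination (-a.im) * e1 - b.im * e2
    exact (mul_eq_zero.1 this).resolve_right hg'.ne'
  set w : G := ((-s' : ℤ) : G) * a + ((t : ℤ) : G) * b with hw
  set m : ℤ := 9 * D a b + 1 + |w.re| + 4 * |w.im| with hm
  have hm0 : 0 < m := by positivity
  set x : ℤ := m * x1 - s' with hx
  set y : ℤ := m * y1 + t with hy
  set u : G := (x : G) * a + (y : G) * b with hu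
  have hure : u.re = m * δ + w.re := by
    rw [hu, hw, re_comb, re_comb, hδ, hx, hy]; ring
  have huim : u.im = w.im := by
    rw [hu, hw, im_comb, im_comb, hx, hy]; linear_combination m * him
  have hxy : IsCoprime x y := ⟨-y1, x1, by rw [hx, hy]; linear_combination hst⟩
  have h3 : m + w.re ≤ u.re := by rw [hure]; nlinarith
  have h4 := neg_abs_le w.re
  have h5 := abs_nonneg w.im
  have h6 := abs_nonneg w.re
  refine r1_node hc hab hcop hD hxy hu ?_ ?_
  · have : 9 * D a b + 1 ≤ u.re := by linarith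
    unfold N
    nlinarith [sq_nonneg u.im]
  · rw [huim]; linarith

-- MODULE r2
theorem root {RR : G → G → Prop} (hc : Clo RR) {a b : G} (hab : RR a b) (hcop : IsCoprime a b)
    (hb : b ≠ 0) : ∃ a' b' : G, Node RR a' b' := by
  by_cases hD : 0 < D a b
  · exact root_pos hc hab hcop hD
  · have h1 := hc.rot a b hab
    have hI : I * I = -1 := by
      apply ext' <;> simp [I]
    have hD2 : D (I * b) (I * a - b) = N b - D a b := by
      unfold D N
      simp only [Zsqrtd.re_sub, Zsqrtd.im_sub, re_I_mul, im_I_mul]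
      ring
    have hIu : IsUnit I := IsUnit.of_mul_eq_one (-I) (by rw [mul_neg, hI, neg_neg])
    have hcop2 : IsCoprime (I * b) (I * a - b) := by
      have e : I * a - b = I * a + I * b * I := by
        linear_combination (-b) * hI
      rw [e]
      apply IsCoprime.add_mul_left_right
      exact (isCoprime_mul_unit_left_left hIu _ _).2 ((isCoprime_mul_unit_left_right hIu _ _).2 hcop.symm)
    exact root_pos hc h1 hcop2 (by rw [hD2]; have := N_pos hb; linarith)

end Pool.Agent.Flea
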