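import Pool.Agent.Flea.Fin
import Pool.Agent.Flea.Root

/-! # MP_fb7c71_nt: the fleas -/

set_option autoImplicit false

namespace Pool.Agent.Flea

open Finset

/-- `P Q R S` is a square (vertices in this cyclic order) -/
def Square (P Q R S : G) : Prop :=
  (R = Q + I * (Q - P) ∧ S = P + I * (Q - P)) ∨ (R = Q - I * (Q - P) ∧ S = P - I * (Q - P))

/-- a move of the three fleas: two of them, `P ≠ Q`, are replaced by `R`, `S` such that `P Q R S` is a square -/
def Move (c c' : Multiset G) : Prop :=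
  ∃ P Q T R S : G, P ≠ Q ∧ Square P Q R S ∧ c = {P, Q, T} ∧ c' = {R, S, T}

/-- twice the area of the triangle `P Q T` -/
def area2 (P Q T : G) : ℕ := (star (Q - P) * (T - P)).im.natAbs

/-- the area `n / 2` is reached from the triangle `A B C` -/
def Reached (A B C : G) (n : ℕ) : Prop :=
  ∃ P Q T : G, Relation.ReflTransGen Move {A, B, C} {P, Q, T} ∧ area2 P Q T = n

/-- the pairs which come from reachable triangles -/
def Pairs (A B C : G) (a b : G) : Prop :=
  ∃ P Q T : G, Relation.ReflTransGen Move {A, B, C} {P, Q, T} ∧ Q - P = a ∧ T - Q = I * b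

-- MODULE k1
private theorem k1_swap12 (x y z : G) : ({x, y, z} : Multiset G) = {y, x, z} := Multiset.cons_swap x y {z}

private theorem k1_swap23 (x y z : G) : ({x, y, z} : Multiset G) = {x, z, y} := by
  show x ::ₘ ({y, z} : Multiset G) = x ::ₘ ({z, y} : Multiset G)
  rw [Multiset.pair_comm]

private theorem k1_rot (x y z : G) : ({x, y, z} : Multiset G) = {y, z, x} := by
  rw [k1_swap12 x y z, k1_swap23 y x z]

theorem pairs_clo (A B C : G) : Clo (Pairs A B C) := by
  have hI : ∀ z : G, I * (I * z) = -z := by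
    intro z
    apply ext'
    · rw [re_I_mul, im_I_mul, Zsqrtd.re_neg]
    · rw [im_I_mul, re_I_mul, Zsqrtd.im_neg]
  refine ⟨?_, ?_, ?_, ?_, ?_⟩
  · rintro a b ⟨P, Q, T, h, h1, h2⟩
    by_cases ha : a = 0
    · exact ⟨P, Q, T, h, h1, by rw [h2, ha, add_zero]⟩
    · refine ⟨P - I * (Q - P), Q - I * (Q - P), T, h.tail ?_, ?_, ?_⟩
      · refine ⟨P, Q, T, Q - I * (Q - P), P - I * (Q - P), ?_, Or.inr ⟨rfl, rfl⟩, rfl, k1_swap12 _ _ _⟩
        rintro rfl
        exact ha (by rw [← h1, sub_self])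
      · rw [← h1]; ring
      · have h3 : T - (Q - I * (Q - P)) = (T - Q) + I * (Q - P) := by ring
        rw [h3, h1, h2]; ring
  · rintro a b ⟨P, Q, T, h, h1, h2⟩
    by_cases ha : a = 0
    · exact ⟨P, Q, T, h, h1, by rw [h2, ha, sub_zero]⟩
    · refine ⟨P + I * (Q - P), Q + I * (Q - P), T, h.tail ?_, ?_, ?_⟩
      · refine ⟨P, Q, T, Q + I * (Q - P), P + I * (Q - P), ?_, Or.inl ⟨rfl, rfl⟩, rfl, k1_swap12 _ _ _⟩
        rintro rfl
        exact ha (by rw [← h1, sub_self])
      · rw [← h1]; ring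
      · have h3 : T - (Q + I * (Q - P)) = (T - Q) - I * (Q - P) := by ring
        rw [h3, h1, h2]; ring
  · rintro a b ⟨P, Q, T, h, h1, h2⟩
    by_cases hb : b = 0
    · exact ⟨P, Q, T, h, by rw [h1, hb, add_zero], h2⟩
    · have h4 : I * (T - Q) = -b := by rw [h2, hI]
      refine ⟨P, Q + b, T + b, h.tail ?_, ?_, ?_⟩
      · refine ⟨Q, T, P, T + b, Q + b, ?_, Or.inr ⟨?_, ?_⟩, k1_rot _ _ _, ?_⟩
        · rintro rfl
          rw [sub_self, mul_zero] at h4
          exact hb (by rw [eq_comm, neg_eq_zero] at h4; exact h4)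
        · rw [h4]; ring
        · rw [h4]; ring
        · rw [k1_rot P, k1_swap12 (Q + b)]
      · rw [← h1]; ring
      · have h3 : T + b - (Q + b) = T - Q := by ring
        rw [h3, h2]
  · rintro a b ⟨P, Q, T, h, h1, h2⟩
    by_cases hb : b = 0
    · exact ⟨P, Q, T, h, by rw [h1, hb, sub_zero], h2⟩
    · have h4 : I * (T - Q) = -b := by rw [h2, hI]
      refine ⟨P, Q - b, T - b, h.tail ?_, ?_, ?_⟩
      · refine ⟨Q, T, P, T - b, Q - b, ?_, Or.inl ⟨?_, ?_⟩, k1_rot _ _ _, ?_⟩
        · rintro rfl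
          rw [sub_self, mul_zero] at h4
          exact hb (by rw [eq_comm, neg_eq_zero] at h4; exact h4)
        · rw [h4]; ring
        · rw [h4]; ring
        · rw [k1_rot P, k1_swap12 (Q - b)]
      · rw [← h1]; ring
      · have h3 : T - b - (Q - b) = T - Q := by ring
        rw [h3, h2]
  · rintro a b ⟨P, Q, T, h, h1, h2⟩
    refine ⟨Q, T, P, ?_, h2, ?_⟩
    · rw [← k1_rot P Q T]
      exact h
    · have h3 : P - T = -(T - Q) - (Q - P) := by ring
      rw [h3, h1, h2, mul_sub, hI]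
      ring

-- MODULE k2
theorem reached_of_pairs {A B C a b : G} {n : ℕ} (h : Pairs A B C a b) (hn : R a b = n) : Reached A B C n := by
  obtain ⟨P, Q, T, h, h1, h2⟩ := h
  refine ⟨P, Q, T, h, ?_⟩
  have h3 : T - P = a + I * b := by
    rw [← h1, ← h2]; ring
  have h4 : (star a * (a + I * b)).im = R a b := by
    rw [Zsqrtd.im_mul, Zsqrtd.re_star, Zsqrtd.im_star, Zsqrtd.re_add, Zsqrtd.im_add, re_I_mul, im_I_mul]
    unfold R
    ring
  unfold area2
  rw [h1, h3, h4, hn]
  exact Int.natAbs_natCast n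

-- MODULE k3
/-- the first pair -/
theorem pairs_start {A B C : G} (h0 : area2 A B C ≠ 0)
    (hprim : ∀ z c : G, 1 < c.norm → ¬ (c ∣ A - z ∧ c ∣ B - z ∧ c ∣ C - z)) :
    ∃ a b : G, Pairs A B C a b ∧ IsCoprime a b ∧ b ≠ 0 := by
  have hI : I * I = (-1 : G) := by
    apply ext' <;> simp [I]
  have hb : I * (-(I * (C - B))) = C - B := by
    linear_combination -(C - B) * hI
  have hBA : B - A ≠ 0 := by
    intro h
    apply h0
    unfold area2
    rw [h]
    simp
  refine ⟨B - A, -(I * (C - B)), ⟨A, B, C, Relation.ReflTransGen.refl, rfl, hb.symm⟩, ?_, ?_⟩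
  · rw [← EuclideanDomain.gcd_isUnit_iff]
    by_contra hu
    have h1 := EuclideanDomain.gcd_dvd_left (B - A) (-(I * (C - B)))
    have h2 := EuclideanDomain.gcd_dvd_right (B - A) (-(I * (C - B)))
    set c := EuclideanDomain.gcd (B - A) (-(I * (C - B))) with hc
    have hc0 : c ≠ 0 := by
      intro h
      rw [h, zero_dvd_iff] at h1
      exact hBA h1
    have h3 : c ∣ C - B := by
      rw [← hb]
      exact Dvd.dvd.mul_left h2 I
    have hn : 1 < c.norm := by
      have h4 : 0 < c.norm := by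
        rw [← N_eq_norm]
        exact N_pos hc0
      have h5 : c.norm ≠ 1 := by
        intro h
        apply hu
        rw [← Zsqrtd.norm_eq_one_iff, h]
        rfl
      omega
    refine hprim A c hn ⟨?_, h1, ?_⟩
    · rw [sub_self]
      exact dvd_zero c
    · have h6 : C - A = (C - B) + (B - A) := by ring
      rw [h6]
      exact dvd_add h3 h1
  · intro h
    rw [h, mul_zero] at hb
    apply h0
    unfold area2
    have h7 : C - A = B - A := by
      linear_combination -hb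
    rw [h7]
    simp only [Zsqrtd.im_mul, Zsqrtd.re_star, Zsqrtd.im_star]
    have h8 : (B - A).re * (B - A).im + -(B - A).im * (B - A).re = 0 := by ring
    rw [h8]
    rfl

-- MODULE k4
open Classical in
/-- **Theorem.** -/
theorem exceptional : ∃ η : ℝ, 0 < η ∧ ∀ A B C : G, area2 A B C ≠ 0 →
    (∀ z c : G, 1 < c.norm → ¬ (c ∣ A - z ∧ c ∣ B - z ∧ c ∣ C - z)) →
    ∃ c : ℝ, ∀ m X : ℕ, 1 ≤ X →
      ((((range X).filter fun n : ℕ => ¬ Reached A B C (n + m)).card : ℕ) : ℝ) ≤ c * (X : ℝ) ^ (1 - η) := by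
  obtain ⟨η, h0, -, hmain⟩ := main_node
  refine ⟨η, h0, fun A B C hA hprim => ?_⟩
  obtain ⟨a, b, hab, hcop, hb⟩ := pairs_start hA hprim
  have hclo := pairs_clo A B C
  obtain ⟨a', b', hn⟩ := root hclo hab hcop hb
  obtain ⟨c, hc⟩ := hmain _ hclo a' b' hn
  refine ⟨c, fun m X hX => le_trans ?_ (hc m X hX)⟩
  have : ((range X).filter fun n : ℕ => ¬ Reached A B C (n + m)) ⊆
      ((range X).filter fun n : ℕ => ¬ ∃ v w, Pairs A B C v w ∧ R v w = (n : ℤ) + (m : ℤ)) := by
    intro n hn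
    rw [mem_filter] at hn ⊢
    refine ⟨hn.1, fun ⟨v, w, hvw, hR⟩ => hn.2 (reached_of_pairs hvw ?_)⟩
    rw [hR, Nat.cast_add]
  exact_mod_cast card_le_card this

end Pool.Agent.Flea
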