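import Pool.Agent.Flea.Defs

/-! # MP_fb7c71_nt: residue classes and divisors without small prime factors -/

set_option autoImplicit false

namespace Pool.Agent.Flea

open Finset

-- MODULE m1
/-- for a primitive `u` the condition `conj u ∣ n + d I` is a congruence for `n` -/
theorem hit_iff {u : G} (hu : IsCoprime u.re u.im) (d : ℤ) : ∃ r : ℤ, ∀ n : ℤ, Hit u n d ↔ N u ∣ n - r := by
  obtain ⟨s, t, hst⟩ := hu
  refine ⟨d * (s * u.im - t * u.re), fun n => ⟨?_, ?_⟩⟩
  · rintro ⟨h1, h2⟩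
    have h3 : N u ∣ s * (n * u.re - d * u.im) + t * (n * u.im + d * u.re) :=
      dvd_add (Dvd.dvd.mul_left h1 s) (Dvd.dvd.mul_left h2 t)
    have h4 : s * (n * u.re - d * u.im) + t * (n * u.im + d * u.re) = n - d * (s * u.im - t * u.re) := by
      linear_combination n * hst
    rwa [h4] at h3
  · rintro ⟨k, hk⟩
    have hn : n = d * (s * u.im - t * u.re) + N u * k := by linarith
    refine ⟨⟨k * u.re - d * t, ?_⟩, ⟨k * u.im + d * s, ?_⟩⟩
    · rw [hn]
      unfold N
      linear_combination (d * u.im) * hst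
    · rw [hn]
      unfold N
      linear_combination (-(d * u.re)) * hst

theorem hit_dvd {u : G} (hu : 0 < N u) {n d : ℤ} (h : Hit u n d) : N u ∣ n ^ 2 + d ^ 2 := by
  obtain ⟨⟨a, ha⟩, ⟨b, hb⟩⟩ := h
  have h1 : (n * u.re - d * u.im) ^ 2 + (n * u.im + d * u.re) ^ 2 = N u * (n ^ 2 + d ^ 2) := by
    unfold N; ring
  rw [ha, hb] at h1
  refine ⟨a ^ 2 + b ^ 2, ?_⟩
  have h2 : N u * (n ^ 2 + d ^ 2) = N u * (N u * (a ^ 2 + b ^ 2)) := by rw [← h1]; ring
  exact mul_left_cancel₀ hu.ne' h2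

-- MODULE m3
open Classical in
private theorem m3_one (z m : ℕ) (h : ∀ p : ℕ, p.Prime → p ∣ m → ¬ z ≤ p) :
    (m.divisors.filter fun A => ∀ p : ℕ, p.Prime → p ∣ A → z ≤ p).card ≤ 1 := by
  have hs : (m.divisors.filter fun A => ∀ p : ℕ, p.Prime → p ∣ A → z ≤ p) ⊆ {1} := by
    intro A hA
    rw [mem_filter, Nat.mem_divisors] at hA
    obtain ⟨⟨hAm, _⟩, hr⟩ := hA
    rw [mem_singleton]
    by_contra hA1
    obtain ⟨p, hp, hpA⟩ := Nat.exists_prime_and_dvd hA1
    exact h p hp (hpA.trans hAm) (hr p hp hpA)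
  calc _ ≤ ({1} : Finset ℕ).card := card_le_card hs
    _ = 1 := card_singleton 1

open Classical in
/-- few divisors without small prime factors -/
theorem rough_div (z k m : ℕ) (hz : 2 ≤ z) (hm : 0 < m) (hmk : m < z ^ (k + 1)) :
    (m.divisors.filter fun A => ∀ p : ℕ, p.Prime → p ∣ A → z ≤ p).card ≤ 2 ^ k := by
  induction k generalizing m with
  | zero =>
    refine (m3_one z m ?_).trans (by norm_num)
    intro p hp hpm hzp
    have := Nat.le_of_dvd hm hpm
    rw [zero_add, pow_one] at hmk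
    omega
  | succ k ih =>
    by_cases hex : ∃ p : ℕ, p.Prime ∧ p ∣ m ∧ z ≤ p
    · obtain ⟨p, hp, ⟨m', hm'⟩, hzp⟩ := hex
      have hp0 : 0 < p := hp.pos
      have hm'0 : 0 < m' := by
        rcases Nat.eq_zero_or_pos m' with h | h
        · rw [h, mul_zero] at hm'; omega
        · exact h
      have hlt : m' < z ^ (k + 1) := by
        by_contra hge
        push Not at hge
        have h1 : z ^ (k + 1 + 1) ≤ p * m' := by
          calc z ^ (k + 1 + 1) = z * z ^ (k + 1) := by ring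
            _ ≤ p * m' := Nat.mul_le_mul hzp hge
        omega
      have hi := ih m' hm'0 hlt
      set S := m'.divisors.filter fun A => ∀ p : ℕ, p.Prime → p ∣ A → z ≤ p with hS
      have hsub : (m.divisors.filter fun A => ∀ p : ℕ, p.Prime → p ∣ A → z ≤ p) ⊆ S ∪ S.image (fun A => p * A) := by
        intro A hA
        rw [mem_filter, Nat.mem_divisors] at hA
        obtain ⟨⟨hAm, _⟩, hr⟩ := hA
        rw [mem_union]
        by_cases hpA : p ∣ A
        · right
          obtain ⟨A', rfl⟩ := hpA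
          rw [mem_image]
          refine ⟨A', ?_, rfl⟩
          rw [hS, mem_filter, Nat.mem_divisors]
          refine ⟨⟨?_, hm'0.ne'⟩, fun q hq hqA => hr q hq (hqA.trans (Dvd.intro_left p rfl))⟩
          rw [hm'] at hAm
          exact Nat.dvd_of_mul_dvd_mul_left hp0 hAm
        · left
          rw [hS, mem_filter, Nat.mem_divisors]
          refine ⟨⟨?_, hm'0.ne'⟩, hr⟩
          rw [hm'] at hAm
          exact Nat.Coprime.dvd_of_dvd_mul_left ((Nat.Prime.coprime_iff_not_dvd hp).mpr hpA).symm hAm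
      calc _ ≤ (S ∪ S.image (fun A => p * A)).card := card_le_card hsub
        _ ≤ S.card + (S.image (fun A => p * A)).card := card_union_le _ _
        _ ≤ S.card + S.card := Nat.add_le_add_left card_image_le _
        _ ≤ 2 ^ k + 2 ^ k := Nat.add_le_add hi hi
        _ = 2 ^ (k + 1) := by ring
    · push Not at hex
      refine (m3_one z m ?_).trans Nat.one_le_two_pow
      intro p hp hpm hzp
      have := hex p hp hpm
      omega

-- MODULE m4
theorem m4_cop (z : ℕ) {a d : ℤ} (hd : 0 < d) (hdz : d ^ 2 < z)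
    (hr : ∀ p : ℕ, p.Prime → (p : ℤ) ∣ a → z ≤ p) : IsCoprime a d := by
  rw [Int.isCoprime_iff_gcd_eq_one]
  by_contra hg
  obtain ⟨p, hp, hpg⟩ := Nat.exists_prime_and_dvd hg
  have h1 : (p : ℤ) ∣ a := (Int.natCast_dvd_natCast.2 hpg).trans (Int.gcd_dvd_left _ _)
  have h2 : (p : ℤ) ∣ d := (Int.natCast_dvd_natCast.2 hpg).trans (Int.gcd_dvd_right _ _)
  have h3 := hr p hp h1
  have h4 := Int.le_of_dvd hd h2
  have h5 : (z : ℤ) ≤ p := by exact_mod_cast h3
  nlinarith

-- MODULE m5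
private theorem m5_count (A : ℕ) (hA : 0 < A) (r : ℤ) (X : ℕ) :
    ∃ t : ℕ, t ≤ 1 ∧ ((range X).filter fun n : ℕ => (A : ℤ) ∣ (n : ℤ) - r).card = X / A + t := by
  have hr : ∀ n : ℕ, (A : ℤ) ∣ (n : ℤ) - r ↔ n ≡ (r % A).toNat [MOD A] := by
    intro n
    have hA' : (A : ℤ) ≠ 0 := by exact_mod_cast hA.ne'
    have h1 : (((r % A).toNat : ℕ) : ℤ) = r % A := Int.toNat_of_nonneg (Int.emod_nonneg _ hA')
    rw [← Int.natCast_modEq_iff, h1]
    constructor
    · intro h
      exact ((Int.mod_modEq r A).trans (Int.modEq_iff_dvd.2 h)).symm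
    · intro h
      exact Int.modEq_iff_dvd.1 ((Int.mod_modEq r A).symm.trans h.symm)
  have h2 : ((range X).filter fun n : ℕ => (A : ℤ) ∣ (n : ℤ) - r).card = Nat.count (fun n => n ≡ (r % A).toNat [MOD A]) X := by
    rw [Nat.count_eq_card_filter_range]
    congr 1
    apply filter_congr
    intro n _
    exact hr n
  rw [h2, Nat.count_modEq_card _ hA]
  split_ifs
  · exact ⟨1, le_rfl, rfl⟩
  · exact ⟨0, by norm_num, rfl⟩

theorem m5_bd (A : ℕ) (hA : 0 < A) (r : ℤ) (X : ℕ) :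
    |((((range X).filter fun n : ℕ => (A : ℤ) ∣ (n : ℤ) - r).card : ℕ) : ℝ) - X / (A : ℝ)| ≤ 1 := by
  obtain ⟨t, ht, he⟩ := m5_count A hA r X
  rw [he]
  have h1 : (((X / A : ℕ)) : ℝ) ≤ X / (A : ℝ) := Nat.cast_div_le
  have h2 : (X : ℝ) / A < ((X / A : ℕ) : ℝ) + 1 := by
    have hA' : (0 : ℝ) < A := by exact_mod_cast hA
    rw [div_lt_iff₀ hA']
    have := Nat.lt_div_mul_add hA (a := X)
    have h3 : X < (X / A + 1) * A := by rw [add_mul, one_mul]; exact this
    exact_mod_cast h3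
  have h3 : (t : ℝ) ≤ 1 := by exact_mod_cast ht
  have h4 : (0 : ℝ) ≤ t := Nat.cast_nonneg t
  push_cast
  rw [abs_le]
  constructor <;> linarith

end Pool.Agent.Flea
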